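import Pool.Agent.Y463.SK.Defs
import Pool.Agent.W705.JR.Defs

/-!
# Crossing changes of closed braids and plats: definitions

Starting libraries: `Pool.Agent.H891R2.Jones.Diagram` (`Diagram`, `Diagram.fPoly`, `Diagram.writhe`,
`Outer`), `Pool.Agent.W639.RB.Defs` (`Letter`, `braidClosure`), `Pool.Agent.Y463.SK.Defs` (`dia`,
`permW`), `Pool.Agent.W705.JR.Defs` (`plat`).
-/

set_option autoImplicit false

namespace Pool.Agent.D0H83.GD

open Pool.Agent.H891R2.Jones Pool.Agent.W639.RB
open Pool.Agent.W705.JR (plat)
open Pool.Agent.Y463.SK (permW dia)

/-- The standard outsides of a box with `m` strands: the usual closure of braids, and, for `m = 2 k`,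
the plat closures (with any orientations of the arcs). -/
inductive Std : (m : ℕ) → Outer m → Prop
  | closure (m : ℕ) : Std m (braidClosure m)
  | plat (k : ℕ) (b t : Fin k → Bool) : Std (2 * k) (plat k b t)

/-- `Reach M F k G`: the polynomial `G` is reached from the polynomial `F` by `k` crossing changes of
closed braids and plats on at most `M` strands. In one step one takes a braid word on at most `M`
strands one of whose standard closures has the polynomial reached so far, changes one crossing of it,
and passes to the polynomial of the same closure of the new word. -/
inductive Reach (M : ℕ) (F : LaurentPolynomial ℤ) : ℕ → LaurentPolynomial ℤ → Prop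
  | refl : Reach M F 0 F
  | step {k n : ℕ} (hn : n ≤ M) (O : Outer n) (hO : Std n O) (a b : List (Letter n)) (x : Letter n)
      (h : Reach M F k (dia O (a ++ x :: b)).fPoly) :
      Reach M F (k + 1) (dia O (a ++ (!x.1, x.2) :: b)).fPoly

/-- the exponent sum of a braid word -/
def exs {n : ℕ} (b : List (Letter n)) : ℤ := (b.map (fun x => if x.1 then (1:ℤ) else -1)).sum

/-- the crossing numbers of a braid word: the signed number of the letters of `b` whose deletion
leaves a word with the permutation `ρ`. If `ρ` is the permutation of `b` times the transposition of two
strands, this is the number of the positive minus the number of the negative crossings of these two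
strands, and all other crossing numbers are `0`. -/
def cross {n : ℕ} (b : List (Letter n)) (ρ : Equiv.Perm (Fin n)) : ℤ :=
  ∑ j : Fin b.length, if permW (b.eraseIdx j) = ρ then (if (b.get j).1 then 1 else -1) else 0

/-- the net crossing number of a braid word: the sum over the pairs of strands of the absolute value of
the number of their positive crossings minus the number of their negative crossings -/
def netc {n : ℕ} (b : List (Letter n)) : ℤ := ∑ ρ, |cross b ρ|

/-- the size `∑ |j| |g_j|` of a Laurent polynomial `g = ∑ g_j A^j` -/
def nrm (g : LaurentPolynomial ℤ) : ℕ := ∑ j ∈ g.coeff.support, j.natAbs * (g.coeff j).natAbs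

end Pool.Agent.D0H83.GD
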