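import Pool.Agent.D0H83.GD.Val
import Pool.Agent.D0H83.GD.Defs

/-!
# Closures and plats
-/

set_option autoImplicit false

namespace Pool.Agent.D0H83.GD

open Pool.Agent.H891R2.Jones Pool.Agent.TH561 Pool.Agent.W639.RB Pool.Agent.D0H83.FB Finset
open Pool.Agent.W705.JR (plat)
open Pool.Agent.Y463.SK (dia)

/-- the word of the caps -/
def caps : ℕ → ℕ → List ℕ
  | _, 0 => []
  | j, n+1 => 2 * j :: caps (j+1) n

theorem caps_mem (n : ℕ) : ∀ j, ∀ i ∈ caps j n, i + 1 < 2 * (j + n) := by
  induction n with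
  | zero => intro j i hi; simp [caps] at hi
  | succ n ih =>
    intro j i hi
    rw [caps] at hi
    rcases List.mem_cons.1 hi with rfl | hi
    · omega
    · have := ih (j+1) i hi
      omega

theorem caps_length (n : ℕ) : ∀ j, (caps j n).length = n := by
  induction n with
  | zero => intro j; rfl
  | succ n ih => intro j; rw [caps, List.length_cons, ih]

theorem WP_caps {k N : ℕ} (n : ℕ) : ∀ j, j + n = k → ∀ x y : Fin (2 * k) → Fin N,
    WP (KK (2 * k) N) (caps j n) x y =
      ind ((∀ i : Fin k, j ≤ i → x ⟨2 * i, by omega⟩ = x ⟨2 * i + 1, by omega⟩ ∧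
        y ⟨2 * i, by omega⟩ = y ⟨2 * i + 1, by omega⟩) ∧ ∀ l : Fin (2 * k), (l : ℕ) < 2 * j → x l = y l) := by
  induction n with
  | zero =>
    intro j hj x y
    rw [caps, WP_nil, Matrix.one_apply]
    have h1 : ((∀ i : Fin k, j ≤ i → x ⟨2 * i, by omega⟩ = x ⟨2 * i + 1, by omega⟩ ∧
        y ⟨2 * i, by omega⟩ = y ⟨2 * i + 1, by omega⟩) ∧ ∀ l : Fin (2 * k), (l : ℕ) < 2 * j → x l = y l) ↔
        x = y := by
      constructor
      · rintro ⟨_, h⟩
        funext l
        exact h l (by have := l.2; omega)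
      · rintro rfl
        exact ⟨fun i hi => absurd hi (by have := i.2; omega), fun l _ => rfl⟩
    rw [ind_congr h1]
    unfold ind
    split_ifs <;> rfl
  | succ n ih =>
    intro j hj x y
    have hj2 : 2 * j + 1 < 2 * k := by omega
    rw [caps, WP_cons, KK_mul_apply (2 * j) hj2]
    have h1 : ∀ c, WP (KK (2 * k) N) (caps (j+1) n)
        (upd x ⟨2 * j, Nat.lt_of_succ_lt hj2⟩ ⟨2 * j + 1, hj2⟩ c) y =
        if c = y ⟨2 * j, Nat.lt_of_succ_lt hj2⟩ then
          ind (y ⟨2 * j, Nat.lt_of_succ_lt hj2⟩ = y ⟨2 * j + 1, hj2⟩ ∧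
            (∀ i : Fin k, j + 1 ≤ i → x ⟨2 * i, by omega⟩ = x ⟨2 * i + 1, by omega⟩ ∧
              y ⟨2 * i, by omega⟩ = y ⟨2 * i + 1, by omega⟩) ∧
            ∀ l : Fin (2 * k), (l : ℕ) < 2 * j → x l = y l) else 0 := by
      intro c
      rw [ih (j+1) (by omega)]
      have e1 : ∀ l : Fin (2 * k), (l : ℕ) ≠ 2 * j → (l : ℕ) ≠ 2 * j + 1 →
          upd x ⟨2 * j, Nat.lt_of_succ_lt hj2⟩ ⟨2 * j + 1, hj2⟩ c l = x l := by
        intro l h2 h3
        unfold upd
        rw [if_neg]
        rintro (h | h)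
        · exact h2 (by rw [h])
        · exact h3 (by rw [h])
      have e2 : upd x ⟨2 * j, Nat.lt_of_succ_lt hj2⟩ ⟨2 * j + 1, hj2⟩ c ⟨2 * j, Nat.lt_of_succ_lt hj2⟩ = c := by
        unfold upd
        rw [if_pos (Or.inl rfl)]
      have e3 : upd x ⟨2 * j, Nat.lt_of_succ_lt hj2⟩ ⟨2 * j + 1, hj2⟩ c ⟨2 * j + 1, hj2⟩ = c := by
        unfold upd
        rw [if_pos (Or.inr rfl)]
      by_cases hc : c = y ⟨2 * j, Nat.lt_of_succ_lt hj2⟩
      · rw [if_pos hc]
        apply ind_congr
        constructor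
        · rintro ⟨h2, h3⟩
          refine ⟨?_, fun i hi => ?_, fun l hl => ?_⟩
          · have h4 := h3 ⟨2 * j + 1, hj2⟩ (by simp only; omega)
            rw [e3] at h4
            rw [← hc, h4]
          · have h4 := h2 i hi
            rw [e1 _ (by simp only; omega) (by simp only; omega),
              e1 _ (by simp only; omega) (by simp only; omega)] at h4
            exact h4
          · have h4 := h3 l (by omega)
            rw [e1 _ (by omega) (by omega)] at h4
            exact h4
        · rintro ⟨h2, h3, h4⟩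
          refine ⟨fun i hi => ?_, fun l hl => ?_⟩
          · rw [e1 _ (by simp only; omega) (by simp only; omega),
              e1 _ (by simp only; omega) (by simp only; omega)]
            exact h3 i hi
          · by_cases hl1 : (l : ℕ) = 2 * j
            · have : l = ⟨2 * j, Nat.lt_of_succ_lt hj2⟩ := Fin.ext hl1
              rw [this, e2, hc]
            · by_cases hl2 : (l : ℕ) = 2 * j + 1
              · have : l = ⟨2 * j + 1, hj2⟩ := Fin.ext hl2
                rw [this, e3, hc, h2]
              · rw [e1 _ hl1 hl2]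
                exact h4 l (by omega)
      · rw [if_neg hc, ind_neg]
        rintro ⟨_, h3⟩
        have h4 := h3 ⟨2 * j, Nat.lt_of_succ_lt hj2⟩ (by simp only; omega)
        rw [e2] at h4
        exact hc h4
    simp only [h1]
    rw [Finset.sum_ite_eq' Finset.univ]
    simp only [Finset.mem_univ, if_true]
    split_ifs with hx
    · apply ind_congr
      constructor
      · rintro ⟨h2, h3, h4⟩
        refine ⟨fun i hi => ?_, h4⟩
        by_cases hij : (i : ℕ) = j
        · have e4 : (⟨2 * (i:ℕ), by omega⟩ : Fin (2*k)) = ⟨2 * j, Nat.lt_of_succ_lt hj2⟩ := by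
            apply Fin.ext; simp only; omega
          have e5 : (⟨2 * (i:ℕ) + 1, by omega⟩ : Fin (2*k)) = ⟨2 * j + 1, hj2⟩ := by
            apply Fin.ext; simp only; omega
          rw [e4, e5]
          exact ⟨hx, h2⟩
        · exact h3 i (by omega)
      · rintro ⟨h2, h3⟩
        refine ⟨(h2 ⟨j, by omega⟩ le_rfl).2, fun i hi => h2 i (by omega), h3⟩
    · rw [ind_neg]
      rintro ⟨h2, _⟩
      exact hx (h2 ⟨j, by omega⟩ le_rfl).1

/-- colourings of the marked points of a plat are pairs of colourings -/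
def colEquiv (k N : ℕ) :
    (Bool × Fin (2 * k) → Fin N) ≃ (Fin (2 * k) → Fin N) × (Fin (2 * k) → Fin N) where
  toFun u := (fun j => u (false, j), fun j => u (true, j))
  invFun p q := if q.1 then p.2 q.2 else p.1 q.2
  left_inv u := by
    funext q
    obtain ⟨b, j⟩ := q
    cases b <;> rfl
  right_inv p := rfl

/-- the partition function of a standard outside as a trace -/
theorem Std_Zg {m : ℕ} {O : Outer m} (hO : Std m O) : ∃ c : List ℕ, (∀ i ∈ c, i + 1 < m) ∧
    c.length ≤ m ∧ ∀ (A : ℂ) (N : ℕ) (g : (Fin m → Fin N) → ((Fin m → Fin N) → ℂ)),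
      Zg A N O g = Matrix.trace (Matrix.of g * WP (KK m N) c) := by
  cases hO with
  | closure =>
    refine ⟨[], by simp, by simp, fun A N g => ?_⟩
    rw [WP_nil, mul_one]
    unfold Zg Matrix.trace
    refine Finset.sum_congr rfl fun u _ => ?_
    unfold WW braidClosure
    simp
  | plat k b t =>
    refine ⟨caps 0 k, by simpa using caps_mem k 0, by rw [caps_length]; omega, fun A N g => ?_⟩
    unfold Matrix.trace
    simp only [Matrix.diag_apply, Matrix.mul_apply]
    have h1 : ∀ x y : Fin (2 * k) → Fin N, WP (KK (2 * k) N) (caps 0 k) y x =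
        ind (∀ i : Fin k, y ⟨2 * i, by omega⟩ = y ⟨2 * i + 1, by omega⟩ ∧
          x ⟨2 * i, by omega⟩ = x ⟨2 * i + 1, by omega⟩) := by
      intro x y
      rw [WP_caps k 0 (by omega)]
      apply ind_congr
      constructor
      · rintro ⟨h, _⟩ i
        exact h i (Nat.zero_le _)
      · intro h
        exact ⟨fun i _ => h i, fun l hl => absurd hl (by omega)⟩
    simp only [h1]
    unfold Zg
    have h2 : ∀ u : Bool × Fin (2 * k) → Fin N,
        WW A (plat k b t).arcs (plat k b t).crossings u =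
        ind (∀ i : Fin k, u (true, ⟨2 * i, by omega⟩) = u (true, ⟨2 * i + 1, by omega⟩) ∧
          u (false, ⟨2 * i, by omega⟩) = u (false, ⟨2 * i + 1, by omega⟩)) := by
      intro u
      unfold WW
      rw [arcs_prod]
      have e0 : (plat k b t).crossings = [] := rfl
      rw [e0, List.map_nil, List.prod_nil, mul_one]
      apply ind_congr
      unfold plat
      dsimp only
      constructor
      · intro h i
        constructor
        · have h3 := h (if t i then ((true, ⟨2 * i, by omega⟩), (true, ⟨2 * i + 1, by omega⟩))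
            else ((true, ⟨2 * i + 1, by omega⟩), (true, ⟨2 * i, by omega⟩)))
            (List.mem_append_right _ (List.mem_map.2 ⟨i, List.mem_finRange i, rfl⟩))
          by_cases ht : t i
          · rw [if_pos ht] at h3; exact h3
          · rw [if_neg ht] at h3; exact h3.symm
        · have h3 := h (if b i then ((false, ⟨2 * i + 1, by omega⟩), (false, ⟨2 * i, by omega⟩))
            else ((false, ⟨2 * i, by omega⟩), (false, ⟨2 * i + 1, by omega⟩)))
            (List.mem_append_left _ (List.mem_map.2 ⟨i, List.mem_finRange i, rfl⟩))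
          by_cases hb : b i
          · rw [if_pos hb] at h3; exact h3.symm
          · rw [if_neg hb] at h3; exact h3
      · intro h z hz
        rcases List.mem_append.1 hz with hz | hz
        · obtain ⟨i, _, rfl⟩ := List.mem_map.1 hz
          by_cases hb : b i
          · rw [if_pos hb]; exact (h i).2.symm
          · rw [if_neg hb]; exact (h i).2
        · obtain ⟨i, _, rfl⟩ := List.mem_map.1 hz
          by_cases ht : t i
          · rw [if_pos ht]; exact (h i).1
          · rw [if_neg ht]; exact (h i).1.symm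
    have h3 : ∀ u : Bool × Fin (2 * k) → Fin N,
        WW A (plat k b t).arcs (plat k b t).crossings u *
          g (u ∘ (plat k b t).lower) (u ∘ (plat k b t).upper) =
        (fun p : (Fin (2 * k) → Fin N) × (Fin (2 * k) → Fin N) =>
          Matrix.of g p.1 p.2 * ind (∀ i : Fin k, p.2 ⟨2 * i, by omega⟩ = p.2 ⟨2 * i + 1, by omega⟩ ∧
          p.1 ⟨2 * i, by omega⟩ = p.1 ⟨2 * i + 1, by omega⟩)) (colEquiv k N u) := by
      intro u
      rw [h2, mul_comm]
      rfl
    show ∑ u : Bool × Fin (2 * k) → Fin N, WW A (plat k b t).arcs (plat k b t).crossings u *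
          g (u ∘ (plat k b t).lower) (u ∘ (plat k b t).upper) = _
    exact (Finset.sum_congr rfl (fun u _ => h3 u)).trans
      ((Equiv.sum_comp (colEquiv k N) (fun p : (Fin (2 * k) → Fin N) × (Fin (2 * k) → Fin N) =>
          Matrix.of g p.1 p.2 * ind (∀ i : Fin k, p.2 ⟨2 * i, by omega⟩ = p.2 ⟨2 * i + 1, by omega⟩ ∧
          p.1 ⟨2 * i, by omega⟩ = p.1 ⟨2 * i + 1, by omega⟩))).trans (Fintype.sum_prod_type _))

/-- the sum over the states of the bracket of a standard diagram -/
theorem Std_bracket {m : ℕ} (hm : 0 < m) {O : Outer m} (hO : Std m O) : ∃ c : List ℕ,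
    (∀ i ∈ c, i + 1 < m) ∧ c.length ≤ m ∧ ∀ (W : List (Bool × ℕ)), (∀ x ∈ W, x.2 + 1 < m) →
    ∀ (A : ℂ) (hA : A ≠ 0), (-A^2 - (A⁻¹)^2) * evc A hA (draw O W).close.bracket =
      ((terms W).map (fun t => A ^ t.1 * (-A^2 - (A⁻¹)^2) ^ lam m (t.2 ++ c))).sum := by
  obtain ⟨c, hc, hlen, hZ⟩ := Std_Zg hO
  refine ⟨c, hc, hlen, fun W hW A hA => ?_⟩
  have key : dl * (draw O W).close.bracket =
      ∑ i : St W, LaurentPolynomial.T (wt i) * dl ^ lam m (gw i ++ c) := by
    rw [← sub_eq_zero]
    by_contra hne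
    obtain ⟨N, hN, hev⟩ := exists_ev_ne _ hne
    apply hev
    rw [map_sub, sub_eq_zero, map_mul, ev_dl]
    have : Nonempty (draw O W).P := ⟨(draw O W).lower ⟨0, hm⟩⟩
    rw [ev_bracket N hN, Z_close, Zg_draw _ _ hW, hZ]
    have h2 := rho_of (m := m) (N := N) (Ar N) W hW (fun x y => ind (x = y))
    rw [delta_eq, mul_one] at h2
    rw [h2, MR_sum (Ar_ne N hN), Finset.sum_mul, Matrix.trace_sum, map_sum]
    refine Finset.sum_congr rfl fun i _ => ?_
    rw [smul_mul_assoc, ← WP_append, Matrix.trace_smul, trace_lam _ (by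
      intro j hj
      rcases List.mem_append.1 hj with h | h
      · exact gw_mem hW i j h
      · exact hc j h) (by omega), map_mul, map_pow, ev_dl, ev_T, smul_eq_mul]
  have h2 := congrArg (evc A hA) key
  rw [map_mul, evc_dl, map_sum] at h2
  have h3 : ((terms W).map (fun t : ℤ × List ℕ => A ^ t.1 * (-A^2 - (A⁻¹)^2) ^ lam m (t.2 ++ c))).sum =
      ∑ i : St W, A ^ wt i * (-A^2 - (A⁻¹)^2) ^ lam m (gw i ++ c) := by
    rw [← Fin.sum_univ_fun_getElem (terms W)
      (fun t : ℤ × List ℕ => A ^ t.1 * (-A^2 - (A⁻¹)^2) ^ lam m (t.2 ++ c))]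
    rfl
  rw [h2, h3]
  refine Finset.sum_congr rfl fun i _ => ?_
  rw [map_mul, map_pow, evc_dl, evc_T]

end Pool.Agent.D0H83.GD
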