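import Pool.Agent.D0H83.GD.Grow
import Pool.Agent.D0H83.GD.Plat

/-!
# Chains of crossing changes of closed braids and plats
-/

set_option autoImplicit false

namespace Pool.Agent.D0H83.GD

open Pool.Agent.H891R2.Jones Pool.Agent.TH561 Pool.Agent.W639.RB Pool.Agent.D0H83.FB Finset
open Pool.Agent.Y463.SK (dia)

variable {m : ℕ}

/-! ### the writhe -/

/-- the signed number of crossings of a word, seen from the directions `v` of the strands -/
def sw (v : ℕ → ℤ) : List (Bool × ℕ) → ℤ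
  | [] => 0
  | x :: w => sgn x * (v x.2 * v (x.2 + 1)) + sw (v ∘ Equiv.swap x.2 (x.2 + 1)) w

theorem owr_draw (w : List (Bool × ℕ)) : ∀ (O : Outer m), (∀ x ∈ w, x.2 + 1 < m) →
    owr (draw O w) = owr O + sw (pat O.up) w := by
  induction w with
  | nil => intro O _; simp [draw, sw]
  | cons x w ih =>
    intro O hw
    obtain ⟨h1, h2⟩ := push_writhe O x.1 x.2 (hw x List.mem_cons_self)
    have h3 : draw O (x :: w) = draw (O.push x.1 x.2) w := rfl
    rw [h3, ih _ (fun y hy => hw y (List.mem_cons_of_mem _ hy)), h1, h2, sw, add_assoc]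
    rfl

/-- values `±1` at the places of the strands -/
def PmV (m : ℕ) (v : ℕ → ℤ) : Prop := ∀ j < m, v j = 1 ∨ v j = -1

theorem PmV_pat (u : Fin m → Bool) : PmV m (pat u) := by
  intro j hj
  unfold pat
  rw [dif_pos hj]
  split_ifs <;> simp

theorem PmV_swap {v : ℕ → ℤ} (hv : PmV m v) {i : ℕ} (hi : i + 1 < m) :
    PmV m (v ∘ Equiv.swap i (i+1)) := by
  intro j hj
  rw [Function.comp_apply]
  apply hv
  by_cases h1 : j = i
  · rw [h1, Equiv.swap_apply_left]; exact hi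
  · by_cases h2 : j = i + 1
    · rw [h2, Equiv.swap_apply_right]; omega
    · rw [Equiv.swap_apply_of_ne_of_ne h1 h2]; exact hj

theorem PmV_mul {v : ℕ → ℤ} (hv : PmV m v) {i : ℕ} (hi : i + 1 < m) :
    v i * v (i+1) = 1 ∨ v i * v (i+1) = -1 := by
  rcases hv i (by omega) with h | h <;> rcases hv (i+1) hi with h' | h' <;> rw [h, h'] <;> simp

theorem sw_flip (a b : List (Bool × ℕ)) (x : Bool × ℕ) (ha : ∀ y ∈ a, y.2 + 1 < m)
    (hx : x.2 + 1 < m) : ∀ v, PmV m v →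
    ∃ d : ℤ, (d = 1 ∨ d = -1) ∧ sw v (a ++ x :: b) = sw v (a ++ flp x :: b) + 2 * d := by
  induction a with
  | nil =>
    intro v hv
    refine ⟨sgn x * (v x.2 * v (x.2 + 1)), ?_, ?_⟩
    · rcases sgn_cases x with h | h <;> rcases PmV_mul hv hx with h' | h' <;> rw [h, h'] <;> simp
    · rw [List.nil_append, List.nil_append, sw, sw, sgn_flp]
      have : (flp x).2 = x.2 := rfl
      rw [this]
      ring
  | cons y a ih =>
    intro v hv
    obtain ⟨d, hd, h⟩ := ih (fun z hz => ha z (List.mem_cons_of_mem _ hz)) _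
      (PmV_swap hv (ha y List.mem_cons_self))
    refine ⟨d, hd, ?_⟩
    rw [List.cons_append, List.cons_append, sw, sw, h]
    ring

theorem abs_sw (w : List (Bool × ℕ)) : ∀ v, PmV m v → (∀ x ∈ w, x.2 + 1 < m) → |sw v w| ≤ w.length := by
  induction w with
  | nil => intro v _ _; simp [sw]
  | cons x w ih =>
    intro v hv hw
    have h1 := ih _ (PmV_swap hv (hw x List.mem_cons_self)) (fun y hy => hw y (List.mem_cons_of_mem _ hy))
    rw [sw, List.length_cons]
    have h2 : |sgn x * (v x.2 * v (x.2+1))| = 1 := by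
      rcases sgn_cases x with h | h <;> rcases PmV_mul hv (hw x List.mem_cons_self) with h' | h' <;>
        rw [h, h'] <;> simp
    calc _ ≤ |sgn x * (v x.2 * v (x.2+1))| + |sw (v ∘ Equiv.swap x.2 (x.2 + 1)) w| := abs_add_le _ _
      _ ≤ _ := by rw [h2]; push_cast; linarith

/-- the outside has no crossings -/
theorem Std_owr {O : Outer m} (hO : Std m O) : owr O = 0 := by
  cases hO <;> rfl

/-! ### values -/

/-- the writhe of a standard diagram -/
def wr (O : Outer m) (w : List (Bool × ℕ)) : ℤ := (draw O w).close.writhe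

theorem wr_eq {O : Outer m} (hO : Std m O) (w : List (Bool × ℕ)) (hw : ∀ x ∈ w, x.2 + 1 < m) :
    wr O w = sw (pat O.up) w := by
  unfold wr
  rw [close_writhe, owr_draw w O hw, Std_owr hO, zero_add]

theorem abs_wr {O : Outer m} (hO : Std m O) (w : List (Bool × ℕ)) (hw : ∀ x ∈ w, x.2 + 1 < m) :
    |wr O w| ≤ w.length := by
  rw [wr_eq hO w hw]
  exact abs_sw w _ (PmV_pat _) hw

theorem wr_flip {O : Outer m} (hO : Std m O) (a b : List (Bool × ℕ)) (x : Bool × ℕ)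
    (ha : ∀ y ∈ a, y.2 + 1 < m) (hb : ∀ y ∈ b, y.2 + 1 < m) (hx : x.2 + 1 < m) :
    ∃ d : ℤ, (d = 1 ∨ d = -1) ∧ wr O (a ++ x :: b) = wr O (a ++ flp x :: b) + 2 * d := by
  have h1 : ∀ x', x'.2 + 1 < m → ∀ y ∈ a ++ x' :: b, y.2 + 1 < m := by
    intro x' hx' y hy
    rcases List.mem_append.1 hy with h | h
    · exact ha y h
    · rcases List.mem_cons.1 h with rfl | h
      · exact hx'
      · exact hb y h
  rw [wr_eq hO _ (h1 x hx), wr_eq hO _ (h1 (flp x) hx)]
  exact sw_flip a b x ha hx _ (PmV_pat _)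

/-- the sign in front of the values -/
noncomputable def sg0 (m : ℕ) (w : ℤ) : ℂ := (if Even w then 1 else -1) * (-1) ^ m

theorem norm_sg0 (m : ℕ) (w : ℤ) : ‖sg0 m w‖ = 1 := by
  unfold sg0
  rw [norm_mul, norm_pow, norm_neg, norm_one, one_pow, mul_one]
  split_ifs
  · exact norm_one
  · rw [norm_neg, norm_one]

/-- the value of the normalised bracket of a standard diagram as a weighted trace -/
theorem Std_val (hm : 0 < m) {O : Outer m} (hO : Std m O) : ∃ c : List ℕ,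
    (∀ i ∈ c, i + 1 < m) ∧ c.length ≤ m ∧ ∀ (z : ℂ), (∀ h : ℤ, |h| ≤ m → cz z h ≠ 0) →
    Complex.cosh (2*z) ≠ 0 → ∀ w : List (Bool × ℕ), (∀ x ∈ w, x.2 + 1 < m) →
    -(2 * Complex.cosh (2 * z)) * ez z (draw O w).close.fPoly =
      sg0 m (wr O w) * (Complex.exp (3 * (expo w - wr O w) * z) *
        TT (cz z) (NW m z w * WP (EE (cz z)) c)) := by
  obtain ⟨c, hc, hlen, hB⟩ := Std_bracket hm hO
  refine ⟨c, hc, hlen, fun z h0 hD w hw => ?_⟩
  have hD2 : 2 * Complex.cosh (2*z) ≠ 0 := mul_ne_zero two_ne_zero hD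
  have h1 := hB w hw (Complex.exp z) (Complex.exp_ne_zero z)
  rw [dd_eq] at h1
  have h2 : TT (cz z) (wo (Complex.exp z) (EE (m := m) (cz z)) w * WP (EE (cz z)) c) =
      (-1) ^ m * ((terms w).map (fun t => (Complex.exp z) ^ t.1 *
        (-(2 * Complex.cosh (2 * z))) ^ lam m (t.2 ++ c))).sum := by
    rw [wo_terms (Complex.exp_ne_zero z), ← List.sum_map_mul_right, TT_listsum, ← List.sum_map_mul_left]
    congr 1
    apply List.map_congr_left
    intro t ht
    rw [smul_mul_assoc, ← WP_append, TT_smul, TT_word (cz_rec z) h0 hD2 (cz_zero z) _ (by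
      intro j hj
      rcases List.mem_append.1 hj with h | h
      · exact terms_mem w hw t ht j h
      · exact hc j h)]
    ring
  rw [← h1] at h2
  rw [NW_wo, smul_mul_assoc, TT_smul, h2]
  have hm1 : (-1 : ℂ) ^ m * (-1) ^ m = 1 := by rw [← mul_pow]; simp
  have h3 : ez z (draw O w).close.fPoly = (if Even (wr O w) then 1 else -1) *
      (Complex.exp z) ^ (-3 * wr O w) *
      evc (Complex.exp z) (Complex.exp_ne_zero z) (draw O w).close.bracket := by
    unfold ez Diagram.fPoly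
    rw [map_mul, map_mul, evc_T]
    congr 2
    unfold wr
    split_ifs
    · rw [map_one]
    · rw [map_neg, map_one]
  have h4 : Complex.exp (3 * (expo w - wr O w) * z) * (Complex.exp z) ^ (-3 * expo w) =
      (Complex.exp z) ^ (-3 * wr O w) := by
    rw [← Complex.exp_int_mul, ← Complex.exp_int_mul, ← Complex.exp_add]
    congr 1
    push_cast
    ring
  rw [h3]
  unfold sg0
  set X := evc (Complex.exp z) (Complex.exp_ne_zero z) (draw O w).close.bracket with hX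
  calc -(2 * Complex.cosh (2 * z)) * ((if Even (wr O w) then 1 else -1) *
        (Complex.exp z) ^ (-3 * wr O w) * X)
      = (if Even (wr O w) then 1 else -1) * ((-1 : ℂ) ^ m * (-1) ^ m) *
        ((Complex.exp z) ^ (-3 * wr O w) * (-(2 * Complex.cosh (2 * z)) * X)) := by
        rw [hm1]; ring
    _ = _ := by
        rw [← h4]; ring

/-! ### bounds -/

theorem EE_RS {c : ℤ → ℂ} (h1 : ∀ h : ℤ, |h| ≤ m → 1/2 ≤ ‖c h‖ ∧ ‖c h‖ ≤ 2) (i : ℕ) :
    RS (EE (m := m) c i) 8 := by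
  have hB : ∀ x : Fin m → Fin 2, ‖BB c i x‖ ≤ 4 := by
    intro x
    unfold BB
    split_ifs
    · simp
    · rw [norm_div]
      have h2 := (h1 _ (abs_ht x (i+1))).2
      have h3 := (h1 _ (abs_ht x i)).1
      rw [div_le_iff₀ (by linarith)]
      linarith
    · simp
  intro x
  calc ∑ y, ‖EE c i x y‖ ≤ ∑ y, ((if y = x ∘ swp m i then (4:ℝ) else 0) + (if y = x then (4:ℝ) else 0)) := by
        refine Finset.sum_le_sum fun y _ => ?_
        rw [EE_entry]
        refine (norm_sub_le _ _).trans (add_le_add ?_ ?_)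
        · split_ifs
          · exact hB y
          · simp
        · split_ifs
          · exact hB x
          · simp
    _ = 8 := by
        rw [Finset.sum_add_distrib, Finset.sum_ite_eq', Finset.sum_ite_eq']
        simp only [Finset.mem_univ, if_true]
        norm_num

theorem WP_RS {c : ℤ → ℂ} (h1 : ∀ h : ℤ, |h| ≤ m → 1/2 ≤ ‖c h‖ ∧ ‖c h‖ ≤ 2) (L : List ℕ) :
    RS (WP (EE (m := m) c) L) (8 ^ L.length) := by
  induction L with
  | nil => simpa using RS_one
  | cons i L ih =>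
    rw [WP_cons, List.length_cons, pow_succ']
    exact RS_mul (EE_RS h1 i) ih

theorem WP_RS' {c : ℤ → ℂ} (h1 : ∀ h : ℤ, |h| ≤ m → 1/2 ≤ ‖c h‖ ∧ ‖c h‖ ≤ 2) {L : List ℕ}
    (hL : L.length ≤ m) : RS (WP (EE (m := m) c) L) (8 ^ m) :=
  RS_mono (WP_RS h1 L) (pow_le_pow_right₀ (by norm_num) hL)

theorem TT_RS {z : ℂ} (hc : ∀ h : ℤ, |h| ≤ m → ‖cz z h‖ ≤ 2)
    {M : Matrix (Fin m → Fin 2) (Fin m → Fin 2) ℂ} {r : ℝ} (hM : RS M r) :
    ‖TT (cz z) M‖ ≤ 2 ^ m * (2 * r) := by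
  unfold TT SS
  refine (norm_sum_le _ _).trans ?_
  calc ∑ x : Fin m → Fin 2, ‖cz z (ht x m) * M x x‖ ≤ ∑ x : Fin m → Fin 2, 2 * r := by
        refine Finset.sum_le_sum fun x _ => ?_
        rw [norm_mul]
        have h1 := hc _ (abs_ht x m)
        have h2 : ‖M x x‖ ≤ r :=
          (Finset.single_le_sum (f := fun y => ‖M x y‖) (fun y _ => norm_nonneg _)
            (Finset.mem_univ x)).trans (hM x)
        exact mul_le_mul h1 h2 (norm_nonneg _) (by norm_num)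
    _ = _ := by simp

theorem Om_le {θ : ℝ} (hθ : 2 * m * |θ| ≤ 1) (x : Fin m → Fin 2) : Om θ x ≤ 1 := by
  unfold Om
  refine Finset.prod_le_one (fun k _ => ?_) (fun k _ => Real.cos_le_one _)
  have := cos_h hθ (abs_ht x k)
  linarith

theorem Om_ge {θ : ℝ} (hθ : 2 * m * |θ| ≤ 1) (x : Fin m → Fin 2) : (1/2) ^ (m+1) ≤ Om θ x := by
  unfold Om
  have h1 : ∏ k ∈ range (m+1), (1/2 : ℝ) ≤ ∏ k ∈ range (m+1), Real.cos (2 * (ht x k) * θ) :=
    Finset.prod_le_prod (fun k _ => by norm_num) (fun k _ => cos_h hθ (abs_ht x k))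
  rwa [Finset.prod_const, Finset.card_range] at h1

theorem entry_le {θ : ℝ} (hθ : 2 * m * |θ| ≤ 1) {M : Matrix (Fin m → Fin 2) (Fin m → Fin 2) ℂ}
    (hM : M.conjTranspose * GG m θ * M = GG m θ) (x y : Fin m → Fin 2) : ‖M y x‖ ≤ 2 ^ (m+1) := by
  have h := congrFun (congrFun hM x) x
  rw [mul_assoc, Matrix.mul_apply] at h
  unfold GG at h
  simp only [Matrix.diagonal_mul, Matrix.conjTranspose_apply, Matrix.diagonal_apply_eq] at h
  have h1 : ∀ y, star (M y x) * (((Om θ y : ℝ) : ℂ) * M y x) = ((Om θ y * ‖M y x‖^2 : ℝ) : ℂ) := by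
    intro y
    have h2 : star (M y x) * M y x = ((‖M y x‖^2 : ℝ) : ℂ) := by
      have h3 := Complex.normSq_eq_conj_mul_self (z := M y x)
      rw [Complex.normSq_eq_norm_sq] at h3
      exact h3.symm
    calc star (M y x) * (((Om θ y : ℝ) : ℂ) * M y x) = ((Om θ y : ℝ) : ℂ) * (star (M y x) * M y x) := by
          ring
      _ = _ := by rw [h2]; push_cast; ring
  simp only [h1] at h
  rw [← Complex.ofReal_sum] at h
  have h4 : ∑ y, Om θ y * ‖M y x‖^2 = Om θ x := by exact_mod_cast h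
  have h5 : Om θ y * ‖M y x‖^2 ≤ 1 := by
    have h50 : Om θ y * ‖M y x‖^2 ≤ ∑ y', Om θ y' * ‖M y' x‖^2 :=
      Finset.single_le_sum (f := fun y' => Om θ y' * ‖M y' x‖^2)
      (fun y' _ => mul_nonneg (Om_pos hθ y').le (sq_nonneg _)) (Finset.mem_univ y)
    have := Om_le hθ x
    linarith
  have h6 := Om_ge hθ y
  have h7 : ‖M y x‖^2 ≤ 2 ^ (m+1) := by
    have h8 : (1/2 : ℝ) ^ (m+1) * ‖M y x‖^2 ≤ 1 :=
      (mul_le_mul_of_nonneg_right h6 (sq_nonneg _)).trans h5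
    have h9 : (2:ℝ) ^ (m+1) * ((1/2 : ℝ) ^ (m+1) * ‖M y x‖^2) ≤ 2 ^ (m+1) * 1 :=
      mul_le_mul_of_nonneg_left h8 (by positivity)
    rw [← mul_assoc, ← mul_pow] at h9
    norm_num at h9
    exact h9
  have h10 : (1:ℝ) ≤ 2 ^ (m+1) := one_le_pow₀ (by norm_num)
  have h11 := norm_nonneg (M y x)
  by_contra h12
  push Not at h12
  nlinarith

/-- the constant of the unitary bound -/
noncomputable def K1 (m : ℕ) : ℝ := 4 * 64 ^ m

theorem K1_pos (m : ℕ) : 0 < K1 m := by unfold K1; positivity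

theorem cz_I_bd {θ : ℝ} (hθ : 2 * m * |θ| ≤ 1) (h : ℤ) (hh : |h| ≤ m) :
    1/2 ≤ ‖cz (θ * Complex.I) h‖ ∧ ‖cz (θ * Complex.I) h‖ ≤ 2 := by
  rw [cz_I, Complex.norm_real, Real.norm_eq_abs]
  have h1 := cos_h hθ hh
  rw [abs_of_pos (by linarith)]
  exact ⟨h1, by linarith [Real.cos_le_one (2 * h * θ)]⟩

/-- the uniform bound on the imaginary axis -/
theorem TT_cap_bound {θ : ℝ} (hθ : 2 * m * |θ| ≤ 1) (w : List (Bool × ℕ)) (hw : ∀ x ∈ w, x.2 + 1 < m)
    {c : List ℕ} (hc : c.length ≤ m) :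
    ‖TT (cz (θ * Complex.I)) (NW m (θ * Complex.I) w * WP (EE (cz (θ * Complex.I))) c)‖ ≤ K1 m := by
  have h1 : RS (NW m (θ * Complex.I) w) (2 ^ m * 2 ^ (m+1)) := by
    intro x
    calc ∑ y, ‖NW m (θ * Complex.I) w x y‖ ≤ ∑ y : Fin m → Fin 2, (2:ℝ) ^ (m+1) :=
          Finset.sum_le_sum fun y _ => entry_le hθ (NW_inv hθ w hw) y x
      _ = _ := by simp
  have h2 := RS_mul h1 (WP_RS' (cz_I_bd hθ) hc)
  refine (TT_RS (fun h hh => (cz_I_bd hθ h hh).2) h2).trans (le_of_eq ?_)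
  unfold K1
  have : (64:ℝ) ^ m = 2 ^ m * (2 ^ m * (2 ^ m * 8 ^ m)) := by
    rw [← mul_pow, ← mul_pow, ← mul_pow]; norm_num
  rw [this, pow_succ]
  ring

/-- change of one crossing -/
theorem TT_flip {θ : ℝ} (hθ : 2 * m * |θ| ≤ 1) (a b : List (Bool × ℕ)) (x : Bool × ℕ)
    (ha : ∀ y ∈ a, y.2 + 1 < m) (hb : ∀ y ∈ b, y.2 + 1 < m) (hx : x.2 + 1 < m)
    {c : List ℕ} (hc : c.length ≤ m) :
    ‖TT (cz (θ * Complex.I)) (NW m (θ * Complex.I) (a ++ x :: b) * WP (EE (cz (θ * Complex.I))) c) -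
      TT (cz (θ * Complex.I)) (NW m (θ * Complex.I) (a ++ flp x :: b) *
        WP (EE (cz (θ * Complex.I))) c)‖ ≤ 20 * K1 m * |θ| := by
  set z : ℂ := θ * Complex.I with hz
  set P := NW m z a with hP
  set Q := NW m z b with hQ
  set R := WP (EE (m := m) (cz z)) c with hR
  set E := EE (m := m) (cz z) x.2 with hE
  have e1 : NW m z (a ++ x :: b) = P * NL m z x * Q := by rw [NW_append, NW_cons, mul_assoc]
  have e2 : NW m z (a ++ flp x :: b) = P * NL m z (flp x) * Q := by rw [NW_append, NW_cons, mul_assoc]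
  set α := Complex.exp (-2 * sgn x * z) with hα
  set β := Complex.exp (-4 * sgn x * z) with hβ
  set α' := Complex.exp (-2 * sgn (flp x) * z) with hα'
  set β' := Complex.exp (-4 * sgn (flp x) * z) with hβ'
  have e3 : NL m z x = α • 1 + β • E := rfl
  have e4 : NL m z (flp x) = α' • 1 + β' • E := rfl
  have hsb : |((sgn x : ℤ) : ℝ)| = 1 := by
    rcases sgn_cases x with h | h <;> rw [h] <;> simp
  have nα : ‖α‖ = 1 := by
    have : -2 * ((sgn x : ℤ) : ℂ) * z = ((-2 * (sgn x : ℝ) * θ : ℝ) : ℂ) * Complex.I := by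
      rw [hz]; push_cast; ring
    rw [hα, this]
    exact exp_I_norm _
  have nβ : ‖β‖ = 1 := by
    have : -4 * ((sgn x : ℤ) : ℂ) * z = ((-4 * (sgn x : ℝ) * θ : ℝ) : ℂ) * Complex.I := by
      rw [hz]; push_cast; ring
    rw [hβ, this]
    exact exp_I_norm _
  have nβ0 : β ≠ 0 := Complex.exp_ne_zero _
  have dα : ‖α - α'‖ ≤ 4 * |θ| := by
    have h1 : -2 * ((sgn x : ℤ) : ℂ) * z = ((-2 * (sgn x : ℝ) * θ : ℝ) : ℂ) * Complex.I := by
      rw [hz]; push_cast; ring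
    have h2 : -2 * ((sgn (flp x) : ℤ) : ℂ) * z = ((2 * (sgn x : ℝ) * θ : ℝ) : ℂ) * Complex.I := by
      rw [hz, sgn_flp]; push_cast; ring
    rw [hα, hα', h1, h2]
    refine (norm_exp_sub_exp _ _).trans ?_
    have h3 : -2 * (sgn x : ℝ) * θ - 2 * (sgn x : ℝ) * θ = -4 * ((sgn x : ℝ) * θ) := by ring
    rw [h3, abs_mul, abs_mul, hsb]
    norm_num
  have dβ : ‖β - β'‖ ≤ 8 * |θ| := by
    have h1 : -4 * ((sgn x : ℤ) : ℂ) * z = ((-4 * (sgn x : ℝ) * θ : ℝ) : ℂ) * Complex.I := by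
      rw [hz]; push_cast; ring
    have h2 : -4 * ((sgn (flp x) : ℤ) : ℂ) * z = ((4 * (sgn x : ℝ) * θ : ℝ) : ℂ) * Complex.I := by
      rw [hz, sgn_flp]; push_cast; ring
    rw [hβ, hβ', h1, h2]
    refine (norm_exp_sub_exp _ _).trans ?_
    have h3 : -4 * (sgn x : ℝ) * θ - 4 * (sgn x : ℝ) * θ = -8 * ((sgn x : ℝ) * θ) := by ring
    rw [h3, abs_mul, abs_mul, hsb]
    norm_num
  have hab : ∀ y ∈ a ++ b, y.2 + 1 < m := by
    intro y hy
    rcases List.mem_append.1 hy with h | h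
    · exact ha y h
    · exact hb y h
  have haxb : ∀ y ∈ a ++ x :: b, y.2 + 1 < m := by
    intro y hy
    rcases List.mem_append.1 hy with h | h
    · exact ha y h
    · rcases List.mem_cons.1 h with rfl | h
      · exact hx
      · exact hb y h
  have b1 : ‖TT (cz z) (P * Q * R)‖ ≤ K1 m := by
    rw [hP, hQ, ← NW_append]
    exact TT_cap_bound hθ _ hab hc
  have b2 : ‖TT (cz z) (P * NL m z x * Q * R)‖ ≤ K1 m := by
    rw [← e1]
    exact TT_cap_bound hθ _ haxb hc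
  have t1 : TT (cz z) (P * NL m z x * Q * R) = α * TT (cz z) (P * Q * R) +
      β * TT (cz z) (P * E * Q * R) := by
    rw [e3, mul_add, add_mul, add_mul, mul_smul_comm, mul_smul_comm, smul_mul_assoc, smul_mul_assoc,
      smul_mul_assoc, smul_mul_assoc, mul_one, TT_add, TT_smul, TT_smul]
  have t2 : TT (cz z) (P * NL m z (flp x) * Q * R) = α' * TT (cz z) (P * Q * R) +
      β' * TT (cz z) (P * E * Q * R) := by
    rw [e4, mul_add, add_mul, add_mul, mul_smul_comm, mul_smul_comm, smul_mul_assoc, smul_mul_assoc,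
      smul_mul_assoc, smul_mul_assoc, mul_one, TT_add, TT_smul, TT_smul]
  have b3 : ‖TT (cz z) (P * E * Q * R)‖ ≤ 2 * K1 m := by
    have h1 : β * TT (cz z) (P * E * Q * R) = TT (cz z) (P * NL m z x * Q * R) -
        α * TT (cz z) (P * Q * R) := by
      rw [t1]; ring
    have h2 : ‖β * TT (cz z) (P * E * Q * R)‖ ≤ K1 m + 1 * K1 m := by
      rw [h1]
      refine (norm_sub_le _ _).trans (add_le_add b2 ?_)
      rw [norm_mul, nα]
      exact mul_le_mul_of_nonneg_left b1 zero_le_one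
    rw [norm_mul, nβ, one_mul] at h2
    linarith
  rw [e1, e2, t1, t2]
  have h3 : α * TT (cz z) (P * Q * R) + β * TT (cz z) (P * E * Q * R) -
      (α' * TT (cz z) (P * Q * R) + β' * TT (cz z) (P * E * Q * R)) =
      (α - α') * TT (cz z) (P * Q * R) + (β - β') * TT (cz z) (P * E * Q * R) := by ring
  rw [h3]
  have hK := (K1_pos m).le
  calc ‖(α - α') * TT (cz z) (P * Q * R) + (β - β') * TT (cz z) (P * E * Q * R)‖
      ≤ ‖α - α'‖ * ‖TT (cz z) (P * Q * R)‖ + ‖β - β'‖ * ‖TT (cz z) (P * E * Q * R)‖ := by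
        refine (norm_add_le _ _).trans ?_
        rw [norm_mul, norm_mul]
    _ ≤ (4 * |θ|) * K1 m + (8 * |θ|) * (2 * K1 m) := by
        gcongr
    _ = 20 * K1 m * |θ| := by ring

/-- the Lipschitz estimate for one crossing change -/
theorem flip_le (hm : 0 < m) {O : Outer m} (hO : Std m O) {θ : ℝ} (hθ : 2 * m * |θ| ≤ 1)
    (a b : List (Bool × ℕ)) (x : Bool × ℕ)
    (ha : ∀ y ∈ a, y.2 + 1 < m) (hb : ∀ y ∈ b, y.2 + 1 < m) (hx : x.2 + 1 < m) :
    ‖ez (θ * Complex.I) (draw O (a ++ x :: b)).close.fPoly -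
      ez (θ * Complex.I) (draw O (a ++ flp x :: b)).close.fPoly‖ ≤ 32 * K1 m * |θ| := by
  have haxb : ∀ x', x'.2 + 1 < m → ∀ y ∈ a ++ x' :: b, y.2 + 1 < m := by
    intro x' hx' y hy
    rcases List.mem_append.1 hy with h | h
    · exact ha y h
    · rcases List.mem_cons.1 h with rfl | h
      · exact hx'
      · exact hb y h
  have hc2 := cos_two hm hθ
  have hD : Complex.cosh (2 * (θ * Complex.I)) ≠ 0 := by
    rw [cosh_I]
    exact_mod_cast (by linarith : Real.cos (2 * θ) > 0).ne'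
  obtain ⟨c, hc, hlen, hV⟩ := Std_val hm hO
  have v1 := hV (θ * Complex.I) (cz_ne hθ) hD (a ++ x :: b) (haxb x hx)
  have v2 := hV (θ * Complex.I) (cz_ne hθ) hD (a ++ flp x :: b) (haxb (flp x) hx)
  obtain ⟨d, hd, hdw⟩ := wr_flip hO a b x ha hb hx
  have hpar : sg0 m (wr O (a ++ x :: b)) = sg0 m (wr O (a ++ flp x :: b)) := by
    unfold sg0
    have : Even (wr O (a ++ x :: b)) ↔ Even (wr O (a ++ flp x :: b)) := by
      rw [hdw, Int.even_add]
      simp
    simp only [this]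
  set X := ez (θ * Complex.I) (draw O (a ++ x :: b)).close.fPoly with hX
  set Y := ez (θ * Complex.I) (draw O (a ++ flp x :: b)).close.fPoly with hY
  set t1 := TT (cz (θ * Complex.I)) (NW m (θ * Complex.I) (a ++ x :: b) *
    WP (EE (cz (θ * Complex.I))) c) with ht1
  set t2 := TT (cz (θ * Complex.I)) (NW m (θ * Complex.I) (a ++ flp x :: b) *
    WP (EE (cz (θ * Complex.I))) c) with ht2
  set δ1 : ℤ := expo (a ++ x :: b) - wr O (a ++ x :: b) with hδ1
  set δ2 : ℤ := expo (a ++ flp x :: b) - wr O (a ++ flp x :: b) with hδ2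
  have hδ : |((δ1 - δ2 : ℤ) : ℝ)| ≤ 4 := by
    have h1 : δ1 - δ2 = 2 * sgn x - 2 * d := by
      rw [hδ1, hδ2, hdw, expo_append, expo_append, expo_cons, expo_cons, sgn_flp]
      ring
    have h2 : |δ1 - δ2| ≤ 4 := by
      rw [h1]
      rcases sgn_cases x with h | h <;> rcases hd with h' | h' <;> rw [h, h'] <;> simp
    have h3 : ((|δ1 - δ2| : ℤ) : ℝ) ≤ 4 := by exact_mod_cast h2
    rwa [Int.cast_abs] at h3
  have hw1 : Complex.exp (3 * ((expo (a ++ x :: b) : ℂ) - wr O (a ++ x :: b)) * (θ * Complex.I)) =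
      Complex.exp (((3 * δ1 * θ : ℝ) : ℂ) * Complex.I) := by
    congr 1; rw [hδ1]; push_cast; ring
  have hw2 : Complex.exp (3 * ((expo (a ++ flp x :: b) : ℂ) - wr O (a ++ flp x :: b)) *
      (θ * Complex.I)) = Complex.exp (((3 * δ2 * θ : ℝ) : ℂ) * Complex.I) := by
    congr 1; rw [hδ2]; push_cast; ring
  rw [hw1] at v1
  rw [hw2] at v2
  set E1 := Complex.exp (((3 * δ1 * θ : ℝ) : ℂ) * Complex.I) with hE1
  set E2 := Complex.exp (((3 * δ2 * θ : ℝ) : ℂ) * Complex.I) with hE2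
  have nE2 : ‖E2‖ = 1 := exp_I_norm _
  have dE : ‖E1 - E2‖ ≤ 12 * |θ| := by
    refine (norm_exp_sub_exp _ _).trans ?_
    have : 3 * (δ1:ℝ) * θ - 3 * δ2 * θ = 3 * (((δ1 - δ2 : ℤ) : ℝ) * θ) := by push_cast; ring
    rw [this, abs_mul, abs_mul]
    have h1 : |((δ1 - δ2 : ℤ) : ℝ)| * |θ| ≤ 4 * |θ| := by gcongr
    rw [abs_of_pos (show (0:ℝ) < 3 by norm_num)]
    linarith
  have ht1b : ‖t1‖ ≤ K1 m := TT_cap_bound hθ _ (haxb x hx) hlen
  have htd : ‖t1 - t2‖ ≤ 20 * K1 m * |θ| := TT_flip hθ a b x ha hb hx hlen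
  have h1 : -(2 * Complex.cosh (2 * (θ * Complex.I))) * (X - Y) =
      sg0 m (wr O (a ++ flp x :: b)) * ((E1 - E2) * t1 + E2 * (t1 - t2)) := by
    rw [mul_sub, v1, v2, hpar]; ring
  have h2 := congrArg norm h1
  rw [norm_mul, norm_mul (sg0 m _), norm_sg0, one_mul, norm_neg, cosh_I, norm_mul,
    Complex.norm_real] at h2
  have hK := (K1_pos m).le
  have h4 : ‖(E1 - E2) * t1 + E2 * (t1 - t2)‖ ≤ 32 * K1 m * |θ| := by
    calc ‖(E1 - E2) * t1 + E2 * (t1 - t2)‖ ≤ ‖E1 - E2‖ * ‖t1‖ + ‖E2‖ * ‖t1 - t2‖ := by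
          refine (norm_add_le _ _).trans ?_
          rw [norm_mul, norm_mul]
      _ ≤ (12 * |θ|) * K1 m + 1 * (20 * K1 m * |θ|) := by
          rw [nE2]
          gcongr
      _ = _ := by ring
  rw [← h2] at h4
  have h5 : 1 ≤ ‖(2:ℂ)‖ * ‖Real.cos (2 * θ)‖ := by
    rw [Real.norm_eq_abs, abs_of_pos (by linarith)]
    norm_num
    linarith
  calc ‖X - Y‖ = 1 * ‖X - Y‖ := (one_mul _).symm
    _ ≤ ‖(2:ℂ)‖ * ‖Real.cos (2 * θ)‖ * ‖X - Y‖ := mul_le_mul_of_nonneg_right h5 (norm_nonneg _)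
    _ ≤ _ := h4

/-! ### chains of crossing changes -/

theorem dia_of {n : ℕ} (O : Outer n) (w : List (Letter n)) (L : List (Bool × ℕ)) (h : toN w = L) :
    (dia O w).fPoly = (draw O L).close.fPoly := by
  subst h; rfl

/-- chains of crossing changes change the values near `1` little -/
theorem Reach_le {M : ℕ} {F : LaurentPolynomial ℤ} {θ : ℝ} (hθ : 2 * M * |θ| ≤ 1) {k : ℕ}
    {G : LaurentPolynomial ℤ} (h : Reach M F k G) :
    ‖ez (θ * Complex.I) F - ez (θ * Complex.I) G‖ ≤ 32 * K1 M * |θ| * k := by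
  induction h with
  | refl => simp
  | @step k n hn O hO a b x h ih =>
    have hn0 : 0 < n := by
      have := x.2.2
      omega
    have hθn : 2 * n * |θ| ≤ 1 := by
      have h3 : (n:ℝ) ≤ M := by exact_mod_cast hn
      have h4 : 2 * (n:ℝ) * |θ| ≤ 2 * M * |θ| := by gcongr
      linarith
    have h3 := flip_le hn0 hO hθn (toN a) (toN b) (x.1, (x.2 : ℕ)) (toN_mem a) (toN_mem b)
      (by have := x.2.2; simp only; omega)
    rw [dia_of O (a ++ (!x.1, x.2) :: b) (toN a ++ flp (x.1, (x.2 : ℕ)) :: toN b) (by simp [toN, flp])]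
    rw [dia_of O (a ++ x :: b) (toN a ++ (x.1, (x.2 : ℕ)) :: toN b) (by simp [toN])] at ih
    have h6 : K1 n ≤ K1 M := by
      unfold K1
      have : (64:ℝ) ^ n ≤ 64 ^ M := pow_le_pow_right₀ (by norm_num) hn
      linarith
    calc _ ≤ _ := norm_sub_le_norm_sub_add_norm_sub _
          (ez (θ * Complex.I) (draw O (toN a ++ (x.1, (x.2 : ℕ)) :: toN b)).close.fPoly) _
      _ ≤ 32 * K1 M * |θ| * k + 32 * K1 n * |θ| := add_le_add ih h3
      _ ≤ 32 * K1 M * |θ| * k + 32 * K1 M * |θ| := by gcongr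
      _ = _ := by push_cast; ring

end Pool.Agent.D0H83.GD
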