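import Pool.Agent.D0H83.GD.Law

/-!
# The main theorem on crossing changes
-/

set_option autoImplicit false

namespace Pool.Agent.D0H83.GD

open Pool.Agent.H891R2.Jones Pool.Agent.TH561 Pool.Agent.W639.RB Pool.Agent.D0H83.FB Finset Filter
  Topology
open Pool.Agent.Y463.SK (permW dia)
open LaurentPolynomial (C T)

/-- the sum of the coefficients of a Laurent polynomial -/
def csum (g : LaurentPolynomial ℤ) : ℤ := ∑ j ∈ g.coeff.support, g.coeff j

theorem ez_add (z : ℂ) (f g : LaurentPolynomial ℤ) : ez z (f + g) = ez z f + ez z g := by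
  unfold ez; rw [map_add]

theorem ez_C_mul_T (z : ℂ) (n : ℤ) (a : ℤ) : ez z (C a * T n) = a * Complex.exp (n * z) := by
  unfold ez evc
  rw [LaurentPolynomial.eval₂_C_mul_T]
  simp [Complex.exp_int_mul]

theorem ez_sum (z : ℂ) (g : LaurentPolynomial ℤ) :
    ez z g = g.coeff.sum (fun j a => (a : ℂ) * Complex.exp (j * z)) := by
  induction g using LaurentPolynomial.induction_on' with
  | add p q hp hq =>
    rw [ez_add, hp, hq]
    have : (p + q).coeff = p.coeff + q.coeff := by simp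
    rw [this, Finsupp.sum_add_index']
    · intro j; simp
    · intro j a b; push_cast; ring
  | C_mul_T n a =>
    rw [ez_C_mul_T]
    have : (C a * T n : LaurentPolynomial ℤ).coeff = Finsupp.single n a := by
      rw [← LaurentPolynomial.single_eq_C_mul_T]
      rfl
    rw [this, Finsupp.sum_single_index]
    simp

theorem ez_diff (f : LaurentPolynomial ℤ) : Differentiable ℂ (fun z => ez z f) := by
  have : (fun z => ez z f) = fun z => ∑ j ∈ f.coeff.support, (f.coeff j : ℂ) * Complex.exp (j * z) := by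
    funext z; rw [ez_sum]; rfl
  rw [this]
  fun_prop

theorem ez_zero (g : LaurentPolynomial ℤ) : ez 0 g = (csum g : ℂ) := by
  rw [ez_sum]
  unfold csum Finsupp.sum
  push_cast
  refine Finset.sum_congr rfl fun j _ => ?_
  simp

theorem ez_near (g : LaurentPolynomial ℤ) (z : ℂ) (hz : nrm g * ‖z‖ ≤ 1) :
    ‖ez z g - ez 0 g‖ ≤ 2 * (nrm g * ‖z‖) := by
  rw [ez_sum, ez_sum]
  unfold Finsupp.sum
  rw [← Finset.sum_sub_distrib]
  refine (norm_sum_le _ _).trans ?_
  have h1 : ((nrm g : ℕ) : ℝ) = ∑ j ∈ g.coeff.support, ((j.natAbs * (g.coeff j).natAbs : ℕ) : ℝ) := by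
    unfold nrm; push_cast; rfl
  rw [h1, Finset.sum_mul, Finset.mul_sum]
  refine Finset.sum_le_sum fun j hj => ?_
  have h2 : (g.coeff j : ℂ) * Complex.exp (j * z) - (g.coeff j : ℂ) * Complex.exp (j * 0) =
      (g.coeff j : ℂ) * (Complex.exp (j * z) - 1) := by
    rw [mul_zero, Complex.exp_zero]; ring
  have h3 : ((j.natAbs * (g.coeff j).natAbs : ℕ) : ℝ) ≤ nrm g := by
    rw [h1]
    exact Finset.single_le_sum (f := fun j => ((j.natAbs * (g.coeff j).natAbs : ℕ) : ℝ))
      (fun _ _ => Nat.cast_nonneg _) hj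
  have h4 : (1:ℝ) ≤ ((g.coeff j).natAbs : ℝ) := by
    have : (g.coeff j).natAbs ≠ 0 := by
      rw [Int.natAbs_ne_zero]
      exact Finsupp.mem_support_iff.1 hj
    exact_mod_cast Nat.one_le_iff_ne_zero.2 this
  have h5 : ‖(j:ℂ) * z‖ = (j.natAbs : ℝ) * ‖z‖ := by
    rw [norm_mul, Complex.norm_intCast, Nat.cast_natAbs, Int.cast_abs]
  have h6 : ‖(j:ℂ) * z‖ ≤ 1 := by
    rw [h5]
    refine le_trans ?_ hz
    refine mul_le_mul_of_nonneg_right (le_trans ?_ h3) (norm_nonneg _)
    push_cast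
    have : (0:ℝ) ≤ (j.natAbs : ℝ) := Nat.cast_nonneg _
    nlinarith
  have h7 := Complex.norm_exp_sub_one_le h6
  rw [h2, norm_mul]
  have h8 : ‖((g.coeff j : ℤ) : ℂ)‖ = ((g.coeff j).natAbs : ℝ) := by
    rw [Complex.norm_intCast, Nat.cast_natAbs, Int.cast_abs]
  rw [h8]
  calc ((g.coeff j).natAbs : ℝ) * ‖Complex.exp (j * z) - 1‖
      ≤ ((g.coeff j).natAbs : ℝ) * (2 * ‖(j:ℂ) * z‖) := by gcongr
    _ = 2 * (((j.natAbs * (g.coeff j).natAbs : ℕ) : ℝ) * ‖z‖) := by
        rw [h5]; push_cast; ring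

/-- evaluation at `A = 1` modulo `3` -/
noncomputable def e3 : LaurentPolynomial ℤ →+* ZMod 3 :=
  LaurentPolynomial.eval₂ (Int.castRingHom (ZMod 3)) 1

theorem e3_T (n : ℤ) : e3 (T n) = 1 := by
  unfold e3
  rw [LaurentPolynomial.eval₂_T]
  simp

theorem e3_csum (g : LaurentPolynomial ℤ) : e3 g = (csum g : ZMod 3) := by
  have key : e3 g = g.coeff.sum (fun _ a => (a : ZMod 3)) := by
    induction g using LaurentPolynomial.induction_on' with
    | add p q hp hq =>
      rw [map_add, hp, hq]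
      have : (p + q).coeff = p.coeff + q.coeff := by simp
      rw [this, Finsupp.sum_add_index']
      · intro j; simp
      · intro j a b; push_cast; ring
    | C_mul_T n a =>
      have h1 : (C a * T n : LaurentPolynomial ℤ).coeff = Finsupp.single n a := by
        rw [← LaurentPolynomial.single_eq_C_mul_T]
        rfl
      rw [h1, Finsupp.sum_single_index (by simp)]
      unfold e3
      rw [LaurentPolynomial.eval₂_C_mul_T]
      simp
  rw [key]
  unfold csum Finsupp.sum
  push_cast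
  rfl

/-- the value at `1` of the normalised bracket of a diagram is not divisible by `3` -/
theorem csum_ne {P : Type} (D : Diagram P) : csum D.fPoly ≠ 0 := by
  intro h
  have h1 : e3 D.fPoly = 0 := by rw [e3_csum, h]; simp
  have h2 : e3 D.bracket = 2 ^ D.crossings.length := by
    unfold Diagram.bracket
    rw [map_sum]
    have h3 : ∀ s : Fin D.crossings.length → Bool,
        e3 (T (Diagram.weight s) * (-T 2 - T (-2)) ^ (D.loops s - 1)) = 1 := by
      intro s
      rw [map_mul, e3_T, one_mul, map_pow, map_sub, map_neg, e3_T, e3_T]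
      have : (-1 - 1 : ZMod 3) = 1 := by decide
      rw [this, one_pow]
    rw [Finset.sum_congr rfl (fun s _ => h3 s), Finset.sum_const, Finset.card_univ]
    simp
  unfold Diagram.fPoly at h1
  rw [map_mul, map_mul, h2, e3_T] at h1
  have h4 : (2 : ZMod 3) ^ D.crossings.length ≠ 0 := pow_ne_zero _ (by decide)
  split_ifs at h1
  · rw [map_one, one_mul, one_mul] at h1
    exact h4 h1
  · rw [map_neg, map_one, mul_one, neg_mul, one_mul, neg_eq_zero] at h1
    exact h4 h1

variable {m : ℕ}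

theorem Reach_zero {M k : ℕ} {F g : LaurentPolynomial ℤ} (h : Reach M F k g) : ez 0 F = ez 0 g := by
  have h1 := Reach_le (θ := 0) (by simp) h
  rw [abs_zero, mul_zero, zero_mul] at h1
  have h2 := norm_le_zero_iff.1 h1
  have h3 : ((0:ℝ):ℂ) * Complex.I = 0 := by simp
  rw [h3] at h2
  exact sub_eq_zero.1 h2

/-! ### the main theorem -/

theorem main (hm : 0 < m) (M L : ℕ) {ε : ℝ} (hε : 0 < ε) :
    ∃ C : ℕ, ∀ O : Outer m, Std m O → ∀ B : List (List (Letter m)), (∀ b ∈ B, b.length ≤ L) →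
      ∀ (k : ℕ) (g : LaurentPolynomial ℤ), Reach M (dia O B.flatten).fPoly k g →
      |3 * ((dia O B.flatten).writhe : ℝ) + exs B.flatten| ≤
        2 * ((B.map netc).sum : ℤ) + ε * B.length + C * (k + 1 + nrm g) := by
  by_contra hcon
  push Not at hcon
  choose O hO B hB k g hR hlt using fun n : ℕ => hcon (n + 1)
  obtain ⟨r, hr, hr1, hval⟩ := values hm L (half_pos hε)
  -- upper bounds of the left hand side
  have hN0 : ∀ n, 0 ≤ (((B n).map netc).sum : ℤ) := by
    intro n
    refine List.sum_nonneg fun x hx => ?_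
    obtain ⟨b, _, rfl⟩ := List.mem_map.1 hx
    exact Finset.sum_nonneg fun ρ _ => abs_nonneg _
  have hup : ∀ n, |3 * ((dia (O n) (B n).flatten).writhe : ℝ) + exs (B n).flatten| ≤
      4 * L * (B n).length := by
    intro n
    have h6 := length_blocks (B n) (hB n)
    have h1 : |(((dia (O n) (B n).flatten).writhe : ℤ) : ℝ)| ≤ L * (B n).length := by
      have h5 := abs_wr (hO n) (toN (B n).flatten) (toN_mem _)
      rw [toN_length, ← wr_dia] at h5
      have h7 : |(dia (O n) (B n).flatten).writhe| ≤ ((L * (B n).length : ℕ) : ℤ) :=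
        h5.trans (by exact_mod_cast h6)
      exact_mod_cast h7
    have h2 : |((exs (B n).flatten : ℤ) : ℝ)| ≤ L * (B n).length := by
      have h5 := abs_exs (B n).flatten
      have h7 : |exs (B n).flatten| ≤ ((L * (B n).length : ℕ) : ℤ) := h5.trans (by exact_mod_cast h6)
      exact_mod_cast h7
    calc _ ≤ |3 * ((dia (O n) (B n).flatten).writhe : ℝ)| + |(exs (B n).flatten : ℝ)| := abs_add_le _ _
      _ ≤ 3 * (L * (B n).length) + L * (B n).length := by
          rw [abs_mul, abs_of_pos (show (0:ℝ) < 3 by norm_num)]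
          gcongr
      _ = _ := by ring
  have hall : ∀ n : ℕ, ((n:ℝ) + 1) * (k n + 1 + nrm (g n)) ≤ 4 * L * (B n).length := by
    intro n
    have h1 := hlt n
    have h2 := hup n
    have h3 : (0:ℝ) ≤ ((((B n).map netc).sum : ℤ) : ℝ) := by exact_mod_cast hN0 n
    have h4 : 0 ≤ ε * (B n).length := by positivity
    have e : ((n + 1 : ℕ) : ℝ) = n + 1 := by push_cast; ring
    rw [e] at h1
    linarith
  have hL : (0:ℝ) < L := by
    rcases Nat.eq_zero_or_pos L with h | h
    · exfalso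
      have h1 := hall 0
      rw [h] at h1
      have h2 : (0:ℝ) ≤ k 0 := Nat.cast_nonneg _
      have h3 : (0:ℝ) ≤ nrm (g 0) := Nat.cast_nonneg _
      norm_num at h1
      linarith
    · exact_mod_cast h
  have hlen : ∀ n : ℕ, ((n : ℝ) + 1) / (4 * L) ≤ (B n).length := by
    intro n
    have h1 := hall n
    have h2 : (0:ℝ) ≤ k n := Nat.cast_nonneg _
    have h3 : (0:ℝ) ≤ nrm (g n) := Nat.cast_nonneg _
    have h4 : (0:ℝ) ≤ n := Nat.cast_nonneg _
    rw [div_le_iff₀ (by positivity)]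
    nlinarith
  have hpos : ∀ n : ℕ, (0:ℝ) < (B n).length := fun n => by
    have := hlen n
    have h1 : (0:ℝ) < ((n : ℝ) + 1) / (4 * L) := by positivity
    linarith
  have hinf : Tendsto (fun n : ℕ => ((B n).length : ℝ)) atTop atTop := by
    refine tendsto_atTop_mono hlen ?_
    apply Tendsto.atTop_div_const (by positivity)
    exact tendsto_atTop_add_const_right _ _ tendsto_natCast_atTop_atTop
  have hrk : ∀ n : ℕ, (k n : ℝ) / (B n).length ≤ 4 * L * (1 / (n + 1)) := by
    intro n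
    rw [div_le_iff₀ (hpos n)]
    have h1 := hall n
    have h2 : (0:ℝ) ≤ k n := Nat.cast_nonneg _
    have h3 : (0:ℝ) ≤ nrm (g n) := Nat.cast_nonneg _
    have h4 : (0:ℝ) ≤ n := Nat.cast_nonneg _
    have h5 : (k n : ℝ) * (n + 1) ≤ 4 * L * (B n).length := by nlinarith
    have h6 : (k n : ℝ) ≤ 4 * L * (B n).length / (n + 1) := by
      rw [le_div_iff₀ (by positivity)]; exact h5
    calc (k n : ℝ) ≤ _ := h6
      _ = _ := by ring
  have hrg : ∀ n : ℕ, (nrm (g n) : ℝ) / (B n).length ≤ 4 * L * (1 / (n + 1)) := by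
    intro n
    rw [div_le_iff₀ (hpos n)]
    have h1 := hall n
    have h2 : (0:ℝ) ≤ k n := Nat.cast_nonneg _
    have h3 : (0:ℝ) ≤ nrm (g n) := Nat.cast_nonneg _
    have h4 : (0:ℝ) ≤ n := Nat.cast_nonneg _
    have h5 : (nrm (g n) : ℝ) * (n + 1) ≤ 4 * L * (B n).length := by nlinarith
    have h6 : (nrm (g n) : ℝ) ≤ 4 * L * (B n).length / (n + 1) := by
      rw [le_div_iff₀ (by positivity)]; exact h5
    calc (nrm (g n) : ℝ) ≤ _ := h6
      _ = _ := by ring
  have hinv : Tendsto (fun n : ℕ => (1:ℝ) / (B n).length) atTop (𝓝 0) := hinf.const_div_atTop 1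
  have hone : Tendsto (fun n : ℕ => 4 * (L:ℝ) * (1 / ((n:ℝ) + 1))) atTop (𝓝 0) := by
    have := (tendsto_one_div_add_atTop_nhds_zero_nat (𝕜 := ℝ)).const_mul (4 * (L:ℝ))
    simpa using this
  -- the constants
  obtain ⟨c, hc⟩ : ∃ c : ℕ → ℂ, c = fun n => ez 0 (g n) := ⟨_, rfl⟩
  have hc1 : ∀ n, 1 ≤ ‖c n‖ := by
    intro n
    rw [hc]
    simp only
    rw [← Reach_zero (hR n), ez_zero, Complex.norm_intCast]
    have : 1 ≤ |csum (dia (O n) (B n).flatten).fPoly| := Int.one_le_abs (csum_ne _)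
    exact_mod_cast this
  have hcK : ∀ n, ‖c n‖ ≤ K2 m := by
    intro n
    rw [hc]
    simp only
    rw [← Reach_zero (hR n)]
    have := (hval 0 (by simpa using hr) (O n) (hO n) (B n) (hB n)).1
    simpa using this
  have hK2 := K2_pos m
  -- the parameters
  obtain ⟨τ, hτd⟩ : ∃ τ : ℝ, τ = 2 / ε * Real.log (4 * K2 m) := ⟨_, rfl⟩
  have hlog : 0 < Real.log (4 * K2 m) := Real.log_pos (by linarith)
  have hτ : 0 < τ := by rw [hτd]; positivity
  have hτe : K2 m * Real.exp (-(τ * (ε / 2))) = 1 / 4 := by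
    have h1 : τ * (ε / 2) = Real.log (4 * K2 m) := by rw [hτd]; field_simp
    rw [h1, Real.exp_neg, Real.exp_log (by linarith)]
    field_simp
  obtain ⟨R, hRd⟩ : ∃ R : ℝ, R = 4 * τ + 1 := ⟨_, rfl⟩
  have hR0 : 0 < R := by rw [hRd]; linarith
  obtain ⟨φ, hφ⟩ : ∃ φ : ℕ → ℂ → ℂ, φ = fun n ψ =>
      ez (ψ * ((1 / (B n).length : ℝ) : ℂ)) (dia (O n) (B n).flatten).fPoly - c n := ⟨_, rfl⟩
  have hd : ∀ n, DifferentiableOn ℂ (φ n) (Metric.ball 0 R) := by
    intro n
    rw [hφ]
    apply Differentiable.differentiableOn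
    apply Differentiable.sub_const
    exact (ez_diff _).comp (differentiable_id.mul_const _)
  have hnrm : ∀ n (ψ : ℂ), ‖ψ * ((1 / (B n).length : ℝ) : ℂ)‖ = ‖ψ‖ * (1 / (B n).length) := by
    intro n ψ
    rw [norm_mul, Complex.norm_real, Real.norm_eq_abs, abs_of_pos (by have := hpos n; positivity)]
  have hsmall : ∀ᶠ n in atTop, ∀ ψ ∈ Metric.ball (0:ℂ) R,
      ‖ψ * ((1 / (B n).length : ℝ) : ℂ)‖ < r := by
    have h1 := hinv.eventually (gt_mem_nhds (show 0 < r / R by positivity))
    filter_upwards [h1] with n hn ψ hψ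
    rw [hnrm]
    rw [mem_ball_zero_iff] at hψ
    calc ‖ψ‖ * (1 / (B n).length) ≤ R * (1 / (B n).length) := by
          have := hpos n
          gcongr
      _ < R * (r / R) := by gcongr
      _ = r := by field_simp
  have hb : ∀ᶠ n in atTop, ∀ ψ ∈ Metric.ball (0:ℂ) R, ‖φ n ψ‖ ≤
      K2 m * Real.exp ((12 * L + 1) * R) + K2 m := by
    filter_upwards [hsmall] with n h1 ψ hψ
    rw [hφ]
    refine (norm_sub_le _ _).trans (add_le_add ?_ (hcK n))
    refine ((hval _ (h1 ψ hψ) (O n) (hO n) (B n) (hB n)).1).trans ?_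
    rw [hnrm]
    rw [mem_ball_zero_iff] at hψ
    have h2 : ((B n).length : ℝ) * (‖ψ‖ * (1 / (B n).length)) = ‖ψ‖ := by
      have := (hpos n).ne'
      field_simp
    rw [h2]
    have : 0 ≤ K2 m := by linarith
    gcongr
  have hl : ∀ ξ : ℝ, |ξ| < R → Tendsto (fun n => φ n (ξ * Complex.I)) atTop (𝓝 0) := by
    intro ξ hξ
    rw [tendsto_zero_iff_norm_tendsto_zero]
    have h1 : ∀ᶠ n : ℕ in atTop, ‖φ n (ξ * Complex.I)‖ ≤
        (32 * K1 M * |ξ| + 2 * |ξ|) * (4 * L * (1 / ((n:ℝ) + 1))) := by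
      have h2 := hinv.eventually (gt_mem_nhds (show 0 < 1 / (2 * M * |ξ| + 1) by positivity))
      have h3 := hone.eventually (gt_mem_nhds (show 0 < 1 / (|ξ| + 1) by positivity))
      filter_upwards [h2, h3] with n hn hn3
      have hp := hpos n
      have hθ : 2 * M * |ξ * (1 / (B n).length)| ≤ 1 := by
        rw [abs_mul, abs_of_pos (show (0:ℝ) < 1 / (B n).length by positivity)]
        calc 2 * M * (|ξ| * (1 / (B n).length)) = 2 * M * |ξ| * (1 / (B n).length) := by ring
          _ ≤ (2 * M * |ξ| + 1) * (1 / (2 * M * |ξ| + 1)) := by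
              gcongr
              linarith
          _ = 1 := by
              have : (2 * M * |ξ| + 1 : ℝ) ≠ 0 := by positivity
              field_simp
      have h4 : ((ξ * (1 / (B n).length) : ℝ) : ℂ) * Complex.I =
          (ξ * Complex.I) * ((1 / (B n).length : ℝ) : ℂ) := by push_cast; ring
      have h5 := Reach_le hθ (hR n)
      rw [h4] at h5
      have h6 : ‖(ξ * Complex.I) * ((1 / (B n).length : ℝ) : ℂ)‖ = |ξ| * (1 / (B n).length) := by
        rw [hnrm, norm_mul, Complex.norm_I, mul_one, Complex.norm_real, Real.norm_eq_abs]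
      have hgr := hrg n
      have hkr := hrk n
      have h7 : (nrm (g n) : ℝ) * ‖(ξ * Complex.I) * ((1 / (B n).length : ℝ) : ℂ)‖ ≤
          |ξ| * (4 * L * (1 / ((n:ℝ) + 1))) := by
        rw [h6]
        calc (nrm (g n) : ℝ) * (|ξ| * (1 / (B n).length)) =
            |ξ| * ((nrm (g n) : ℝ) / (B n).length) := by ring
          _ ≤ _ := by gcongr
      have h8 : (nrm (g n) : ℝ) * ‖(ξ * Complex.I) * ((1 / (B n).length : ℝ) : ℂ)‖ ≤ 1 := by
        refine h7.trans ?_
        calc |ξ| * (4 * L * (1 / ((n:ℝ) + 1))) ≤ (|ξ| + 1) * (1 / (|ξ| + 1)) := by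
              gcongr
              linarith
          _ = 1 := by
              have : (|ξ| + 1 : ℝ) ≠ 0 := by positivity
              field_simp
      have h9 := ez_near (g n) _ h8
      rw [hφ, hc]
      simp only
      calc _ ≤ _ := norm_sub_le_norm_sub_add_norm_sub _
            (ez ((ξ * Complex.I) * ((1 / (B n).length : ℝ) : ℂ)) (g n)) _
        _ ≤ 32 * K1 M * |ξ * (1 / (B n).length)| * (k n) +
            2 * ((nrm (g n) : ℝ) * ‖(ξ * Complex.I) * ((1 / (B n).length : ℝ) : ℂ)‖) :=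
            add_le_add h5 h9
        _ ≤ 32 * K1 M * |ξ| * (4 * L * (1 / ((n:ℝ) + 1))) + 2 * (|ξ| * (4 * L * (1 / ((n:ℝ) + 1)))) := by
            have hK1 := K1_pos M
            have h10 : 32 * K1 M * |ξ * (1 / (B n).length)| * (k n) =
                32 * K1 M * |ξ| * ((k n : ℝ) / (B n).length) := by
              rw [abs_mul, abs_of_pos (show (0:ℝ) < 1 / (B n).length by positivity)]
              ring
            rw [h10]
            gcongr
        _ = _ := by ring
    have h6 : Tendsto (fun n : ℕ => (32 * K1 M * |ξ| + 2 * |ξ|) * (4 * L * (1 / ((n:ℝ) + 1))))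
        atTop (𝓝 0) := by
      have := hone.const_mul (32 * K1 M * |ξ| + 2 * |ξ|)
      simpa using this
    exact squeeze_zero' (Eventually.of_forall fun n => norm_nonneg _) h1 h6
  have hlim : ∀ t : ℝ, |t| ≤ τ → Tendsto (fun n => φ n t) atTop (𝓝 0) := by
    intro t ht
    exact vit hR0 (show 0 < K2 m * Real.exp ((12 * L + 1) * R) + K2 m by positivity) φ hd hb hl
      (t : ℂ) (by
        rw [Complex.norm_real, Real.norm_eq_abs, hRd]
        linarith)
  have hp1 := (tendsto_zero_iff_norm_tendsto_zero.1 (hlim τ (by rw [abs_of_pos hτ]))).eventually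
    (gt_mem_nhds (show (0:ℝ) < 1/2 by norm_num))
  have hm1 := (tendsto_zero_iff_norm_tendsto_zero.1 (hlim (-τ) (by rw [abs_neg, abs_of_pos hτ]))).eventually
    (gt_mem_nhds (show (0:ℝ) < 1/2 by norm_num))
  obtain ⟨n, h1, h2, h3⟩ := (hp1.and (hm1.and hsmall)).exists
  have hp := hpos n
  -- the sign
  obtain ⟨t, ht, htE, hφt⟩ : ∃ t : ℝ, |t| = τ ∧
      -(3 * ((dia (O n) (B n).flatten).writhe : ℝ) + exs (B n).flatten) * t =
        -|3 * ((dia (O n) (B n).flatten).writhe : ℝ) + exs (B n).flatten| * τ ∧ ‖φ n t‖ < 1/2 := by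
    rcases le_total 0 (3 * ((dia (O n) (B n).flatten).writhe : ℝ) + exs (B n).flatten) with h | h
    · exact ⟨τ, abs_of_pos hτ, by rw [abs_of_nonneg h], h1⟩
    · exact ⟨-τ, by rw [abs_neg, abs_of_pos hτ], by rw [abs_of_nonpos h]; ring, h2⟩
  have h4 : ‖(t : ℂ) * ((1 / (B n).length : ℝ) : ℂ)‖ < r := by
    apply h3
    rw [mem_ball_zero_iff, Complex.norm_real, Real.norm_eq_abs, ht, hRd]
    linarith
  have h5 := (hval _ h4 (O n) (hO n) (B n) (hB n)).2 (t * (1 / (B n).length)) (by push_cast; ring)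
  have h6 : -(3 * ((dia (O n) (B n).flatten).writhe : ℝ) + exs (B n).flatten) * (t * (1 / (B n).length)) +
      2 * |t * (1 / (B n).length)| * ((((B n).map netc).sum : ℤ) : ℝ) +
        ε / 2 * |t * (1 / (B n).length)| * (B n).length ≤ -(τ * (ε / 2)) := by
    rw [abs_mul, ht, abs_of_pos (show (0:ℝ) < 1 / (B n).length by positivity)]
    have e1 : -(3 * ((dia (O n) (B n).flatten).writhe : ℝ) + exs (B n).flatten) *
        (t * (1 / (B n).length)) =
        -|3 * ((dia (O n) (B n).flatten).writhe : ℝ) + exs (B n).flatten| * τ * (1 / (B n).length) := by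
      rw [← htE]; ring
    rw [e1]
    have h7 := hlt n
    have h8 : (0:ℝ) ≤ ((n + 1 : ℕ) : ℝ) * (k n + 1 + nrm (g n)) := by positivity
    have h9 : 2 * ((((B n).map netc).sum : ℤ) : ℝ) + ε * (B n).length ≤
        |3 * ((dia (O n) (B n).flatten).writhe : ℝ) + exs (B n).flatten| := by linarith
    have h10 : (τ * (1 / (B n).length)) * (2 * ((((B n).map netc).sum : ℤ) : ℝ) + ε * (B n).length) ≤
        (τ * (1 / (B n).length)) *
          |3 * ((dia (O n) (B n).flatten).writhe : ℝ) + exs (B n).flatten| :=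
      mul_le_mul_of_nonneg_left h9 (by positivity)
    have h11 : τ * (1 / ((B n).length : ℝ)) * (ε * (B n).length) = τ * ε := by field_simp
    nlinarith
  have h7 : ‖ez ((t : ℂ) * ((1 / (B n).length : ℝ) : ℂ)) (dia (O n) (B n).flatten).fPoly‖ ≤ 1/4 := by
    refine h5.trans ?_
    rw [← hτe]
    have : 0 ≤ K2 m := by linarith
    gcongr
  have h8 : c n = ez ((t : ℂ) * ((1 / (B n).length : ℝ) : ℂ)) (dia (O n) (B n).flatten).fPoly -
      φ n t := by
    rw [hφ]; ring
  have h9 : ‖c n‖ ≤ 1/4 + 1/2 := by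
    rw [h8]
    exact (norm_sub_le _ _).trans (add_le_add h7 hφt.le)
  have := hc1 n
  linarith

theorem writhe_closure {n : ℕ} (w : List (Letter n)) : (dia (braidClosure n) w).writhe = exs w := by
  rw [wr_dia, exs_eq]
  unfold wr
  rw [close_writhe, (draw_up (toN w) (braidClosure n) (toN_mem w) (fun _ => rfl)).2]
  unfold owr braidClosure
  simp

theorem sum_cross {n : ℕ} (b : List (Letter n)) : ∑ ρ, cross b ρ = exs b := by
  rw [exs_eq, ← sum_cr (m := n)]
  exact Finset.sum_congr rfl fun ρ _ => cross_eq b ρ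

theorem main_pos (hm : 0 < m) (M L : ℕ) :
    ∃ C : ℕ, ∀ B : List (List (Letter m)),
      (∀ b ∈ B, b.length ≤ L ∧ (∀ ρ, 0 ≤ cross b ρ) ∧ 0 < exs b) →
      ∀ (k : ℕ) (g : LaurentPolynomial ℤ), Reach M (dia (braidClosure m) B.flatten).fPoly k g →
      B.length ≤ C * (k + 1 + nrm g) := by
  obtain ⟨C, hC⟩ := main hm M L (show (0:ℝ) < 1 by norm_num)
  refine ⟨C, fun B hB k g hR => ?_⟩
  have h1 := hC _ (Std.closure m) B (fun b hb => (hB b hb).1) k g hR
  rw [writhe_closure] at h1
  have h2 : (B.map netc).sum = exs B.flatten ∧ (B.length : ℤ) ≤ exs B.flatten := by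
    clear h1 hR
    induction B with
    | nil => simp [exs]
    | cons b B ih =>
      obtain ⟨i1, i2⟩ := ih (fun b' hb' => hB b' (List.mem_cons_of_mem _ hb'))
      obtain ⟨_, j1, j2⟩ := hB b List.mem_cons_self
      rw [List.map_cons, List.sum_cons, List.flatten_cons, exs_append, List.length_cons, i1]
      have h3 : netc b = exs b := by
        rw [← sum_cross]
        unfold netc
        exact Finset.sum_congr rfl fun ρ _ => abs_of_nonneg (j1 ρ)
      rw [h3]
      refine ⟨rfl, ?_⟩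
      push_cast
      omega
  rw [h2.1] at h1
  have h3 : (B.length : ℝ) ≤ exs B.flatten := by exact_mod_cast h2.2
  have h4 : (0:ℝ) ≤ exs B.flatten := le_trans (Nat.cast_nonneg _) h3
  have h5 : |3 * ((exs B.flatten : ℤ) : ℝ) + exs B.flatten| = 4 * exs B.flatten := by
    rw [abs_of_nonneg (by linarith)]; ring
  rw [h5] at h1
  have h6 : (B.length : ℝ) ≤ C * (k + 1 + nrm g) := by linarith
  exact_mod_cast h6

end Pool.Agent.D0H83.GD
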