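import Pool.Agent.D0H83.GD.Lip

/-!
# First order expansion of the operators of braid words at `1`
-/

set_option autoImplicit false

namespace Pool.Agent.D0H83.GD

open Pool.Agent.H891R2.Jones Pool.Agent.TH561 Pool.Agent.W639.RB Pool.Agent.D0H83.FB Finset Filter
  Topology
open Pool.Agent.Y463.SK (permW)

variable {m : ℕ}

/-! ### row sums -/

/-- the row sums are bounded by `r` -/
def RS (M : Matrix (Fin m → Fin 2) (Fin m → Fin 2) ℂ) (r : ℝ) : Prop := ∀ x, ∑ y, ‖M x y‖ ≤ r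

theorem RS_nonneg {M : Matrix (Fin m → Fin 2) (Fin m → Fin 2) ℂ} {r : ℝ} (h : RS M r) : 0 ≤ r :=
  (Finset.sum_nonneg fun _ _ => norm_nonneg _).trans (h fun _ => 0)

theorem RS_mul {M N : Matrix (Fin m → Fin 2) (Fin m → Fin 2) ℂ} {r s : ℝ} (hM : RS M r)
    (hN : RS N s) : RS (M * N) (r * s) := by
  intro x
  have hs := RS_nonneg hN
  calc ∑ y, ‖(M * N) x y‖ ≤ ∑ y, ∑ k, ‖M x k‖ * ‖N k y‖ := by
        refine Finset.sum_le_sum fun y _ => ?_
        rw [Matrix.mul_apply]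
        refine (norm_sum_le _ _).trans ?_
        refine Finset.sum_le_sum fun k _ => ?_
        rw [norm_mul]
    _ = ∑ k, ‖M x k‖ * ∑ y, ‖N k y‖ := by
        rw [Finset.sum_comm]
        refine Finset.sum_congr rfl fun k _ => ?_
        rw [Finset.mul_sum]
    _ ≤ ∑ k, ‖M x k‖ * s := by
        refine Finset.sum_le_sum fun k _ => ?_
        exact mul_le_mul_of_nonneg_left (hN k) (norm_nonneg _)
    _ = (∑ k, ‖M x k‖) * s := by rw [Finset.sum_mul]
    _ ≤ r * s := mul_le_mul_of_nonneg_right (hM x) hs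

theorem RS_mono {M : Matrix (Fin m → Fin 2) (Fin m → Fin 2) ℂ} {r s : ℝ} (hM : RS M r)
    (h : r ≤ s) : RS M s := fun x => (hM x).trans h

theorem RS_add {M N : Matrix (Fin m → Fin 2) (Fin m → Fin 2) ℂ} {r s : ℝ} (hM : RS M r)
    (hN : RS N s) : RS (M + N) (r + s) := by
  intro x
  calc ∑ y, ‖(M + N) x y‖ ≤ ∑ y, (‖M x y‖ + ‖N x y‖) := by
        refine Finset.sum_le_sum fun y _ => ?_
        rw [Matrix.add_apply]
        exact norm_add_le _ _
    _ = ∑ y, ‖M x y‖ + ∑ y, ‖N x y‖ := Finset.sum_add_distrib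
    _ ≤ r + s := add_le_add (hM x) (hN x)

theorem RS_smul {M : Matrix (Fin m → Fin 2) (Fin m → Fin 2) ℂ} {r : ℝ} (a : ℂ) (hM : RS M r) :
    RS (a • M) (‖a‖ * r) := by
  intro x
  calc ∑ y, ‖(a • M) x y‖ = ‖a‖ * ∑ y, ‖M x y‖ := by
        rw [Finset.mul_sum]
        refine Finset.sum_congr rfl fun y _ => ?_
        rw [Matrix.smul_apply, norm_smul]
    _ ≤ ‖a‖ * r := mul_le_mul_of_nonneg_left (hM x) (norm_nonneg _)

theorem RS_PM (π : Equiv.Perm (Fin m)) : RS (PM π) 1 := by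
  intro x
  have : ∀ y, ‖PM π x y‖ = if y = x ∘ π then (1:ℝ) else 0 := by
    intro y
    rw [PM_apply]
    split_ifs <;> simp
  simp [this]

theorem RS_one : RS (1 : Matrix (Fin m → Fin 2) (Fin m → Fin 2) ℂ) 1 := by
  rw [← PM_one]
  exact RS_PM 1

theorem RS_zero : RS (0 : Matrix (Fin m → Fin 2) (Fin m → Fin 2) ℂ) 0 := by
  intro x; simp

theorem RS_sum {ι : Type*} (s : Finset ι) (M : ι → Matrix (Fin m → Fin 2) (Fin m → Fin 2) ℂ)
    (r : ι → ℝ) (h : ∀ i ∈ s, RS (M i) (r i)) : RS (∑ i ∈ s, M i) (∑ i ∈ s, r i) := by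
  classical
  induction s using Finset.induction_on with
  | empty => simpa using RS_zero
  | insert a s ha ih =>
    rw [Finset.sum_insert ha, Finset.sum_insert ha]
    exact RS_add (h a (Finset.mem_insert_self _ _)) (ih fun i hi => h i (Finset.mem_insert_of_mem hi))

/-! ### first order expansions -/

/-- value and derivative at `0`, entrywise -/
def D1 (f : ℂ → Matrix (Fin m → Fin 2) (Fin m → Fin 2) ℂ)
    (P Q : Matrix (Fin m → Fin 2) (Fin m → Fin 2) ℂ) : Prop :=
  ∀ x y, f 0 x y = P x y ∧ HasDerivAt (fun z => f z x y) (Q x y) 0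

theorem D1_mul {f g : ℂ → Matrix (Fin m → Fin 2) (Fin m → Fin 2) ℂ}
    {P Q P' Q' : Matrix (Fin m → Fin 2) (Fin m → Fin 2) ℂ} (hf : D1 f P Q) (hg : D1 g P' Q') :
    D1 (fun z => f z * g z) (P * P') (Q * P' + P * Q') := by
  intro x y
  constructor
  · simp only [Matrix.mul_apply]
    refine Finset.sum_congr rfl fun k _ => ?_
    rw [(hf x k).1, (hg k y).1]
  · have h1 : HasDerivAt (fun z => ∑ k, f z x k * g z k y)
        (∑ k, (Q x k * g 0 k y + f 0 x k * Q' k y)) 0 := by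
      apply HasDerivAt.fun_sum
      intro k _
      exact (hf x k).2.mul (hg k y).2
    have h2 : (Q * P' + P * Q') x y = ∑ k, (Q x k * g 0 k y + f 0 x k * Q' k y) := by
      rw [Matrix.add_apply, Matrix.mul_apply, Matrix.mul_apply, ← Finset.sum_add_distrib]
      refine Finset.sum_congr rfl fun k _ => ?_
      rw [(hf x k).1, (hg k y).1]
    rw [h2]
    exact h1

theorem cz_at_zero (h : ℤ) : cz 0 h = 1 := by unfold cz; simp

theorem cz_deriv (h : ℤ) : HasDerivAt (fun z => cz z h) 0 0 := by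
  unfold cz
  have h1 : HasDerivAt (fun z : ℂ => 2 * (h:ℂ) * z) (2 * (h:ℂ)) 0 := by
    simpa using (hasDerivAt_id (0:ℂ)).const_mul (2 * (h:ℂ))
  have h2 := h1.ccosh
  simpa using h2

theorem BB_deriv (i : ℕ) (x : Fin m → Fin 2) : HasDerivAt (fun z => BB (cz z) i x) 0 0 := by
  unfold BB
  split_ifs
  · exact hasDerivAt_const _ _
  · have h1 : HasDerivAt (fun z => cz z (ht x (i+1)) / cz z (ht x i))
        ((0 * cz 0 (ht x i) - cz 0 (ht x (i+1)) * 0) / (cz 0 (ht x i)) ^ 2) 0 :=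
      (cz_deriv (ht x (i+1))).div (cz_deriv (ht x i)) (by rw [cz_at_zero]; exact one_ne_zero)
    have h2 : (0 * cz 0 (ht x i) - cz 0 (ht x (i+1)) * 0) / (cz 0 (ht x i)) ^ 2 = 0 := by simp
    rw [h2] at h1
    exact h1
  · exact hasDerivAt_const _ _

theorem BB_at_zero {i : ℕ} (hi : i + 1 < m) (x : Fin m → Fin 2) :
    BB (cz 0) i x = if x ⟨i, Nat.lt_of_succ_lt hi⟩ = x ⟨i+1, hi⟩ then 0 else 1 := by
  unfold BB
  rw [dif_pos hi, cz_at_zero, cz_at_zero, div_one]

theorem EE_at_zero {i : ℕ} (hi : i + 1 < m) : EE (cz 0) i = PM (swp m i) - 1 := by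
  ext x y
  rw [EE_entry, BB_at_zero hi, BB_at_zero hi, Matrix.sub_apply, PM_apply, Matrix.one_apply]
  by_cases h : x ⟨i, Nat.lt_of_succ_lt hi⟩ = x ⟨i+1, hi⟩
  · rw [comp_of_eq hi h]
    by_cases h1 : y = x
    · subst h1; simp
    · simp [h1, Ne.symm h1]
  · rw [if_neg h]
    have h' : (x ∘ swp m i) ⟨i, Nat.lt_of_succ_lt hi⟩ ≠ (x ∘ swp m i) ⟨i+1, hi⟩ := by
      rw [comp_left hi, comp_right hi]; exact fun h'' => h h''.symm
    by_cases h1 : y = x ∘ swp m i
    · rw [if_pos h1, if_pos h1, h1, if_neg h']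
      simp only [eq_comm]
    · rw [if_neg h1, if_neg h1]
      simp only [eq_comm]

theorem EE_D1 {i : ℕ} (hi : i + 1 < m) : D1 (fun z => EE (cz z) i) (PM (swp m i) - 1) 0 := by
  intro x y
  constructor
  · rw [← EE_at_zero hi]
  · have h1 : (fun z => EE (cz z) i x y) = fun z =>
        (if y = x ∘ swp m i then BB (cz z) i y else 0) - (if y = x then BB (cz z) i x else 0) := by
      funext z
      rw [EE_entry]
    rw [h1, Matrix.zero_apply]
    have h2 : HasDerivAt (fun z => if y = x ∘ swp m i then BB (cz z) i y else 0) 0 0 := by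
      split_ifs
      · exact BB_deriv i y
      · exact hasDerivAt_const _ _
    have h3 : HasDerivAt (fun z => if y = x then BB (cz z) i x else 0) 0 0 := by
      split_ifs
      · exact BB_deriv i x
      · exact hasDerivAt_const _ _
    have h4 : HasDerivAt (fun z => (if y = x ∘ swp m i then BB (cz z) i y else 0) -
        (if y = x then BB (cz z) i x else 0)) (0 - 0) 0 := h2.sub h3
    rw [sub_zero] at h4
    exact h4

theorem NL_D1 (x : Bool × ℕ) (hx : x.2 + 1 < m) :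
    D1 (fun z => NL m z x) (PM (swp m x.2))
      ((2 * (sgn x : ℂ)) • (1 : Matrix (Fin m → Fin 2) (Fin m → Fin 2) ℂ) -
        (4 * (sgn x : ℂ)) • PM (swp m x.2)) := by
  intro a b
  have hE := EE_D1 hx a b
  beta_reduce at hE
  constructor
  · unfold NL
    beta_reduce
    rw [Matrix.add_apply, Matrix.smul_apply, Matrix.smul_apply, hE.1]
    simp
  · have h1 : (fun z => NL m z x a b) = fun z =>
        Complex.exp (-2 * sgn x * z) * (1 : Matrix (Fin m → Fin 2) (Fin m → Fin 2) ℂ) a b +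
          Complex.exp (-4 * sgn x * z) * EE (cz z) x.2 a b := by
      funext z
      unfold NL
      rw [Matrix.add_apply, Matrix.smul_apply, Matrix.smul_apply, smul_eq_mul, smul_eq_mul]
    rw [h1]
    have h2 : HasDerivAt (fun z : ℂ => Complex.exp (-2 * sgn x * z)) (-2 * sgn x) 0 := by
      have h : HasDerivAt (fun z : ℂ => -2 * (sgn x : ℂ) * z) (-2 * (sgn x : ℂ)) 0 := by
        simpa using (hasDerivAt_id (0:ℂ)).const_mul (-2 * (sgn x : ℂ))
      simpa using h.cexp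
    have h3 : HasDerivAt (fun z : ℂ => Complex.exp (-4 * sgn x * z)) (-4 * sgn x) 0 := by
      have h : HasDerivAt (fun z : ℂ => -4 * (sgn x : ℂ) * z) (-4 * (sgn x : ℂ)) 0 := by
        simpa using (hasDerivAt_id (0:ℂ)).const_mul (-4 * (sgn x : ℂ))
      simpa using h.cexp
    have h4 := (h2.mul_const ((1 : Matrix (Fin m → Fin 2) (Fin m → Fin 2) ℂ) a b)).add (h3.mul hE.2)
    have h5 : -2 * (sgn x : ℂ) * (1 : Matrix (Fin m → Fin 2) (Fin m → Fin 2) ℂ) a b +
        (-4 * (sgn x : ℂ) * EE (cz 0) x.2 a b +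
          Complex.exp (-4 * sgn x * 0) * (0 : Matrix (Fin m → Fin 2) (Fin m → Fin 2) ℂ) a b) =
        ((2 * (sgn x : ℂ)) • (1 : Matrix (Fin m → Fin 2) (Fin m → Fin 2) ℂ) -
        (4 * (sgn x : ℂ)) • PM (swp m x.2)) a b := by
      rw [hE.1, Matrix.sub_apply, Matrix.sub_apply, Matrix.smul_apply, Matrix.smul_apply,
        Matrix.zero_apply, smul_eq_mul, smul_eq_mul]
      ring
    rw [← h5]
    exact h4

/-- signed sum over the letters of the permutations of the words without the letter -/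
noncomputable def DW (m : ℕ) : List (Bool × ℕ) → Matrix (Fin m → Fin 2) (Fin m → Fin 2) ℂ
  | [] => 0
  | x :: w => (sgn x : ℂ) • PM (permL m w) + PM (swp m x.2) * DW m w

theorem NW_D1 (w : List (Bool × ℕ)) (hw : ∀ x ∈ w, x.2 + 1 < m) :
    D1 (fun z => NW m z w) (PM (permL m w))
      ((2:ℂ) • DW m w - (4 * (expo w : ℂ)) • PM (permL m w)) := by
  induction w with
  | nil =>
    intro x y
    refine ⟨?_, ?_⟩
    · show (1 : Matrix (Fin m → Fin 2) (Fin m → Fin 2) ℂ) x y = PM 1 x y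
      rw [PM_one]
    · have h1 : ((2:ℂ) • DW m [] - (4 * (expo [] : ℂ)) • PM (permL m [])) x y = 0 := by
        simp [DW, expo]
      rw [h1]
      show HasDerivAt (fun _ : ℂ => (1 : Matrix (Fin m → Fin 2) (Fin m → Fin 2) ℂ) x y) 0 0
      exact hasDerivAt_const _ _
  | cons x w ih =>
    have h1 := D1_mul (NL_D1 x (hw x List.mem_cons_self))
      (ih (fun y hy => hw y (List.mem_cons_of_mem _ hy)))
    have h2 : (fun z => NL m z x * NW m z w) = fun z => NW m z (x :: w) := by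
      funext z; rw [NW_cons]
    rw [h2, PM_mul, ← permL_cons] at h1
    have h3 : ((2 * (sgn x : ℂ)) • (1 : Matrix (Fin m → Fin 2) (Fin m → Fin 2) ℂ) -
        (4 * (sgn x : ℂ)) • PM (swp m x.2)) * PM (permL m w) +
        PM (swp m x.2) * ((2:ℂ) • DW m w - (4 * (expo w : ℂ)) • PM (permL m w)) =
        (2:ℂ) • DW m (x :: w) - (4 * (expo (x :: w) : ℂ)) • PM (permL m (x :: w)) := by
      rw [DW, permL_cons, ← PM_mul, expo_cons, sub_mul, mul_sub, smul_mul_assoc, smul_mul_assoc,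
        mul_smul_comm, mul_smul_comm, one_mul]
      push_cast
      module
    rw [h3] at h1
    exact h1

/-! ### crossing numbers -/

/-- signed number of the letters whose deletion leaves a word with a given permutation -/
def cr (m : ℕ) : List (Bool × ℕ) → Equiv.Perm (Fin m) → ℤ
  | [], _ => 0
  | x :: w, ρ => (if permL m w = ρ then sgn x else 0) + cr m w ((swp m x.2)⁻¹ * ρ)

theorem DW_cr (w : List (Bool × ℕ)) : DW m w = ∑ ρ, (cr m w ρ : ℂ) • PM ρ := by
  induction w with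
  | nil => simp [DW, cr]
  | cons x w ih =>
    rw [DW, ih, Finset.mul_sum]
    have h1 : ∑ ρ, PM (swp m x.2) * ((cr m w ρ : ℂ) • PM ρ) =
        ∑ ρ, (cr m w ((swp m x.2)⁻¹ * ρ) : ℂ) • PM ρ := by
      rw [← Equiv.sum_comp (Equiv.mulLeft (swp m x.2))
        (fun ρ => (cr m w ((swp m x.2)⁻¹ * ρ) : ℂ) • PM ρ)]
      refine Finset.sum_congr rfl fun ρ _ => ?_
      simp only [Equiv.coe_mulLeft, inv_mul_cancel_left]
      rw [mul_smul_comm, PM_mul]
    rw [h1]
    have h2 : (sgn x : ℂ) • PM (permL m w) =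
        ∑ ρ, ((if permL m w = ρ then sgn x else 0 : ℤ) : ℂ) • PM ρ := by
      rw [Finset.sum_eq_single (permL m w)]
      · rw [if_pos rfl]
      · intro ρ _ hρ
        rw [if_neg (Ne.symm hρ)]
        simp
      · intro h; exact absurd (Finset.mem_univ _) h
    rw [h2, ← Finset.sum_add_distrib]
    refine Finset.sum_congr rfl fun ρ _ => ?_
    rw [cr]
    push_cast
    module

theorem sum_cr (w : List (Bool × ℕ)) : ∑ ρ, cr m w ρ = expo w := by
  induction w with
  | nil => simp [cr, expo]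
  | cons x w ih =>
    simp only [cr]
    rw [Finset.sum_add_distrib, expo_cons]
    have h1 : ∑ ρ, cr m w ((swp m x.2)⁻¹ * ρ) = ∑ ρ, cr m w ρ := by
      rw [← Equiv.sum_comp (Equiv.mulLeft (swp m x.2)⁻¹) (cr m w)]
      rfl
    rw [h1, ih]
    congr 1
    simp

/-- all crossing numbers are nonnegative -/
def CrPos (m : ℕ) (w : List (Bool × ℕ)) : Prop := ∀ ρ, 0 ≤ cr m w ρ

theorem RS_DW_pos {w : List (Bool × ℕ)} (h : CrPos m w) : RS (DW m w) (expo w) := by
  have h1 : ((expo w : ℤ) : ℝ) = ∑ ρ, ((cr m w ρ : ℤ) : ℝ) := by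
    rw [← sum_cr (m := m) w]; push_cast; rfl
  rw [DW_cr, h1]
  apply RS_sum
  intro ρ _
  have h2 := RS_smul (cr m w ρ : ℂ) (RS_PM ρ)
  rw [mul_one] at h2
  refine RS_mono h2 ?_
  rw [Complex.norm_intCast, abs_of_nonneg]
  exact_mod_cast h ρ

theorem RS_DW (w : List (Bool × ℕ)) : RS (DW m w) w.length := by
  induction w with
  | nil =>
    rw [DW]
    simpa using RS_zero
  | cons x w ih =>
    rw [DW]
    have h1 := RS_smul (sgn x : ℂ) (RS_PM (permL m w))
    have h2 := RS_mul (RS_PM (swp m x.2)) ih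
    have h3 := RS_add h1 h2
    refine RS_mono h3 ?_
    have h4 : ‖((sgn x : ℤ) : ℂ)‖ = 1 := by
      rcases sgn_cases x with h | h <;> rw [h] <;> simp
    rw [h4, List.length_cons]
    push_cast
    linarith

theorem abs_expo_le (w : List (Bool × ℕ)) : |((expo w : ℤ) : ℝ)| ≤ w.length := by
  induction w with
  | nil => simp [expo]
  | cons x w ih =>
    rw [expo_cons]
    push_cast
    have h4 : |((sgn x : ℤ) : ℝ)| = 1 := by
      rcases sgn_cases x with h | h <;> rw [h] <;> simp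
    calc |((sgn x : ℤ) : ℝ) + ((expo w : ℤ) : ℝ)| ≤ |((sgn x : ℤ) : ℝ)| + |((expo w : ℤ) : ℝ)| :=
          abs_add_le _ _
      _ ≤ 1 + w.length := by rw [h4]; linarith
      _ = _ := by rw [List.length_cons]; push_cast; ring

/-! ### estimates near `0` -/

theorem error_small {f : ℂ → Matrix (Fin m → Fin 2) (Fin m → Fin 2) ℂ}
    {P Q : Matrix (Fin m → Fin 2) (Fin m → Fin 2) ℂ} (hf : D1 f P Q) :
    ∀ᶠ z in 𝓝 (0:ℂ), RS (f z - P - z • Q) ‖z‖ := by
  have h1 : ∀ x y, ∀ᶠ z in 𝓝 (0:ℂ), ‖f z x y - P x y - z * Q x y‖ ≤ (1 / 2 ^ m) * ‖z‖ := by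
    intro x y
    have h2 := (hasDerivAt_iff_isLittleO.1 (hf x y).2).def (show (0:ℝ) < 1 / 2 ^ m by positivity)
    filter_upwards [h2] with z hz
    rw [(hf x y).1, sub_zero, smul_eq_mul] at hz
    exact hz
  have h2 : ∀ᶠ z in 𝓝 (0:ℂ), ∀ x y, ‖f z x y - P x y - z * Q x y‖ ≤ (1 / 2 ^ m) * ‖z‖ :=
    eventually_all.2 fun x => eventually_all.2 fun y => h1 x y
  filter_upwards [h2] with z hz x
  calc ∑ y, ‖(f z - P - z • Q) x y‖ ≤ ∑ y : Fin m → Fin 2, (1 / 2 ^ m) * ‖z‖ := by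
        refine Finset.sum_le_sum fun y _ => ?_
        rw [Matrix.sub_apply, Matrix.sub_apply, Matrix.smul_apply, smul_eq_mul]
        exact hz x y
    _ = ‖z‖ := by
        rw [Finset.sum_const, Finset.card_univ, Fintype.card_fun, Fintype.card_fin, Fintype.card_fin,
          nsmul_eq_mul]
        push_cast
        have : (2:ℝ) ^ m ≠ 0 := by positivity
        field_simp

theorem NW_bound (w : List (Bool × ℕ)) (hw : ∀ x ∈ w, x.2 + 1 < m) :
    ∀ᶠ z in 𝓝 (0:ℂ), RS (NW m z w) (1 + (6 * w.length + 1) * ‖z‖) := by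
  filter_upwards [error_small (NW_D1 w hw)] with z hz
  set Q := (2:ℂ) • DW m w - (4 * (expo w : ℂ)) • PM (permL m w) with hQ
  have h1 : NW m z w = PM (permL m w) + z • Q + (NW m z w - PM (permL m w) - z • Q) := by
    abel
  have h2 : RS Q (6 * w.length) := by
    have h3 := RS_smul (2:ℂ) (RS_DW (m := m) w)
    have h4 := RS_smul (-(4 * (expo w : ℂ))) (RS_PM (permL m w))
    have h5 := RS_add h3 h4
    have h6 : (2:ℂ) • DW m w + -(4 * (expo w : ℂ)) • PM (permL m w) = Q := by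
      rw [hQ, neg_smul, sub_eq_add_neg]
    rw [h6] at h5
    refine RS_mono h5 ?_
    rw [norm_neg, norm_mul, Complex.norm_intCast]
    have := abs_expo_le w
    norm_num
    linarith
  rw [h1]
  refine RS_mono (RS_add (RS_add (RS_PM _) (RS_smul z h2)) hz) ?_
  linarith

theorem NW_pos (w : List (Bool × ℕ)) (hw : ∀ x ∈ w, x.2 + 1 < m) (hp : CrPos m w)
    (he : 0 < expo w) :
    ∀ᶠ z : ℂ in 𝓝 (0:ℂ), ∀ s : ℝ, 0 ≤ s → z = (s : ℂ) → RS (NW m z w) (1 - s) := by
  have h8 : ∀ᶠ z in 𝓝 (0:ℂ), ‖z‖ < 1 / (4 * expo w) := by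
    have : (0:ℝ) < 1 / (4 * expo w) := by
      have : (0:ℝ) < expo w := by exact_mod_cast he
      positivity
    have h9 : Tendsto (fun z : ℂ => ‖z‖) (𝓝 (0:ℂ)) (𝓝 (0:ℝ)) := tendsto_norm_zero
    exact h9.eventually (gt_mem_nhds this)
  filter_upwards [error_small (NW_D1 w hw), h8] with z hz h9
  rintro s hs rfl
  have he' : (1:ℝ) ≤ expo w := by exact_mod_cast he
  rw [Complex.norm_real, Real.norm_eq_abs, abs_of_nonneg hs] at hz h9
  have h10 : 4 * expo w * s < 1 := by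
    rw [lt_div_iff₀ (by positivity)] at h9
    linarith
  have h1 : NW m (s:ℂ) w = (1 - 4 * expo w * s : ℂ) • PM (permL m w) + (2 * s : ℂ) • DW m w +
      (NW m (s:ℂ) w - PM (permL m w) - (s:ℂ) • ((2:ℂ) • DW m w - (4 * (expo w : ℂ)) • PM (permL m w))) := by
    module
  rw [h1]
  have h2 := RS_smul (1 - 4 * expo w * s : ℂ) (RS_PM (permL m w))
  have h3 := RS_smul (2 * s : ℂ) (RS_DW_pos hp)
  refine RS_mono (RS_add (RS_add h2 h3) hz) ?_
  have h4 : ‖(1 - 4 * expo w * s : ℂ)‖ = 1 - 4 * expo w * s := by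
    have : (1 - 4 * expo w * s : ℂ) = ((1 - 4 * expo w * s : ℝ) : ℂ) := by push_cast; ring
    rw [this, Complex.norm_real, Real.norm_eq_abs, abs_of_nonneg (by linarith)]
  have h5 : ‖(2 * s : ℂ)‖ = 2 * s := by
    have : (2 * s : ℂ) = ((2 * s : ℝ) : ℂ) := by push_cast; ring
    rw [this, Complex.norm_real, Real.norm_eq_abs, abs_of_nonneg (by linarith)]
  rw [h4, h5]
  nlinarith

end Pool.Agent.D0H83.GD
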