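import Mathlib

/-!
# Uniformly bounded holomorphic functions converging on a segment
-/

set_option autoImplicit false

namespace Pool.Agent.D0H83.GD

open Filter Topology Metric Set

theorem maps_closedBall {f : ℂ → ℂ} {R M : ℝ} (hR : 0 < R) (hb : ∀ z ∈ ball (0:ℂ) R, ‖f z‖ ≤ M) :
    MapsTo f (ball 0 R) (closedBall (f 0) (2 * M)) := by
  intro z hz
  rw [mem_closedBall, dist_eq_norm]
  have h1 := hb z hz
  have h2 := hb 0 (mem_ball_self hR)
  calc ‖f z - f 0‖ ≤ ‖f z‖ + ‖f 0‖ := norm_sub_le _ _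
    _ ≤ 2 * M := by linarith

theorem dslope_bound {f : ℂ → ℂ} {R M : ℝ} (hR : 0 < R) (hd : DifferentiableOn ℂ f (ball 0 R))
    (hb : ∀ z ∈ ball (0:ℂ) R, ‖f z‖ ≤ M) : ∀ z ∈ ball (0:ℂ) R, ‖dslope f 0 z‖ ≤ 2 * M / R := by
  intro z hz
  have hmaps := maps_closedBall hR hb
  by_cases h : z = 0
  · subst h
    rw [dslope_same]
    exact Complex.norm_deriv_le_div_of_mapsTo_ball hd hmaps hR
  · rw [dslope_of_ne _ h, slope_def_module, norm_smul, norm_inv]
    have h1 := Complex.dist_le_div_mul_dist_of_mapsTo_ball hd hmaps hz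
    rw [dist_eq_norm, dist_eq_norm, sub_zero] at h1
    rw [sub_zero]
    have h2 : 0 < ‖z‖ := norm_pos_iff.2 h
    rw [inv_mul_le_iff₀ h2]
    linarith

theorem step (J : ℕ) : ∀ (R M : ℝ), 0 < R → 0 < M → ∀ h : ℕ → ℂ → ℂ,
    (∀ n, DifferentiableOn ℂ (h n) (ball 0 R)) →
    (∀ᶠ n in atTop, ∀ z ∈ ball (0:ℂ) R, ‖h n z‖ ≤ M) →
    (∀ ξ : ℝ, |ξ| < R → Tendsto (fun n => h n (ξ * Complex.I)) atTop (𝓝 0)) →
    ∀ z : ℂ, ‖z‖ ≤ R / 4 → ∀ δ : ℝ, 0 < δ → ∀ᶠ n in atTop, ‖h n z‖ ≤ M * (3/4)^J + δ := by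
  induction J with
  | zero =>
    intro R M hR hM h hd hb hl z hz δ hδ
    filter_upwards [hb] with n hn
    have h1 : z ∈ ball (0:ℂ) R := by
      rw [mem_ball_zero_iff]; linarith
    have := hn z h1
    rw [pow_zero, mul_one]
    linarith
  | succ J ih =>
    intro R M hR hM h hd hb hl z hz δ hδ
    have hnh : ball (0:ℂ) R ∈ 𝓝 (0:ℂ) := ball_mem_nhds _ hR
    have hd' : ∀ n, DifferentiableOn ℂ (dslope (h n) 0) (ball 0 R) := fun n =>
      (Complex.differentiableOn_dslope hnh).2 (hd n)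
    have hb' : ∀ᶠ n in atTop, ∀ z ∈ ball (0:ℂ) R, ‖dslope (h n) 0 z‖ ≤ 3 * M / R := by
      filter_upwards [hb] with n hn w hw
      refine (dslope_bound hR (hd n) hn w hw).trans ?_
      gcongr
      norm_num
    have hl0 : Tendsto (fun n => h n 0) atTop (𝓝 0) := by
      have := hl 0 (by simpa using hR)
      simpa using this
    have hne : ∀ ξ : ℝ, |ξ| < R → ξ ≠ 0 →
        Tendsto (fun n => dslope (h n) 0 (ξ * Complex.I)) atTop (𝓝 0) := by
      intro ξ hξ hξ0
      have h1 : (ξ:ℂ) * Complex.I ≠ 0 := mul_ne_zero (by exact_mod_cast hξ0) Complex.I_ne_zero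
      have h2 : (fun n => dslope (h n) 0 (ξ * Complex.I)) =
          fun n => (ξ * Complex.I)⁻¹ * (h n (ξ * Complex.I) - h n 0) := by
        funext n
        rw [dslope_of_ne _ h1, slope_def_module, sub_zero, smul_eq_mul]
      rw [h2]
      have h3 := ((hl ξ hξ).sub hl0).const_mul ((ξ:ℂ) * Complex.I)⁻¹
      simpa using h3
    have hl' : ∀ ξ : ℝ, |ξ| < R → Tendsto (fun n => dslope (h n) 0 (ξ * Complex.I)) atTop (𝓝 0) := by
      intro ξ hξ
      by_cases hξ0 : ξ = 0
      · subst hξ0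
        rw [Metric.tendsto_atTop']
        intro ε hε
        -- a small nonzero point
        obtain ⟨K, hK⟩ : ∃ K, K = 2 * (3 * M / R) / R := ⟨_, rfl⟩
        have hK0 : 0 < K := by rw [hK]; positivity
        obtain ⟨η, hη⟩ : ∃ η, η = min (R/2) (ε / (2 * K)) := ⟨_, rfl⟩
        have hη0 : 0 < η := by rw [hη]; positivity
        have hηR : η < R := by
          rw [hη]
          exact lt_of_le_of_lt (min_le_left _ _) (by linarith)
        have hηε : K * η ≤ ε / 2 := by
          have h1 : η ≤ ε / (2 * K) := by rw [hη]; exact min_le_right _ _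
          calc K * η ≤ K * (ε / (2 * K)) := by gcongr
            _ = ε / 2 := by field_simp
        have h1 := hne η (by rw [abs_of_pos hη0]; exact hηR) hη0.ne'
        have h2 : ∀ᶠ n in atTop, ‖dslope (h n) 0 (η * Complex.I)‖ < ε / 2 := by
          have := (tendsto_zero_iff_norm_tendsto_zero.1 h1).eventually (gt_mem_nhds (half_pos hε))
          exact this
        obtain ⟨N, hN⟩ := eventually_atTop.1 (h2.and hb')
        refine ⟨N, fun n hn => ?_⟩
        obtain ⟨h3, h4⟩ := hN n (le_of_lt hn)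
        have h5 : (η:ℂ) * Complex.I ∈ ball (0:ℂ) R := by
          rw [mem_ball_zero_iff, norm_mul, Complex.norm_I, mul_one, Complex.norm_real,
            Real.norm_eq_abs, abs_of_pos hη0]
          exact hηR
        have h6 := Complex.dist_le_div_mul_dist_of_mapsTo_ball (hd' n) (maps_closedBall hR h4) h5
        rw [← hK, dist_eq_norm, dist_eq_norm, sub_zero, norm_mul, Complex.norm_I, mul_one,
          Complex.norm_real, Real.norm_eq_abs, abs_of_pos hη0] at h6
        have h7 : ‖dslope (h n) 0 0‖ ≤ ‖dslope (h n) 0 (η * Complex.I)‖ +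
            ‖dslope (h n) 0 (η * Complex.I) - dslope (h n) 0 0‖ := by
          have : dslope (h n) 0 0 = dslope (h n) 0 (η * Complex.I) -
              (dslope (h n) 0 (η * Complex.I) - dslope (h n) 0 0) := by ring
          calc ‖dslope (h n) 0 0‖ = ‖dslope (h n) 0 (η * Complex.I) -
              (dslope (h n) 0 (η * Complex.I) - dslope (h n) 0 0)‖ := by rw [← this]
            _ ≤ _ := norm_sub_le _ _
        rw [dist_zero_right]
        simp only [Complex.ofReal_zero, zero_mul]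
        linarith
      · exact hne ξ hξ hξ0
    have hz' := ih R (3 * M / R) hR (by positivity) (fun n => dslope (h n) 0) hd' hb' hl' z hz
      (2 * δ / R) (by positivity)
    have h8 : ∀ᶠ n in atTop, ‖h n 0‖ < δ / 2 :=
      (tendsto_zero_iff_norm_tendsto_zero.1 hl0).eventually (gt_mem_nhds (half_pos hδ))
    filter_upwards [hz', h8] with n h9 h10
    have h11 : h n z = h n 0 + z * dslope (h n) 0 z := by
      have := sub_smul_dslope (h n) 0 z
      rw [sub_zero, smul_eq_mul] at this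
      rw [this]; ring
    rw [h11]
    calc ‖h n 0 + z * dslope (h n) 0 z‖ ≤ ‖h n 0‖ + ‖z‖ * ‖dslope (h n) 0 z‖ := by
          refine (norm_add_le _ _).trans ?_
          rw [norm_mul]
      _ ≤ δ / 2 + (R / 4) * (3 * M / R * (3/4)^J + 2 * δ / R) := by
          gcongr
      _ = M * (3/4)^(J+1) + δ := by
          rw [pow_succ]
          field_simp
          ring

/-- uniformly bounded holomorphic functions which tend to `0` on a segment of the imaginary axis
tend to `0` in a disc -/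
theorem vit {R M : ℝ} (hR : 0 < R) (hM : 0 < M) (h : ℕ → ℂ → ℂ)
    (hd : ∀ n, DifferentiableOn ℂ (h n) (ball 0 R))
    (hb : ∀ᶠ n in atTop, ∀ z ∈ ball (0:ℂ) R, ‖h n z‖ ≤ M)
    (hl : ∀ ξ : ℝ, |ξ| < R → Tendsto (fun n => h n (ξ * Complex.I)) atTop (𝓝 0))
    (z : ℂ) (hz : ‖z‖ ≤ R / 4) : Tendsto (fun n => h n z) atTop (𝓝 0) := by
  rw [tendsto_zero_iff_norm_tendsto_zero, Metric.tendsto_atTop']
  intro ε hε
  obtain ⟨J, hJ⟩ := exists_pow_lt_of_lt_one (show 0 < ε / (4 * M) by positivity)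
    (show (3/4 : ℝ) < 1 by norm_num)
  have h1 := step J R M hR hM h hd hb hl z hz (ε / 4) (by positivity)
  obtain ⟨N, hN⟩ := eventually_atTop.1 h1
  refine ⟨N, fun n hn => ?_⟩
  have h2 := hN n (le_of_lt hn)
  rw [dist_zero_right, norm_norm]
  have h3 : M * (3/4)^J ≤ ε / 4 := by
    calc M * (3/4)^J ≤ M * (ε / (4 * M)) := by gcongr
      _ = ε / 4 := by field_simp
  linarith

end Pool.Agent.D0H83.GD
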