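import Pool.Agent.D0H83.GD.Chain
import Pool.Agent.D0H83.GD.Vit

/-!
# The law for long products of short words
-/

set_option autoImplicit false

namespace Pool.Agent.D0H83.GD

open Pool.Agent.H891R2.Jones Pool.Agent.TH561 Pool.Agent.W639.RB Pool.Agent.D0H83.FB Finset Filter
  Topology
open Pool.Agent.Y463.SK (permW dia)
open LaurentPolynomial (C T)

theorem exs_eq {n : ℕ} (b : List (Letter n)) : exs b = expo (toN b) := by
  induction b with
  | nil => rfl
  | cons x b ih =>
    have h1 : exs (x :: b) = (if x.1 then (1:ℤ) else -1) + exs b := by simp [exs]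
    have h2 : toN (x :: b) = (x.1, (x.2 : ℕ)) :: toN b := rfl
    rw [h1, h2, expo_cons, ih]
    rfl

theorem permW_eq {n : ℕ} (b : List (Letter n)) : permW b = permL n (toN b) := by
  induction b with
  | nil => simp [permW, permL, toN]
  | cons x b ih =>
    have h2 : toN (x :: b) = (x.1, (x.2 : ℕ)) :: toN b := rfl
    have hx : (x.2 : ℕ) + 1 < n := by have := x.2.2; omega
    have h1 : permW (x :: b) = Equiv.swap (⟨x.2, by omega⟩ : Fin n) ⟨x.2 + 1, by omega⟩ * permW b := by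
      simp [permW]
    rw [h2, permL_cons, h1, ih, swp_eq hx]

theorem cross_eq {n : ℕ} (b : List (Letter n)) (ρ : Equiv.Perm (Fin n)) :
    cross b ρ = cr n (toN b) ρ := by
  induction b generalizing ρ with
  | nil => simp [cross, cr, toN]
  | cons x b ih =>
    have h2 : toN (x :: b) = (x.1, (x.2 : ℕ)) :: toN b := rfl
    rw [h2, cr, ← ih]
    unfold cross
    show (∑ j : Fin (b.length + 1), if permW ((x :: b).eraseIdx j) = ρ then
        (if ((x :: b).get j).1 then (1:ℤ) else -1) else 0) = _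
    rw [Fin.sum_univ_succ]
    congr 1
    · rw [← permW_eq]
      rfl
    · refine Finset.sum_congr rfl fun j _ => ?_
      have h3 : (x :: b).eraseIdx ((Fin.succ j : Fin (b.length + 1)) : ℕ) = x :: b.eraseIdx j := by
        simp
      have h4 : permW (x :: b.eraseIdx j) = swp n (x.2 : ℕ) * permW (b.eraseIdx j) := by
        rw [permW_eq, permW_eq]
        exact permL_cons _ _
      have h5 : (permW ((x :: b).eraseIdx ((Fin.succ j : Fin (b.length + 1)) : ℕ)) = ρ) ↔
          (permW (b.eraseIdx j) = (swp n (x.2 : ℕ))⁻¹ * ρ) := by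
        rw [h3, h4]
        constructor
        · intro h; rw [← h]; group
        · intro h; rw [h]; group
      have h6 : (x :: b).get (Fin.succ j) = b.get j := rfl
      by_cases h7 : permW (b.eraseIdx j) = (swp n (x.2 : ℕ))⁻¹ * ρ
      · rw [if_pos h7, if_pos (h5.2 h7), h6]
      · rw [if_neg h7, if_neg (fun h => h7 (h5.1 h))]

theorem netc_eq {n : ℕ} (b : List (Letter n)) : netc b = ∑ ρ, |cr n (toN b) ρ| := by
  unfold netc
  exact Finset.sum_congr rfl fun ρ _ => by rw [cross_eq]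

variable {m : ℕ}

theorem toN_length {n : ℕ} (b : List (Letter n)) : (toN b).length = b.length := by simp [toN]

/-! ### first order bounds -/

theorem RS_DW_net (w : List (Bool × ℕ)) : RS (DW m w) ((∑ ρ, |cr m w ρ| : ℤ) : ℝ) := by
  rw [DW_cr]
  push_cast
  apply RS_sum
  intro ρ _
  have h2 := RS_smul (cr m w ρ : ℂ) (RS_PM ρ)
  rw [mul_one, Complex.norm_intCast] at h2
  exact h2

theorem error_small' {f : ℂ → Matrix (Fin m → Fin 2) (Fin m → Fin 2) ℂ}
    {P Q : Matrix (Fin m → Fin 2) (Fin m → Fin 2) ℂ} (hf : D1 f P Q) {η : ℝ} (hη : 0 < η) :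
    ∀ᶠ z in 𝓝 (0:ℂ), RS (f z - P - z • Q) (η * ‖z‖) := by
  have h1 : ∀ x y, ∀ᶠ z in 𝓝 (0:ℂ), ‖f z x y - P x y - z * Q x y‖ ≤ (η / 2 ^ m) * ‖z‖ := by
    intro x y
    have h2 := (hasDerivAt_iff_isLittleO.1 (hf x y).2).def (show (0:ℝ) < η / 2 ^ m by positivity)
    filter_upwards [h2] with z hz
    rw [(hf x y).1, sub_zero, smul_eq_mul] at hz
    exact hz
  have h2 : ∀ᶠ z in 𝓝 (0:ℂ), ∀ x y, ‖f z x y - P x y - z * Q x y‖ ≤ (η / 2 ^ m) * ‖z‖ :=
    eventually_all.2 fun x => eventually_all.2 fun y => h1 x y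
  filter_upwards [h2] with z hz x
  calc ∑ y, ‖(f z - P - z • Q) x y‖ ≤ ∑ y : Fin m → Fin 2, (η / 2 ^ m) * ‖z‖ := by
        refine Finset.sum_le_sum fun y _ => ?_
        rw [Matrix.sub_apply, Matrix.sub_apply, Matrix.smul_apply, smul_eq_mul]
        exact hz x y
    _ = η * ‖z‖ := by
        rw [Finset.sum_const, Finset.card_univ, Fintype.card_fun, Fintype.card_fin, Fintype.card_fin,
          nsmul_eq_mul]
        push_cast
        have : (2:ℝ) ^ m ≠ 0 := by positivity
        field_simp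

theorem NW_sgn (w : List (Bool × ℕ)) (hw : ∀ x ∈ w, x.2 + 1 < m) {η : ℝ} (hη : 0 < η) :
    ∀ᶠ z : ℂ in 𝓝 (0:ℂ), ∀ s : ℝ, z = (s : ℂ) →
      RS (NW m z w) (1 + (-4 * expo w * s + 2 * |s| * ((∑ ρ, |cr m w ρ| : ℤ) : ℝ) + η * |s|)) := by
  have h8 : ∀ᶠ z in 𝓝 (0:ℂ), ‖z‖ < 1 / (4 * (|(expo w : ℝ)| + 1)) := by
    have : (0:ℝ) < 1 / (4 * (|(expo w : ℝ)| + 1)) := by positivity
    have h9 : Tendsto (fun z : ℂ => ‖z‖) (𝓝 (0:ℂ)) (𝓝 (0:ℝ)) := tendsto_norm_zero
    exact h9.eventually (gt_mem_nhds this)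
  filter_upwards [error_small' (NW_D1 w hw) hη, h8] with z hz h9
  rintro s rfl
  rw [Complex.norm_real, Real.norm_eq_abs] at hz h9
  have h10 : 4 * |(expo w : ℝ)| * |s| ≤ 1 := by
    rw [lt_div_iff₀ (by positivity)] at h9
    have := abs_nonneg s
    nlinarith [abs_nonneg (expo w : ℝ)]
  have h10' : 4 * (expo w : ℝ) * s ≤ 1 := by
    have h11 : (expo w : ℝ) * s ≤ |(expo w : ℝ)| * |s| := by
      rw [← abs_mul]; exact le_abs_self _
    nlinarith
  have h1 : NW m (s:ℂ) w = (1 - 4 * expo w * s : ℂ) • PM (permL m w) + (2 * s : ℂ) • DW m w +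
      (NW m (s:ℂ) w - PM (permL m w) - (s:ℂ) • ((2:ℂ) • DW m w - (4 * (expo w : ℂ)) • PM (permL m w))) := by
    module
  rw [h1]
  have h2 := RS_smul (1 - 4 * expo w * s : ℂ) (RS_PM (permL m w))
  have h3 := RS_smul (2 * s : ℂ) (RS_DW_net (m := m) w)
  refine RS_mono (RS_add (RS_add h2 h3) hz) ?_
  have h4 : ‖(1 - 4 * expo w * s : ℂ)‖ = 1 - 4 * expo w * s := by
    have : (1 - 4 * expo w * s : ℂ) = ((1 - 4 * expo w * s : ℝ) : ℂ) := by push_cast; ring
    rw [this, Complex.norm_real, Real.norm_eq_abs, abs_of_nonneg (by linarith)]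
  have h5 : ‖(2 * s : ℂ)‖ = 2 * |s| := by
    rw [norm_mul, Complex.norm_real, Real.norm_eq_abs]
    norm_num
  rw [h4, h5]
  linarith

theorem near_zero (m L : ℕ) {η : ℝ} (hη : 0 < η) : ∃ r : ℝ, 0 < r ∧ r ≤ 1 ∧ ∀ z : ℂ, ‖z‖ < r →
    (∀ h : ℤ, |h| ≤ m → 1/2 ≤ ‖cz z h‖ ∧ ‖cz z h‖ ≤ 2) ∧ (1 ≤ ‖2 * Complex.cosh (2 * z)‖) ∧
    (∀ b : List (Letter m), b.length ≤ L → RS (NW m z (toN b)) (1 + (6 * L + 1) * ‖z‖)) ∧
    (∀ b : List (Letter m), b.length ≤ L → ∀ s : ℝ, z = (s : ℂ) →
      RS (NW m z (toN b)) (1 + (-4 * exs b * s + 2 * |s| * netc b + η * |s|))) := by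
  have e1 : ∀ᶠ z : ℂ in 𝓝 (0:ℂ), ∀ h ∈ Finset.Icc (-(m:ℤ)) m, 1/2 ≤ ‖cz z h‖ ∧ ‖cz z h‖ ≤ 2 := by
    rw [Finset.eventually_all]
    intro h _
    have h1 : Tendsto (fun z => cz z h) (𝓝 0) (𝓝 1) := by
      have := (cz_deriv h).continuousAt.tendsto
      rwa [cz_at_zero] at this
    have h3 : Tendsto (fun z => ‖cz z h‖) (𝓝 0) (𝓝 1) := by simpa using h1.norm
    have h2 := h3.eventually (lt_mem_nhds (show (1/2:ℝ) < 1 by norm_num))
    have h4 := h3.eventually (gt_mem_nhds (show (1:ℝ) < 2 by norm_num))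
    filter_upwards [h2, h4] with z hz1 hz2
    exact ⟨hz1.le, hz2.le⟩
  have e2 : ∀ᶠ z : ℂ in 𝓝 (0:ℂ), 1 ≤ ‖2 * Complex.cosh (2 * z)‖ := by
    have h1 : Continuous (fun z : ℂ => ‖2 * Complex.cosh (2 * z)‖) := by fun_prop
    have h2 := h1.tendsto 0
    have h3 : ‖2 * Complex.cosh (2 * 0)‖ = 2 := by simp
    rw [h3] at h2
    filter_upwards [h2.eventually (lt_mem_nhds (show (1:ℝ) < 2 by norm_num))] with z hz
    exact hz.le
  have hfin : {b : List (Letter m) | b.length ≤ L}.Finite := List.finite_length_le (Letter m) L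
  have e3 : ∀ᶠ z : ℂ in 𝓝 (0:ℂ), ∀ b ∈ {b : List (Letter m) | b.length ≤ L},
      RS (NW m z (toN b)) (1 + (6 * L + 1) * ‖z‖) := by
    rw [hfin.eventually_all]
    intro b hb
    filter_upwards [NW_bound (toN b) (toN_mem b)] with z hz
    refine RS_mono hz ?_
    rw [toN_length]
    have h2 : (b.length : ℝ) ≤ L := by exact_mod_cast hb
    gcongr
  have e4 : ∀ᶠ z : ℂ in 𝓝 (0:ℂ), ∀ b ∈ {b : List (Letter m) | b.length ≤ L},
      ∀ s : ℝ, z = (s : ℂ) → RS (NW m z (toN b)) (1 + (-4 * exs b * s + 2 * |s| * netc b + η * |s|)) := by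
    rw [hfin.eventually_all]
    intro b hb
    filter_upwards [NW_sgn (toN b) (toN_mem b) hη] with z hz s hs
    have := hz s hs
    rwa [← netc_eq, ← exs_eq] at this
  obtain ⟨r, hr, h⟩ := Metric.eventually_nhds_iff.1 (e1.and (e2.and (e3.and e4)))
  refine ⟨min r 1, by positivity, min_le_right _ _, fun z hz => ?_⟩
  have h1 : dist z 0 < r := by
    rw [dist_zero_right]
    exact lt_of_lt_of_le hz (min_le_left _ _)
  obtain ⟨f1, f2, f3, f4⟩ := h h1
  exact ⟨fun h hh => f1 h (Finset.mem_Icc.2 (abs_le.1 hh)), f2, fun b hb => f3 b hb,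
    fun b hb => f4 b hb⟩

theorem RS_blocks (z : ℂ) (B : List (List (Letter m))) (q : List (Letter m) → ℝ)
    (h : ∀ b ∈ B, RS (NW m z (toN b)) (1 + q b)) :
    RS (NW m z (toN B.flatten)) (Real.exp (B.map q).sum) := by
  induction B with
  | nil => simpa [toN, NW_nil] using RS_one
  | cons b B ih =>
    rw [List.flatten_cons, toN_append, NW_append, List.map_cons, List.sum_cons, Real.exp_add]
    refine RS_mul (RS_mono (h b List.mem_cons_self) ?_) (ih fun b' hb' => h b' (List.mem_cons_of_mem _ hb'))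
    have := Real.add_one_le_exp (q b)
    linarith

theorem exs_append (a b : List (Letter m)) : exs (a ++ b) = exs a + exs b := by simp [exs]

theorem sum_blocks (B : List (List (Letter m))) (s η : ℝ) :
    (B.map (fun b => -4 * (exs b : ℝ) * s + 2 * |s| * (netc b : ℝ) + η * |s|)).sum =
      -4 * (exs B.flatten : ℝ) * s + 2 * |s| * ((B.map netc).sum : ℤ) + η * |s| * B.length := by
  induction B with
  | nil => simp [exs]
  | cons b B ih =>
    rw [List.map_cons, List.sum_cons, ih, List.flatten_cons, exs_append, List.map_cons, List.sum_cons,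
      List.length_cons]
    push_cast
    ring

theorem abs_exs (b : List (Letter m)) : |exs b| ≤ b.length := by
  have := abs_expo_le (toN b)
  rw [← exs_eq, toN_length] at this
  exact_mod_cast this

theorem length_blocks {L : ℕ} (B : List (List (Letter m))) (hB : ∀ b ∈ B, b.length ≤ L) :
    B.flatten.length ≤ L * B.length := by
  induction B with
  | nil => simp
  | cons b B ih =>
    rw [List.flatten_cons, List.length_append, List.length_cons]
    have h1 := hB b List.mem_cons_self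
    have h2 := ih fun b' hb' => hB b' (List.mem_cons_of_mem _ hb')
    rw [mul_add, mul_one]
    omega

theorem wr_dia {n : ℕ} (O : Outer n) (w : List (Letter n)) : (dia O w).writhe = wr O (toN w) := rfl

/-- the constant of the value bounds -/
noncomputable def K2 (m : ℕ) : ℝ := 2 * 16 ^ m

theorem K2_pos (m : ℕ) : 1 ≤ K2 m := by
  unfold K2
  have : (1:ℝ) ≤ 16 ^ m := one_le_pow₀ (by norm_num)
  linarith

/-- the bounds for the values -/
theorem values (hm : 0 < m) (L : ℕ) {η : ℝ} (hη : 0 < η) : ∃ r : ℝ, 0 < r ∧ r ≤ 1 ∧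
    ∀ z : ℂ, ‖z‖ < r → ∀ O : Outer m, Std m O → ∀ B : List (List (Letter m)),
      (∀ b ∈ B, b.length ≤ L) →
      ‖ez z (dia O B.flatten).fPoly‖ ≤ K2 m * Real.exp ((12 * L + 1) * (B.length * ‖z‖)) ∧
      ∀ s : ℝ, z = (s : ℂ) → ‖ez z (dia O B.flatten).fPoly‖ ≤
        K2 m * Real.exp (-(3 * (dia O B.flatten).writhe + exs B.flatten) * s +
          2 * |s| * ((B.map netc).sum : ℤ) + η * |s| * B.length) := by
  obtain ⟨r, hr, hr1, h⟩ := near_zero m L hη
  refine ⟨r, hr, hr1, fun z hz O hO B hB => ?_⟩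
  obtain ⟨h1, h2, h3, h4⟩ := h z hz
  obtain ⟨c, hc, hlen, hV⟩ := Std_val hm hO
  have hcz : ∀ h : ℤ, |h| ≤ m → cz z h ≠ 0 := by
    intro h hh h0
    have := (h1 h hh).1
    rw [h0, norm_zero] at this
    norm_num at this
  have hD : Complex.cosh (2 * z) ≠ 0 := by
    intro h0
    rw [h0, mul_zero, norm_zero] at h2
    linarith
  have key : ∀ q : List (Letter m) → ℝ, (∀ b ∈ B, RS (NW m z (toN b)) (1 + q b)) →
      ‖ez z (dia O B.flatten).fPoly‖ ≤ K2 m * (‖Complex.exp (3 * ((exs B.flatten : ℂ) -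
        (dia O B.flatten).writhe) * z)‖ * Real.exp (B.map q).sum) := by
    intro q hq
    have h5 := RS_mul (RS_blocks z B q hq) (WP_RS' h1 hlen)
    have h6 := TT_RS (fun h hh => (h1 h hh).2) h5
    have h7 := hV z hcz hD (toN B.flatten) (toN_mem _)
    have h8 := congrArg norm h7
    rw [norm_mul, norm_neg, norm_mul (sg0 m _), norm_sg0, one_mul, norm_mul (Complex.exp _),
      ← exs_eq, ← wr_dia] at h8
    rw [← dia_of O B.flatten (toN B.flatten) rfl] at h8
    have h10 : ‖ez z (dia O B.flatten).fPoly‖ ≤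
        ‖Complex.exp (3 * ((exs B.flatten : ℂ) - (dia O B.flatten).writhe) * z)‖ *
          ‖TT (cz z) (NW m z (toN B.flatten) * WP (EE (cz z)) c)‖ := by
      rw [← h8]
      have h11 : ‖ez z (dia O B.flatten).fPoly‖ = 1 * ‖ez z (dia O B.flatten).fPoly‖ := (one_mul _).symm
      conv_lhs => rw [h11]
      exact mul_le_mul_of_nonneg_right h2 (norm_nonneg _)
    refine h10.trans ?_
    calc _ ≤ ‖Complex.exp (3 * ((exs B.flatten : ℂ) - (dia O B.flatten).writhe) * z)‖ *
          (2 ^ m * (2 * (Real.exp (B.map q).sum * 8 ^ m))) :=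
          mul_le_mul_of_nonneg_left h6 (norm_nonneg _)
      _ = _ := by
          unfold K2
          have : (16:ℝ) ^ m = 2 ^ m * 8 ^ m := by rw [← mul_pow]; norm_num
          rw [this]; ring
  have hE : |((exs B.flatten : ℤ) : ℝ)| ≤ L * B.length := by
    have h5 := abs_exs B.flatten
    have h6 := length_blocks B hB
    have h7 : |exs B.flatten| ≤ ((L * B.length : ℕ) : ℤ) := h5.trans (by exact_mod_cast h6)
    exact_mod_cast h7
  have hW : |(((dia O B.flatten).writhe : ℤ) : ℝ)| ≤ L * B.length := by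
    have h5 := abs_wr hO (toN B.flatten) (toN_mem _)
    rw [toN_length, ← wr_dia] at h5
    have h6 := length_blocks B hB
    have h7 : |(dia O B.flatten).writhe| ≤ ((L * B.length : ℕ) : ℤ) := h5.trans (by exact_mod_cast h6)
    exact_mod_cast h7
  constructor
  · refine (key (fun _ => (6 * L + 1) * ‖z‖) (fun b hb => h3 b (hB b hb))).trans ?_
    refine mul_le_mul_of_nonneg_left ?_ (by linarith [K2_pos m])
    have h5 : (B.map (fun _ => (6 * (L:ℝ) + 1) * ‖z‖)).sum = B.length * ((6 * L + 1) * ‖z‖) := by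
      rw [List.map_const', List.sum_replicate, nsmul_eq_mul]
    rw [h5]
    have h6 : ‖Complex.exp (3 * ((exs B.flatten : ℂ) - (dia O B.flatten).writhe) * z)‖ ≤
        Real.exp (6 * L * B.length * ‖z‖) := by
      refine (Complex.norm_exp_le_exp_norm _).trans ?_
      apply Real.exp_le_exp.2
      rw [norm_mul, norm_mul]
      have h7 : ‖((exs B.flatten : ℤ) : ℂ) - (((dia O B.flatten).writhe : ℤ) : ℂ)‖ ≤
          L * B.length + L * B.length := by
        refine (norm_sub_le _ _).trans ?_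
        rw [Complex.norm_intCast, Complex.norm_intCast]
        exact add_le_add hE hW
      have h8 : ‖(3:ℂ)‖ = 3 := by norm_num
      rw [h8]
      have h9 := norm_nonneg z
      nlinarith
    calc _ ≤ Real.exp (6 * L * B.length * ‖z‖) * Real.exp (B.length * ((6 * L + 1) * ‖z‖)) :=
          mul_le_mul_of_nonneg_right h6 (Real.exp_pos _).le
      _ = _ := by
          rw [← Real.exp_add]; congr 1; ring
  · rintro s rfl
    refine (key _ (fun b hb => h4 b (hB b hb) s rfl)).trans ?_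
    refine mul_le_mul_of_nonneg_left ?_ (by linarith [K2_pos m])
    rw [sum_blocks]
    have h6 : ‖Complex.exp (3 * ((exs B.flatten : ℂ) - (dia O B.flatten).writhe) * (s : ℂ))‖ =
        Real.exp (3 * (exs B.flatten - (dia O B.flatten).writhe) * s) := by
      rw [Complex.norm_exp]
      congr 1
      have : 3 * ((exs B.flatten : ℂ) - (dia O B.flatten).writhe) * (s : ℂ) =
        ((3 * (exs B.flatten - (dia O B.flatten).writhe) * s : ℝ) : ℂ) := by push_cast; ring
      rw [this, Complex.ofReal_re]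
    rw [h6, ← Real.exp_add]
    apply le_of_eq
    congr 1
    ring

end Pool.Agent.D0H83.GD
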