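import Pool.Agent.D0H83.GD.Val
import Pool.Agent.Y463.SK.Defs

/-!
# Crossing changes: a Lipschitz estimate
-/

set_option autoImplicit false

namespace Pool.Agent.D0H83.GD

open Pool.Agent.H891R2.Jones Pool.Agent.TH561 Pool.Agent.W639.RB Pool.Agent.D0H83.FB Finset

variable {m : ℕ}

/-- the other crossing -/
def flp (x : Bool × ℕ) : Bool × ℕ := (!x.1, x.2)

theorem sgn_flp (x : Bool × ℕ) : sgn (flp x) = -sgn x := by
  obtain ⟨b, i⟩ := x
  cases b <;> simp [flp, sgn]

theorem norm_exp_sub_exp (a b : ℝ) : ‖Complex.exp (a * Complex.I) - Complex.exp (b * Complex.I)‖ ≤ |a - b| := by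
  have h := Real.norm_exp_I_mul_ofReal_sub_one_le (x := a - b)
  have h1 : Complex.exp (a * Complex.I) - Complex.exp (b * Complex.I) =
      Complex.exp (b * Complex.I) * (Complex.exp (Complex.I * ((a - b : ℝ) : ℂ)) - 1) := by
    rw [mul_sub, mul_one, ← Complex.exp_add]
    congr 2
    push_cast
    ring
  rw [h1, norm_mul, Complex.norm_exp_ofReal_mul_I, one_mul]
  exact h

theorem cos_two {θ : ℝ} (hm : 0 < m) (hθ : 2 * m * |θ| ≤ 1) : 1/2 ≤ Real.cos (2 * θ) := by
  apply cos_ge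
  rw [abs_mul, abs_two]
  have h1 : (1:ℝ) ≤ m := by exact_mod_cast hm
  have h2 : 2 * |θ| ≤ 2 * m * |θ| := by
    have := abs_nonneg θ
    nlinarith
  linarith

theorem cosh_I (θ : ℝ) : Complex.cosh (2 * (θ * Complex.I)) = ((Real.cos (2 * θ) : ℝ) : ℂ) := by
  have e1 : (2 * (θ * Complex.I)) = ((2 * θ : ℝ) : ℂ) * Complex.I := by push_cast; ring
  rw [e1, Complex.cosh_mul_I, Complex.ofReal_cos]

theorem cz_ne {θ : ℝ} (hθ : 2 * m * |θ| ≤ 1) (h : ℤ) (hh : |h| ≤ m) : cz (θ * Complex.I) h ≠ 0 := by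
  rw [cz_I]
  have := cos_h hθ hh
  exact_mod_cast (by linarith : Real.cos (2 * h * θ) > 0).ne'

/-- the word as a word in natural numbers -/
def toN {n : ℕ} (w : List (Letter n)) : List (Bool × ℕ) := w.map (fun x => (x.1, (x.2 : ℕ)))

theorem toN_mem {n : ℕ} (w : List (Letter n)) : ∀ x ∈ toN w, x.2 + 1 < n := by
  intro x hx
  unfold toN at hx
  rw [List.mem_map] at hx
  obtain ⟨y, _, rfl⟩ := hx
  have := y.2.2
  simp only
  omega

theorem toN_append {n : ℕ} (v w : List (Letter n)) : toN (v ++ w) = toN v ++ toN w := by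
  simp [toN]

/-- evaluation at `exp z` -/
noncomputable def ez (z : ℂ) (f : LaurentPolynomial ℤ) : ℂ :=
  evc (Complex.exp z) (Complex.exp_ne_zero z) f

end Pool.Agent.D0H83.GD
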