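import Pool.Agent.D0H83.FB.Sym

/-!
# A solid-on-solid model for the Temperley–Lieb algebra
-/

set_option autoImplicit false

namespace Pool.Agent.D0H83.GD

open Pool.Agent.H891R2.Jones Pool.Agent.TH561 Pool.Agent.W639.RB Pool.Agent.D0H83.FB Finset

variable {m : ℕ}

/-- the sign of a step -/
def st (a : Fin 2) : ℤ := if a = 0 then 1 else -1

theorem st_add_of_ne {a b : Fin 2} (h : a ≠ b) : st a + st b = 0 := by
  revert a b; decide

/-- the height of the path `x` after `i` steps -/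
def ht (x : Fin m → Fin 2) (i : ℕ) : ℤ := ∑ j : Fin m, if (j : ℕ) < i then st (x j) else 0

theorem ht_succ (x : Fin m → Fin 2) (i : ℕ) (hi : i < m) : ht x (i+1) = ht x i + st (x ⟨i, hi⟩) := by
  have h1 : ∀ j : Fin m, (if (j : ℕ) < i + 1 then st (x j) else 0) =
      (if (j : ℕ) < i then st (x j) else 0) + (if j = ⟨i, hi⟩ then st (x j) else 0) := by
    intro j
    by_cases h : j = ⟨i, hi⟩
    · subst h
      simp
    · have h2 : (j : ℕ) ≠ i := fun h' => h (Fin.ext h')
      rw [if_neg h, add_zero]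
      by_cases h3 : (j : ℕ) < i
      · rw [if_pos h3, if_pos (by omega)]
      · rw [if_neg h3, if_neg (by omega)]
  unfold ht
  rw [Finset.sum_congr rfl (fun j _ => h1 j), Finset.sum_add_distrib]
  congr 1
  simp

theorem abs_ht (x : Fin m → Fin 2) (i : ℕ) : |ht x i| ≤ m := by
  unfold ht
  refine (Finset.abs_sum_le_sum_abs _ _).trans ?_
  calc ∑ j : Fin m, |if (j : ℕ) < i then st (x j) else 0| ≤ ∑ j : Fin m, (1 : ℤ) := by
        refine Finset.sum_le_sum fun j _ => ?_
        split_ifs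
        · unfold st; split_ifs <;> simp
        · simp
    _ = m := by simp

theorem swp_eq {i : ℕ} (hi : i + 1 < m) : swp m i = Equiv.swap ⟨i, Nat.lt_of_succ_lt hi⟩ ⟨i+1, hi⟩ := by
  unfold swp; rw [dif_pos hi]

theorem swp_left {i : ℕ} (hi : i + 1 < m) : swp m i ⟨i, Nat.lt_of_succ_lt hi⟩ = ⟨i+1, hi⟩ := by
  rw [swp_eq hi, Equiv.swap_apply_left]

theorem swp_right {i : ℕ} (hi : i + 1 < m) : swp m i ⟨i+1, hi⟩ = ⟨i, Nat.lt_of_succ_lt hi⟩ := by
  rw [swp_eq hi, Equiv.swap_apply_right]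

theorem swp_other {i : ℕ} (hi : i + 1 < m) (j : Fin m) (h1 : (j : ℕ) ≠ i) (h2 : (j : ℕ) ≠ i + 1) :
    swp m i j = j := by
  rw [swp_eq hi]
  exact Equiv.swap_apply_of_ne_of_ne (fun h => h1 (congrArg Fin.val h)) (fun h => h2 (congrArg Fin.val h))

theorem swp_swp (i : ℕ) (x : Fin m → Fin 2) : (x ∘ swp m i) ∘ swp m i = x := by
  have h := swp_sq m i
  funext j
  show x ((swp m i * swp m i) j) = x j
  rw [h]
  rfl

theorem ht_swp {i : ℕ} (hi : i + 1 < m) (x : Fin m → Fin 2) (j : ℕ) (hj : j ≠ i + 1) :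
    ht (x ∘ swp m i) j = ht x j := by
  unfold ht
  rw [← Equiv.sum_comp (swp m i) (fun k : Fin m => if (k : ℕ) < j then st (x k) else 0)]
  refine Finset.sum_congr rfl fun k _ => ?_
  show (if (k : ℕ) < j then st (x (swp m i k)) else 0) = _
  have h : ((k : ℕ) < j) ↔ ((swp m i k : ℕ) < j) := by
    by_cases h1 : (k : ℕ) = i
    · have : k = ⟨i, Nat.lt_of_succ_lt hi⟩ := Fin.ext h1
      rw [this, swp_left hi]
      show i < j ↔ i + 1 < j
      omega
    · by_cases h2 : (k : ℕ) = i + 1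
      · have : k = ⟨i+1, hi⟩ := Fin.ext h2
        rw [this, swp_right hi]
        show i + 1 < j ↔ i < j
        omega
      · rw [swp_other hi k h1 h2]
  by_cases h1 : (k : ℕ) < j
  · rw [if_pos h1, if_pos (h.1 h1)]
  · rw [if_neg h1, if_neg (fun h' => h1 (h.2 h'))]

/-! ### the operators -/

variable (c : ℤ → ℂ)

/-- the weight of the middle of a turn -/
noncomputable def BB (i : ℕ) (x : Fin m → Fin 2) : ℂ :=
  if h : i + 1 < m then
    (if x ⟨i, Nat.lt_of_succ_lt h⟩ = x ⟨i+1, h⟩ then 0 else c (ht x (i+1)) / c (ht x i))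
  else 0

theorem BB_eq {i : ℕ} (hi : i + 1 < m) {x : Fin m → Fin 2}
    (h : x ⟨i, Nat.lt_of_succ_lt hi⟩ = x ⟨i+1, hi⟩) : BB c i x = 0 := by
  unfold BB; rw [dif_pos hi, if_pos h]

theorem BB_ne {i : ℕ} (hi : i + 1 < m) {x : Fin m → Fin 2}
    (h : x ⟨i, Nat.lt_of_succ_lt hi⟩ ≠ x ⟨i+1, hi⟩) :
    BB c i x = c (ht x (i+1)) / c (ht x i) := by
  unfold BB; rw [dif_pos hi, if_neg h]

/-- the operator of a Temperley–Lieb generator on functions -/
noncomputable def op (i : ℕ) (F : (Fin m → Fin 2) → ℂ) (x : Fin m → Fin 2) : ℂ :=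
  BB c i (x ∘ swp m i) * F (x ∘ swp m i) - BB c i x * F x

/-- the matrix of a Temperley–Lieb generator -/
noncomputable def EE (i : ℕ) : Matrix (Fin m → Fin 2) (Fin m → Fin 2) ℂ :=
  (PM (swp m i) - 1) * Matrix.diagonal (BB c i)

theorem PM_mul_apply (π : Equiv.Perm (Fin m)) (Y : Matrix (Fin m → Fin 2) (Fin m → Fin 2) ℂ)
    (x z : Fin m → Fin 2) : (PM π * Y) x z = Y (x ∘ π) z := by
  rw [Matrix.mul_apply, Finset.sum_eq_single (x ∘ π)]
  · rw [PM_apply, if_pos rfl, one_mul]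
  · intro y _ hy
    rw [PM_apply, if_neg hy, zero_mul]
  · intro h; exact absurd (Finset.mem_univ _) h

theorem EE_mul_apply (i : ℕ) (Y : Matrix (Fin m → Fin 2) (Fin m → Fin 2) ℂ)
    (x z : Fin m → Fin 2) :
    ((EE c i : Matrix (Fin m → Fin 2) (Fin m → Fin 2) ℂ) * Y) x z = op c i (fun y => Y y z) x := by
  unfold EE op
  rw [mul_assoc, sub_mul, one_mul, Matrix.sub_apply, PM_mul_apply, Matrix.diagonal_mul,
    Matrix.diagonal_mul]

theorem EE_apply (i : ℕ) (x z : Fin m → Fin 2) :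
    EE c i x z = op c i (fun y => (1 : Matrix (Fin m → Fin 2) (Fin m → Fin 2) ℂ) y z) x := by
  rw [← EE_mul_apply, mul_one]

theorem EE_out {i : ℕ} (hi : ¬ i + 1 < m) : EE c i = (0 : Matrix (Fin m → Fin 2) (Fin m → Fin 2) ℂ) := by
  have : BB c i = fun _ : Fin m → Fin 2 => (0:ℂ) := by
    funext x; unfold BB; rw [dif_neg hi]
  unfold EE
  rw [this]
  simp

variable {c} {D : ℂ} (hc : ∀ h, c (h+1) + c (h-1) = D * c h) (h0 : ∀ h : ℤ, |h| ≤ m → c h ≠ 0)

theorem hc_st (hc : ∀ h, c (h+1) + c (h-1) = D * c h) (h : ℤ) (a : Fin 2) :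
    c (h + st a) + c (h - st a) = D * c h := by
  rw [← hc h]
  fin_cases a
  · rfl
  · show c (h + -1) + c (h - -1) = _
    rw [sub_neg_eq_add, ← sub_eq_add_neg, add_comm]

theorem comp_left {i : ℕ} (hi : i + 1 < m) (x : Fin m → Fin 2) :
    (x ∘ swp m i) ⟨i, Nat.lt_of_succ_lt hi⟩ = x ⟨i+1, hi⟩ := by
  rw [Function.comp_apply, swp_left hi]

theorem comp_right {i : ℕ} (hi : i + 1 < m) (x : Fin m → Fin 2) :
    (x ∘ swp m i) ⟨i+1, hi⟩ = x ⟨i, Nat.lt_of_succ_lt hi⟩ := by
  rw [Function.comp_apply, swp_right hi]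

theorem comp_other {i : ℕ} (hi : i + 1 < m) (x : Fin m → Fin 2) (j : ℕ) (hj : j < m) (h1 : j ≠ i)
    (h2 : j ≠ i + 1) : (x ∘ swp m i) ⟨j, hj⟩ = x ⟨j, hj⟩ := by
  rw [Function.comp_apply, swp_other hi _ h1 h2]

theorem comp_of_eq {i : ℕ} (hi : i + 1 < m) {x : Fin m → Fin 2}
    (h : x ⟨i, Nat.lt_of_succ_lt hi⟩ = x ⟨i+1, hi⟩) : x ∘ swp m i = x := by
  rw [swp_eq hi]
  exact swap_comp_self h

include hc h0

theorem op_op (i : ℕ) (hi : i + 1 < m) (F : (Fin m → Fin 2) → ℂ) (x : Fin m → Fin 2) :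
    op c i (op c i F) x = -D * op c i F x := by
  by_cases h : x ⟨i, Nat.lt_of_succ_lt hi⟩ = x ⟨i+1, hi⟩
  · unfold op
    rw [comp_of_eq hi h, BB_eq c hi h]
    ring
  · have h' : (x ∘ swp m i) ⟨i, Nat.lt_of_succ_lt hi⟩ ≠ (x ∘ swp m i) ⟨i+1, hi⟩ := by
      rw [comp_left hi, comp_right hi]; exact fun h'' => h h''.symm
    have hs : BB c i x + BB c i (x ∘ swp m i) = D := by
      rw [BB_ne c hi h, BB_ne c hi h', ht_succ _ _ (Nat.lt_of_succ_lt hi),
        ht_succ _ _ (Nat.lt_of_succ_lt hi), comp_left hi, ht_swp hi _ _ (by omega)]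
      have hst := st_add_of_ne h
      have e1 : st (x ⟨i+1, hi⟩) = -st (x ⟨i, Nat.lt_of_succ_lt hi⟩) := by linarith
      rw [e1, ← sub_eq_add_neg, ← add_div, hc_st hc]
      have := h0 _ (abs_ht x i)
      field_simp
    have e2 : (x ∘ swp m i) ∘ swp m i = x := swp_swp i x
    unfold op
    rw [e2, ← hs]
    ring

omit hc in
theorem key_up (i : ℕ) (hi : i + 2 < m) (F : (Fin m → Fin 2) → ℂ)
    (hF : ∀ x, F (x ∘ swp m i) = -F x) (x : Fin m → Fin 2) :
    BB c i (x ∘ swp m i) * op c (i+1) F (x ∘ swp m i) - BB c i x * op c (i+1) F x = F x := by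
  have hi1 : i + 1 < m := by omega
  have hF0 : ∀ y : Fin m → Fin 2, y ⟨i, by omega⟩ = y ⟨i+1, hi1⟩ → F y = 0 := by
    intro y hy
    have h1 := hF y
    rw [comp_of_eq hi1 hy] at h1
    have h2 : 2 * F y = 0 := by linear_combination h1
    simpa using h2
  by_cases h : x ⟨i, by omega⟩ = x ⟨i+1, hi1⟩
  · rw [hF0 x h, comp_of_eq hi1 h, sub_self]
  · have h' : (x ∘ swp m i) ⟨i, by omega⟩ ≠ (x ∘ swp m i) ⟨i+1, hi1⟩ := by
      rw [comp_left hi1, comp_right hi1]; exact fun h'' => h h''.symm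
    have hst := st_add_of_ne h
    have c2 : (x ∘ swp m i) ⟨i+2, hi⟩ = x ⟨i+2, hi⟩ := comp_other hi1 x (i+2) hi (by omega) (by omega)
    rcases fin2_three (x ⟨i, by omega⟩) (x ⟨i+1, hi1⟩) (x ⟨i+2, hi⟩) with h1 | h1 | h1
    · exact absurd h1 h
    · -- `x = (a, b, b)`
      have u0 : op c (i+1) F x = 0 := by
        unfold op
        rw [comp_of_eq (i := i+1) hi h1, BB_eq c (i := i+1) hi h1]; ring
      have k1 : F ((x ∘ swp m i) ∘ swp m (i+1)) = 0 := by
        apply hF0
        rw [comp_left (i := i+1) hi, comp_other (i := i+1) hi _ i (by omega) (by omega) (by omega),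
          comp_left hi1]
        exact h1.trans c2.symm
      have k2 : (x ∘ swp m i) ⟨i+1, hi1⟩ ≠ (x ∘ swp m i) ⟨i+1+1, hi⟩ := by
        rw [comp_right hi1]
        intro h3
        exact h (h3.trans (c2.trans h1.symm))
      have u1 : op c (i+1) F (x ∘ swp m i) = -(BB c (i+1) (x ∘ swp m i) * F (x ∘ swp m i)) := by
        unfold op
        rw [k1]; ring
      rw [u0, u1, hF, BB_ne c hi1 h', BB_ne c (i := i+1) hi k2]
      have e1 : ht (x ∘ swp m i) (i+1+1) = ht x i := by
        rw [ht_swp hi1 _ _ (by omega), ht_succ _ _ hi1, ht_succ _ _ (by omega)]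
        linarith
      rw [e1, ht_swp hi1 _ i (by omega)]
      have n1 := h0 _ (abs_ht x i)
      have n2 := h0 _ (abs_ht (x ∘ swp m i) (i+1))
      field_simp
      ring
    · -- `x = (a, b, a)`
      have k2 : x ⟨i+1, hi1⟩ ≠ x ⟨i+1+1, hi⟩ := by
        intro h3
        exact h (h1.trans h3.symm)
      have u0 : op c (i+1) F (x ∘ swp m i) = 0 := by
        unfold op
        have h3 : (x ∘ swp m i) ⟨i+1, hi1⟩ = (x ∘ swp m i) ⟨i+1+1, hi⟩ := by
          rw [comp_right hi1]
          exact h1.trans c2.symm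
        rw [comp_of_eq (i := i+1) hi h3, BB_eq c (i := i+1) hi h3]; ring
      have k1 : F (x ∘ swp m (i+1)) = 0 := by
        apply hF0
        rw [comp_left (i := i+1) hi, comp_other (i := i+1) hi _ i (by omega) (by omega) (by omega)]
        exact h1
      have u1 : op c (i+1) F x = -(BB c (i+1) x * F x) := by
        unfold op
        rw [k1]; ring
      rw [u0, u1, BB_ne c hi1 h, BB_ne c (i := i+1) hi k2]
      have e1 : ht x (i+1+1) = ht x i := by
        rw [ht_succ _ _ hi1, ht_succ _ _ (by omega)]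
        linarith
      rw [e1]
      have n1 := h0 _ (abs_ht x i)
      have n2 := h0 _ (abs_ht x (i+1))
      field_simp
      ring

omit hc in
theorem key_down (i : ℕ) (hi : i + 2 < m) (F : (Fin m → Fin 2) → ℂ)
    (hF : ∀ x, F (x ∘ swp m (i+1)) = -F x) (x : Fin m → Fin 2) :
    BB c (i+1) (x ∘ swp m (i+1)) * op c i F (x ∘ swp m (i+1)) - BB c (i+1) x * op c i F x = F x := by
  have hi1 : i + 1 < m := by omega
  have hF0 : ∀ y : Fin m → Fin 2, y ⟨i+1, hi1⟩ = y ⟨i+1+1, hi⟩ → F y = 0 := by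
    intro y hy
    have h1 := hF y
    rw [comp_of_eq (i := i+1) hi hy] at h1
    have h2 : 2 * F y = 0 := by linear_combination h1
    simpa using h2
  by_cases h : x ⟨i+1, hi1⟩ = x ⟨i+1+1, hi⟩
  · rw [hF0 x h, comp_of_eq (i := i+1) hi h, sub_self]
  · have h' : (x ∘ swp m (i+1)) ⟨i+1, hi1⟩ ≠ (x ∘ swp m (i+1)) ⟨i+1+1, hi⟩ := by
      rw [comp_left (i := i+1) hi, comp_right (i := i+1) hi]; exact fun h'' => h h''.symm
    have hst := st_add_of_ne h
    have c2 : (x ∘ swp m (i+1)) ⟨i, by omega⟩ = x ⟨i, by omega⟩ :=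
      comp_other (i := i+1) hi x i (by omega) (by omega) (by omega)
    rcases fin2_three (x ⟨i, by omega⟩) (x ⟨i+1, hi1⟩) (x ⟨i+1+1, hi⟩) with h1 | h1 | h1
    · -- `x = (a, a, b)`
      have u0 : op c i F x = 0 := by
        unfold op
        rw [comp_of_eq hi1 h1, BB_eq c hi1 h1]; ring
      have k1 : F ((x ∘ swp m (i+1)) ∘ swp m i) = 0 := by
        apply hF0
        rw [comp_right hi1, comp_other hi1 _ (i+1+1) hi (by omega) (by omega),
          comp_right (i := i+1) hi]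
        exact c2.trans h1
      have k2 : (x ∘ swp m (i+1)) ⟨i, by omega⟩ ≠ (x ∘ swp m (i+1)) ⟨i+1, hi1⟩ := by
        rw [comp_left (i := i+1) hi]
        intro h3
        exact h (h1.symm.trans (c2.symm.trans h3))
      have u1 : op c i F (x ∘ swp m (i+1)) = -(BB c i (x ∘ swp m (i+1)) * F (x ∘ swp m (i+1))) := by
        unfold op
        rw [k1]; ring
      rw [u0, u1, hF, BB_ne c (i := i+1) hi h', BB_ne c hi1 k2]
      have e1 : ht (x ∘ swp m (i+1)) (i+1+1) = ht x i := by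
        rw [ht_succ _ _ hi1, ht_succ _ _ (by omega), ht_swp (i := i+1) hi _ i (by omega),
          comp_left (i := i+1) hi, c2, h1]
        linarith
      rw [e1, ht_swp (i := i+1) hi _ i (by omega)]
      have n1 := h0 _ (abs_ht x i)
      have n2 := h0 _ (abs_ht (x ∘ swp m (i+1)) (i+1))
      field_simp
      ring
    · exact absurd h1 h
    · -- `x = (b, a, b)`
      have k2 : x ⟨i, by omega⟩ ≠ x ⟨i+1, hi1⟩ := by
        intro h3
        exact h (h3.symm.trans h1)
      have u0 : op c i F (x ∘ swp m (i+1)) = 0 := by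
        unfold op
        have h3 : (x ∘ swp m (i+1)) ⟨i, by omega⟩ = (x ∘ swp m (i+1)) ⟨i+1, hi1⟩ := by
          rw [comp_left (i := i+1) hi]
          exact c2.trans h1
        rw [comp_of_eq hi1 h3, BB_eq c hi1 h3]; ring
      have k1 : F (x ∘ swp m i) = 0 := by
        apply hF0
        rw [comp_right hi1, comp_other hi1 _ (i+1+1) hi (by omega) (by omega)]
        exact h1
      have u1 : op c i F x = -(BB c i x * F x) := by
        unfold op
        rw [k1]; ring
      rw [u0, u1, BB_ne c (i := i+1) hi h, BB_ne c hi1 k2]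
      have e1 : ht x (i+1+1) = ht x i := by
        rw [ht_succ _ _ hi1, ht_succ _ _ (by omega), h1]
        linarith
      rw [e1]
      have n1 := h0 _ (abs_ht x i)
      have n2 := h0 _ (abs_ht x (i+1))
      field_simp
      ring

omit hc h0 in
theorem op_anti (i : ℕ) (F : (Fin m → Fin 2) → ℂ) (x : Fin m → Fin 2) :
    op c i F (x ∘ swp m i) = -op c i F x := by
  unfold op
  rw [swp_swp]
  ring

omit hc h0 in
theorem BB_other {i j : ℕ} (hi : i + 1 < m) (hj : j + 1 < m) (hij : i + 2 ≤ j ∨ j + 2 ≤ i)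
    (x : Fin m → Fin 2) : BB c j (x ∘ swp m i) = BB c j x := by
  unfold BB
  rw [dif_pos hj, dif_pos hj, comp_other hi x j (by omega) (by omega) (by omega),
    comp_other hi x (j+1) hj (by omega) (by omega), ht_swp hi x _ (by omega),
    ht_swp hi x _ (by omega)]

omit hc h0 in
theorem comp_comm {i j : ℕ} (hi : i + 1 < m) (hj : j + 1 < m) (hij : i + 2 ≤ j)
    (x : Fin m → Fin 2) : (x ∘ swp m i) ∘ swp m j = (x ∘ swp m j) ∘ swp m i := by
  have hcm : swp m i * swp m j = swp m j * swp m i := by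
    rw [swp_eq hi, swp_eq hj]
    apply Equiv.Perm.Disjoint.commute
    apply Equiv.Perm.disjoint_swap_swap
    simp only [List.nodup_cons, List.mem_cons, List.not_mem_nil, or_false, not_or, Fin.ext_iff,
      List.nodup_nil, not_false_eq_true, and_true]
    omega
  funext k
  show x ((swp m i * swp m j) k) = x ((swp m j * swp m i) k)
  rw [hcm]

theorem isTL_EE : IsTL m (-D) (EE (m := m) c) where
  sq i hi := by
    ext x z
    rw [EE_mul_apply, Matrix.smul_apply, smul_eq_mul, EE_apply]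
    have : (fun y => EE c i y z) =
        op c i (fun y => (1 : Matrix (Fin m → Fin 2) (Fin m → Fin 2) ℂ) y z) := by
      funext y; rw [EE_apply]
    rw [this]
    exact op_op hc h0 i hi _ x
  up i hi := by
    ext x z
    rw [mul_assoc, EE_mul_apply, EE_apply]
    have h1 : (fun y => (EE c (i+1) * EE c i : Matrix (Fin m → Fin 2) (Fin m → Fin 2) ℂ) y z) =
        op c (i+1) (op c i (fun y => (1 : Matrix (Fin m → Fin 2) (Fin m → Fin 2) ℂ) y z)) := by
      funext y
      rw [EE_mul_apply]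
      congr 1
      funext y'
      rw [EE_apply]
    rw [h1]
    exact key_up h0 i hi _ (op_anti i _) x
  down i hi := by
    ext x z
    rw [mul_assoc, EE_mul_apply, EE_apply]
    have h1 : (fun y => (EE c i * EE c (i+1) : Matrix (Fin m → Fin 2) (Fin m → Fin 2) ℂ) y z) =
        op c i (op c (i+1) (fun y => (1 : Matrix (Fin m → Fin 2) (Fin m → Fin 2) ℂ) y z)) := by
      funext y
      rw [EE_mul_apply]
      congr 1
      funext y'
      rw [EE_apply]
    rw [h1]
    exact key_down h0 i hi _ (op_anti (i+1) _) x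
  far i j hj hij := by
    have hi : i + 1 < m := by omega
    ext x z
    rw [EE_mul_apply, EE_mul_apply]
    unfold op
    simp only [EE_apply]
    unfold op
    rw [BB_other hi hj (Or.inl hij), BB_other hj hi (Or.inr hij), comp_comm hi hj hij]
    have e1 : BB c j ((x ∘ swp m j) ∘ swp m i) = BB c j (x ∘ swp m j) :=
      BB_other hi hj (Or.inl hij) _
    have e2 : BB c i ((x ∘ swp m j) ∘ swp m i) = BB c i (x ∘ swp m i) := by
      rw [← comp_comm hi hj hij]
      exact BB_other hj hi (Or.inr hij) _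
    rw [e1, e2]
    ring

end Pool.Agent.D0H83.GD
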