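import Pool.Agent.D0H83.GD.SOS

/-!
# The trace of the solid-on-solid model
-/

set_option autoImplicit false

namespace Pool.Agent.D0H83.GD

open Pool.Agent.H891R2.Jones Pool.Agent.TH561 Pool.Agent.W639.RB Pool.Agent.D0H83.FB Finset

variable {m : ℕ}

/-- flip one step -/
def fl (j : Fin m) (x : Fin m → Fin 2) : Fin m → Fin 2 := Function.update x j (1 - x j)

theorem fl_same (j : Fin m) (x : Fin m → Fin 2) : fl j x j = 1 - x j := by simp [fl]

theorem fl_other {j k : Fin m} (h : k ≠ j) (x : Fin m → Fin 2) : fl j x k = x k := by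
  simp [fl, h]

theorem fin2_sub (a : Fin 2) : 1 - (1 - a) = a := by revert a; decide

theorem st_sub (a : Fin 2) : st (1 - a) = -st a := by revert a; decide

theorem fl_fl (j : Fin m) (x : Fin m → Fin 2) : fl j (fl j x) = x := by
  funext k
  by_cases h : k = j
  · subst h; rw [fl_same, fl_same, fin2_sub]
  · rw [fl_other h, fl_other h]

/-- flipping as a permutation -/
def flE (j : Fin m) : Equiv.Perm (Fin m → Fin 2) := ⟨fl j, fl j, fl_fl j, fl_fl j⟩

theorem sum_fl (j : Fin m) (G : (Fin m → Fin 2) → ℂ) : ∑ x, G (fl j x) = ∑ x, G x :=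
  Equiv.sum_comp (flE j) G

theorem ht_fl (j : Fin m) (x : Fin m → Fin 2) {i : ℕ} (h : i ≤ (j : ℕ)) : ht (fl j x) i = ht x i := by
  unfold ht
  refine Finset.sum_congr rfl fun k _ => ?_
  split_ifs with hk
  · rw [fl_other]
    intro h'
    rw [h'] at hk
    omega
  · rfl

theorem comp_fl {i : ℕ} (hi : i + 1 < m) (j : Fin m) (h1 : (j : ℕ) ≠ i) (h2 : (j : ℕ) ≠ i + 1)
    (x : Fin m → Fin 2) : (fl j x) ∘ swp m i = fl j (x ∘ swp m i) := by
  funext k
  by_cases h : k = j
  · subst h
    rw [Function.comp_apply, swp_other hi k h1 h2, fl_same, fl_same, Function.comp_apply,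
      swp_other hi k h1 h2]
  · rw [fl_other h, Function.comp_apply, Function.comp_apply, fl_other]
    intro h3
    apply h
    have h4 := congrArg (swp m i) h3
    rw [swp_other hi j h1 h2] at h4
    have h5 : swp m i (swp m i k) = k := by
      rw [← Equiv.Perm.mul_apply, swp_sq]; rfl
    rw [h5] at h4
    exact h4

variable {c : ℤ → ℂ}

theorem BB_fl {i : ℕ} (j : Fin m) (h : i + 1 < (j : ℕ)) (x : Fin m → Fin 2) :
    BB c i (fl j x) = BB c i x := by
  by_cases h1 : i + 1 < m
  · unfold BB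
    rw [dif_pos h1, dif_pos h1]
    have e1 : fl j x ⟨i, Nat.lt_of_succ_lt h1⟩ = x ⟨i, Nat.lt_of_succ_lt h1⟩ := by
      apply fl_other
      intro h2
      have h3 := congrArg Fin.val h2
      simp only at h3
      omega
    have e2 : fl j x ⟨i+1, h1⟩ = x ⟨i+1, h1⟩ := by
      apply fl_other
      intro h2
      have h3 := congrArg Fin.val h2
      simp only at h3
      omega
    rw [e1, e2, ht_fl j x (by omega), ht_fl j x (by omega)]
  · unfold BB
    rw [dif_neg h1, dif_neg h1]

theorem WP_inv {r : ℕ} (j : Fin m) (hj : r < (j : ℕ)) (L : List ℕ) (hL : ∀ i ∈ L, i < r) :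
    (∀ x y, WP (EE (m := m) c) L (fl j x) (fl j y) = WP (EE (m := m) c) L x y) ∧
    (∀ x y : Fin m → Fin 2, x j ≠ y j → WP (EE (m := m) c) L x y = 0) := by
  induction L with
  | nil =>
    refine ⟨fun x y => ?_, fun x y h => ?_⟩
    · rw [WP_nil, Matrix.one_apply, Matrix.one_apply]
      have h1 : fl j x = fl j y ↔ x = y := (flE j).injective.eq_iff
      simp only [h1]
    · rw [WP_nil, Matrix.one_apply, if_neg]
      intro h'
      exact h (by rw [h'])
  | cons i L ih =>
    have hi := hL i List.mem_cons_self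
    have hi1 : i + 1 < m := by have := j.2; omega
    obtain ⟨ih1, ih2⟩ := ih (fun k hk => hL k (List.mem_cons_of_mem _ hk))
    refine ⟨fun x y => ?_, fun x y h => ?_⟩
    · rw [WP_cons, EE_mul_apply, EE_mul_apply]
      unfold op
      beta_reduce
      rw [comp_fl hi1 j (by omega) (by omega), BB_fl j (by omega), BB_fl j (by omega), ih1, ih1]
    · rw [WP_cons, EE_mul_apply]
      unfold op
      beta_reduce
      have h1 : (x ∘ swp m i) j ≠ y j := by
        rw [Function.comp_apply, swp_other hi1 j (by omega) (by omega)]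
        exact h
      rw [ih2 _ _ h1, ih2 _ _ h]
      ring

/-- the weighted sum -/
noncomputable def SS (c : ℤ → ℂ) (k : ℕ) (G : (Fin m → Fin 2) → ℂ) : ℂ := ∑ x, c (ht x k) * G x

variable {D : ℂ} (hc : ∀ h, c (h+1) + c (h-1) = D * c h) (h0 : ∀ h : ℤ, |h| ≤ m → c h ≠ 0)

include hc in
theorem SS_succ (k : Fin m) (G : (Fin m → Fin 2) → ℂ) (hG : ∀ x, G (fl k x) = G x) :
    2 * SS c ((k:ℕ)+1) G = D * SS c k G := by
  have h1 : SS c ((k:ℕ)+1) G = ∑ x, c (ht x k - st (x k)) * G x := by
    unfold SS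
    rw [← sum_fl k]
    refine Finset.sum_congr rfl fun x _ => ?_
    rw [hG, ht_succ _ _ k.2]
    have e1 : fl k x ⟨(k:ℕ), k.2⟩ = 1 - x k := fl_same k x
    rw [e1, st_sub, ht_fl k x le_rfl, ← sub_eq_add_neg]
  have h2 : SS c ((k:ℕ)+1) G = ∑ x, c (ht x k + st (x k)) * G x := by
    unfold SS
    refine Finset.sum_congr rfl fun x _ => ?_
    rw [ht_succ _ _ k.2]
  rw [two_mul]
  nth_rewrite 1 [h2]
  rw [h1, ← Finset.sum_add_distrib]
  unfold SS
  rw [Finset.mul_sum]
  refine Finset.sum_congr rfl fun x _ => ?_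
  rw [← add_mul, hc_st hc, mul_assoc]

include hc in
theorem SS_tail (k n : ℕ) (hkn : k + n = m) (G : (Fin m → Fin 2) → ℂ)
    (hG : ∀ j : Fin m, k ≤ (j : ℕ) → ∀ x, G (fl j x) = G x) :
    2 ^ n * SS c m G = D ^ n * SS c k G := by
  induction n generalizing k with
  | zero =>
    have : k = m := by omega
    rw [this, pow_zero, pow_zero]
  | succ n ih =>
    have hk : k < m := by omega
    have h1 := ih (k+1) (by omega) (fun j hj => hG j (by omega))
    have h2 := SS_succ hc ⟨k, hk⟩ G (hG ⟨k, hk⟩ le_rfl)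
    simp only at h2
    calc 2 ^ (n+1) * SS c m G = 2 * (2 ^ n * SS c m G) := by ring
      _ = D ^ n * (2 * SS c (k+1) G) := by rw [h1]; ring
      _ = D ^ (n+1) * SS c k G := by rw [h2]; ring

theorem sum_half (j k : Fin m) (hjk : k ≠ j) (H : (Fin m → Fin 2) → ℂ) (hH : ∀ x, H (fl j x) = H x) :
    2 * ∑ x, (if x k = x j then 0 else H x) = ∑ x, H x := by
  have h1 : ∑ x, (if x k = x j then 0 else H x) = ∑ x, (if x k = x j then H x else 0) := by
    rw [← sum_fl j]
    refine Finset.sum_congr rfl fun x _ => ?_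
    rw [fl_same, fl_other hjk, hH]
    have h2 : ∀ a b : Fin 2, a = 1 - b ↔ ¬ a = b := by decide
    by_cases h3 : x k = x j
    · rw [if_neg (fun h4 => (h2 _ _).1 h4 h3), if_pos h3]
    · rw [if_pos ((h2 _ _).2 h3), if_neg h3]
  rw [two_mul]
  nth_rewrite 1 [h1]
  rw [← Finset.sum_add_distrib]
  refine Finset.sum_congr rfl fun x _ => ?_
  split_ifs <;> simp

/-- the weighted trace -/
noncomputable def TT (c : ℤ → ℂ) (M : Matrix (Fin m → Fin 2) (Fin m → Fin 2) ℂ) : ℂ :=
  SS c m (fun x => M x x)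

include hc h0 in
theorem markov_EE (r : ℕ) (L : List ℕ) (hr : r + 1 < m) (hL : ∀ i ∈ L, i < r) :
    -D * TT c (WP (EE (m := m) c) L * EE c r) = TT c (WP (EE (m := m) c) L) := by
  set M := WP (EE (m := m) c) L with hM
  have hr0 : r < m := by omega
  -- the diagonal of the product
  have hdiag : ∀ x, (M * EE c r : Matrix (Fin m → Fin 2) (Fin m → Fin 2) ℂ) x x =
      -(M x x * BB c r x) := by
    intro x
    have h1 : ∀ y, EE c r y x = (if y = x ∘ swp m r then BB c r x else 0) -
        (if y = x then BB c r x else 0) := by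
      intro y
      rw [EE_apply]
      unfold op
      beta_reduce
      rw [Matrix.one_apply, Matrix.one_apply]
      have h2 : y ∘ swp m r = x ↔ y = x ∘ swp m r := by
        constructor
        · intro h; rw [← h, swp_swp]
        · intro h; rw [h, swp_swp]
      by_cases h3 : y = x ∘ swp m r
      · rw [if_pos (h2.2 h3), if_pos h3, h2.2 h3]
        by_cases h4 : y = x
        · rw [if_pos h4, if_pos h4, h4]; ring
        · rw [if_neg h4, if_neg h4]; ring
      · rw [if_neg (fun h => h3 (h2.1 h)), if_neg h3]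
        by_cases h4 : y = x
        · rw [if_pos h4, if_pos h4, h4]; ring
        · rw [if_neg h4, if_neg h4]; ring
    rw [Matrix.mul_apply]
    simp only [h1, mul_sub, mul_ite, mul_zero, Finset.sum_sub_distrib, Finset.sum_ite_eq',
      Finset.sum_ite_eq, Finset.mem_univ, if_true]
    by_cases h3 : x ⟨r, hr0⟩ = x ⟨r+1, hr⟩
    · rw [BB_eq c hr h3]; ring
    · have h4 : M x (x ∘ swp m r) = 0 := by
        apply (WP_inv (c := c) (r := r) ⟨r+1, hr⟩ (by simp) L hL).2
        rw [comp_right hr]
        exact fun h => h3 h.symm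
      rw [h4]
      ring
  have hMfl : ∀ j : Fin m, r + 1 ≤ (j : ℕ) → ∀ x, M (fl j x) (fl j x) = M x x := fun j hj x =>
    (WP_inv (c := c) (r := r) j (by omega) L hL).1 x x
  have e1 : TT c (M * EE c r) = -SS c m (fun x => M x x * BB c r x) := by
    unfold TT SS
    rw [← Finset.sum_neg_distrib]
    refine Finset.sum_congr rfl fun x _ => ?_
    beta_reduce
    rw [hdiag]
    ring
  obtain ⟨n, hn⟩ : ∃ n, r + 2 + n = m := ⟨m - (r+2), by omega⟩
  have e2 := SS_tail hc (r+2) n hn (fun x => M x x * BB c r x) (by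
    intro j hj x
    beta_reduce
    rw [hMfl j (by omega), BB_fl j (by omega)])
  have e3 := SS_tail hc (r+1) (n+1) (by omega) (fun x => M x x) (fun j hj x => hMfl j hj x)
  have e4 : 2 * SS c (r+2) (fun x => M x x * BB c r x) = SS c (r+1) (fun x => M x x) := by
    have h1 : SS c (r+2) (fun x => M x x * BB c r x) =
        ∑ x, (if x ⟨r, hr0⟩ = x ⟨r+1, hr⟩ then 0 else c (ht x (r+1)) * M x x) := by
      unfold SS
      refine Finset.sum_congr rfl fun x _ => ?_
      beta_reduce
      split_ifs with h3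
      · rw [BB_eq c hr h3]; ring
      · rw [BB_ne c hr h3]
        have e1 : ht x (r+2) = ht x r := by
          rw [ht_succ _ _ hr, ht_succ _ _ hr0]
          have := st_add_of_ne h3
          linarith
        rw [e1]
        have n1 := h0 _ (abs_ht x r)
        field_simp
    rw [h1]
    refine sum_half ⟨r+1, hr⟩ ⟨r, hr0⟩ (by simp [Fin.ext_iff]) (fun x => c (ht x (r+1)) * M x x) ?_
    intro x
    beta_reduce
    rw [hMfl _ (by simp), ht_fl _ _ (by simp)]
  rw [e1]
  have h2 : (2:ℂ) ^ (n+1) ≠ 0 := pow_ne_zero _ two_ne_zero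
  apply mul_left_cancel₀ h2
  show 2 ^ (n+1) * (-D * -SS c m (fun x => M x x * BB c r x)) = 2 ^ (n+1) * TT c M
  have e5 : TT c M = SS c m (fun x => M x x) := rfl
  rw [e5, e3]
  calc 2 ^ (n+1) * (-D * -SS c m (fun x => M x x * BB c r x))
      = 2 * D * (2 ^ n * SS c m (fun x => M x x * BB c r x)) := by ring
    _ = D ^ (n+1) * (2 * SS c (r+2) (fun x => M x x * BB c r x)) := by rw [e2]; ring
    _ = _ := by rw [e4]

include hc in
theorem TT_one (hc0 : c 0 = 1) : TT c (1 : Matrix (Fin m → Fin 2) (Fin m → Fin 2) ℂ) = D ^ m := by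
  have h1 := SS_tail (m := m) hc 0 m (by omega) (fun _ => (1:ℂ)) (fun _ _ _ => rfl)
  have h2 : SS (m := m) c 0 (fun _ => (1:ℂ)) = 2 ^ m := by
    unfold SS
    have h3 : ∀ x : Fin m → Fin 2, ht x 0 = 0 := by
      intro x; unfold ht; simp
    simp [h3, hc0]
  have h3 : TT c (1 : Matrix (Fin m → Fin 2) (Fin m → Fin 2) ℂ) =
      SS c m (fun _ : Fin m → Fin 2 => (1:ℂ)) := by
    unfold TT
    simp
  rw [h3]
  apply mul_left_cancel₀ (pow_ne_zero m (two_ne_zero (α := ℂ)))
  rw [h1, h2]
  ring

/-! ### the centralizer -/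

/-- the weights -/
noncomputable def Wd (m : ℕ) (c : ℤ → ℂ) : Bool → Matrix (Fin m → Fin 2) (Fin m → Fin 2) ℂ
  | false => 1
  | true => Matrix.diagonal (fun x => (-1) ^ m * c (ht x m))

theorem EE_comm (i : ℕ) : EE c i * Wd m c true = Wd m c true * EE c i := by
  by_cases hi : i + 1 < m
  · ext x z
    unfold Wd
    rw [EE_mul_apply, Matrix.diagonal_mul, EE_apply]
    unfold op
    beta_reduce
    simp only [Matrix.diagonal_apply, Matrix.one_apply]
    by_cases h1 : x ∘ swp m i = z
    · rw [if_pos h1, if_pos h1, ht_swp hi x m (by omega)]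
      split_ifs <;> ring
    · rw [if_neg h1, if_neg h1]
      split_ifs <;> ring
  · rw [EE_out c hi, zero_mul, mul_zero]

/-- the centralizers of the weights -/
noncomputable abbrev Cz (m : ℕ) (c : ℤ → ℂ) (b : Bool) :
    Subalgebra ℂ (Matrix (Fin m → Fin 2) (Fin m → Fin 2) ℂ) :=
  Subalgebra.centralizer ℂ {Wd m c b}

/-- the generators -/
noncomputable def eC (m : ℕ) (c : ℤ → ℂ) (b : Bool) (i : ℕ) : Cz m c b :=
  match b with
  | false => ⟨KK m 2 i, by
      rw [Subalgebra.mem_centralizer_iff]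
      intro g hg
      rw [Set.mem_singleton_iff.1 hg]
      show 1 * _ = _ * 1
      rw [one_mul, mul_one]⟩
  | true => ⟨EE c i, by
      rw [Subalgebra.mem_centralizer_iff]
      intro g hg
      rw [Set.mem_singleton_iff.1 hg]
      exact (EE_comm i).symm⟩

/-- the matrices of the generators -/
noncomputable def eM (m : ℕ) (c : ℤ → ℂ) (b : Bool) (i : ℕ) :
    Matrix (Fin m → Fin 2) (Fin m → Fin 2) ℂ := if b then EE c i else KK m 2 i

theorem eC_coe (b : Bool) (i : ℕ) : (eC m c b i : Matrix (Fin m → Fin 2) (Fin m → Fin 2) ℂ) =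
    eM m c b i := by
  cases b <;> rfl

theorem WP_coe (b : Bool) (L : List ℕ) :
    ((WP (eC m c b) L : Cz m c b) : Matrix (Fin m → Fin 2) (Fin m → Fin 2) ℂ) = WP (eM m c b) L := by
  induction L with
  | nil => rfl
  | cons i L ih => rw [WP_cons, WP_cons, ← ih, ← eC_coe]; rfl

/-- the loop values -/
noncomputable def dC (D : ℂ) (b : Bool) : ℂ := if b then -D else 2

include hc h0 in
theorem isTL_eC (b : Bool) : IsTL m (dC D b) (eC m c b) := by
  have h : IsTL m (dC D b) (eM m c b) := by
    cases b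
    · exact isTL_KK m 2
    · exact isTL_EE hc h0
  constructor
  · intro i hi
    apply Subtype.ext
    have := h.sq i hi
    rw [← eC_coe] at this
    exact this
  · intro i hi
    apply Subtype.ext
    have := h.up i hi
    rw [← eC_coe, ← eC_coe] at this
    exact this
  · intro i hi
    apply Subtype.ext
    have := h.down i hi
    rw [← eC_coe, ← eC_coe] at this
    exact this
  · intro i j hj hij
    apply Subtype.ext
    have := h.far i j hj hij
    rw [← eC_coe, ← eC_coe] at this
    exact this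

/-- the traces -/
noncomputable def tau (m : ℕ) (c : ℤ → ℂ) (b : Bool) : Cz m c b →ₗ[ℂ] ℂ :=
  ((Matrix.traceLinearMap (Fin m → Fin 2) ℂ ℂ).comp (LinearMap.mulLeft ℂ (Wd m c b))).comp
    (Cz m c b).val.toLinearMap

theorem tau_apply (b : Bool) (x : Cz m c b) :
    tau m c b x = Matrix.trace (Wd m c b * (x : Matrix (Fin m → Fin 2) (Fin m → Fin 2) ℂ)) := rfl

theorem tau_cyc (b : Bool) (x y : Cz m c b) : tau m c b (x * y) = tau m c b (y * x) := by
  rw [tau_apply, tau_apply]
  have hy := (Subalgebra.mem_centralizer_iff ℂ).1 y.2 _ (Set.mem_singleton _)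
  show Matrix.trace (Wd m c b * (x.1 * y.1)) = Matrix.trace (Wd m c b * (y.1 * x.1))
  rw [← mul_assoc, Matrix.trace_mul_comm, ← mul_assoc, ← mul_assoc, hy]

theorem trace_Wd_true (M : Matrix (Fin m → Fin 2) (Fin m → Fin 2) ℂ) :
    Matrix.trace (Wd m c true * M) = (-1) ^ m * TT c M := by
  unfold Matrix.trace TT SS Wd
  rw [Finset.mul_sum]
  refine Finset.sum_congr rfl fun x _ => ?_
  rw [Matrix.diag_apply, Matrix.diagonal_mul, mul_assoc]

include hc h0 in
/-- the weighted trace counts closed curves -/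
theorem TT_word (hD : D ≠ 0) (hc0 : c 0 = 1) (L : List ℕ) (hL : ∀ i ∈ L, i + 1 < m) :
    TT c (WP (EE (m := m) c) L) = (-1) ^ m * (-D) ^ lam m L := by
  obtain ⟨s, z, -, -, -, -, h6⟩ := annular (K := ℂ) (ι := Bool) (R := fun b => Cz m c b) (M := m)
    (d := dC D) (e := eC m c) (isTL_eC hc h0)
    (by
      intro b
      cases b
      · show (2:ℂ) ≠ 0
        norm_num
      · show -D ≠ 0
        exact neg_ne_zero.2 hD)
    (tau m c) tau_cyc
    (by
      intro b r L hr hL
      have e : ((WP (eC m c b) L * eC m c b r : Cz m c b) :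
          Matrix (Fin m → Fin 2) (Fin m → Fin 2) ℂ) = WP (eM m c b) L * eM m c b r := by
        rw [← WP_coe, ← eC_coe]; rfl
      rw [tau_apply, tau_apply, e, WP_coe]
      cases b
      · have := markov (m := m) (N := 2) (by norm_num) r L hr hL
        show (2:ℂ) * Matrix.trace (1 * (WP (KK m 2) L * KK m 2 r)) = Matrix.trace (1 * WP (KK m 2) L)
        rw [one_mul, one_mul]
        exact_mod_cast this
      · have := markov_EE hc h0 r L hr hL
        show -D * Matrix.trace (Wd m c true * (WP (EE c) L * EE c r)) =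
          Matrix.trace (Wd m c true * WP (EE c) L)
        rw [trace_Wd_true, trace_Wd_true, ← this]
        ring)
    (by
      intro b
      rw [tau_apply]
      cases b
      · show Matrix.trace ((1 : Matrix (Fin m → Fin 2) (Fin m → Fin 2) ℂ) * 1) = 2 ^ m
        rw [one_mul, Matrix.trace_one]
        simp
      · show Matrix.trace (Wd m c true * 1) = (-D) ^ m
        rw [trace_Wd_true, TT_one hc hc0, neg_pow D m])
    m le_rfl L hL
  have h7 := h6 false 1 le_rfl
  have h8 := h6 true 1 le_rfl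
  rw [pow_one, tau_apply, WP_coe, Nat.sub_self, zero_add, one_mul] at h7 h8
  have h9 : lam m L = s + z := by
    have h10 := trace_lam (N := 2) L hL (by norm_num)
    have h11 : Matrix.trace (WP (KK m 2) L) = 2 ^ (s + z) := by
      have : Matrix.trace (1 * WP (KK m 2) L) = (2:ℂ) ^ (s + z) := h7
      rw [one_mul] at this
      exact this
    rw [h10] at h11
    have h12 : (2 : ℕ) ^ lam m L = 2 ^ (s + z) := by exact_mod_cast h11
    exact Nat.pow_right_injective le_rfl h12
  have h13 : (-1) ^ m * TT c (WP (EE (m := m) c) L) = (-D) ^ (s + z) := by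
    rw [← trace_Wd_true]
    exact h8
  rw [h9, ← h13, ← mul_assoc, ← pow_add]
  have : (-1 : ℂ) ^ (m + m) = 1 := by rw [← two_mul, pow_mul]; simp
  rw [this, one_mul]

end Pool.Agent.D0H83.GD
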