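import Pool.Agent.D0H83.GD.SOSTr
import Pool.Agent.D0H83.FB.Lim

/-!
# Values of the Jones polynomial of closed braids near `1`
-/

set_option autoImplicit false

namespace Pool.Agent.D0H83.GD

open Pool.Agent.H891R2.Jones Pool.Agent.TH561 Pool.Agent.W639.RB Pool.Agent.D0H83.FB Finset

variable {m : ℕ}

/-- the weights of the heights -/
noncomputable def cz (z : ℂ) (h : ℤ) : ℂ := Complex.cosh (2 * h * z)

theorem cz_rec (z : ℂ) (h : ℤ) : cz z (h+1) + cz z (h-1) = (2 * Complex.cosh (2 * z)) * cz z h := by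
  unfold cz
  have e1 : (2 * ((h + 1 : ℤ) : ℂ) * z) = 2 * h * z + 2 * z := by push_cast; ring
  have e2 : (2 * ((h - 1 : ℤ) : ℂ) * z) = 2 * h * z - 2 * z := by push_cast; ring
  rw [e1, e2, Complex.cosh_add, Complex.cosh_sub]
  ring

theorem cz_zero (z : ℂ) : cz z 0 = 1 := by
  unfold cz; simp

theorem TT_add (c : ℤ → ℂ) (M N : Matrix (Fin m → Fin 2) (Fin m → Fin 2) ℂ) :
    TT c (M + N) = TT c M + TT c N := by
  unfold TT SS
  rw [← Finset.sum_add_distrib]
  refine Finset.sum_congr rfl fun x _ => ?_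
  beta_reduce
  rw [Matrix.add_apply]
  ring

theorem TT_smul (c : ℤ → ℂ) (a : ℂ) (M : Matrix (Fin m → Fin 2) (Fin m → Fin 2) ℂ) :
    TT c (a • M) = a * TT c M := by
  unfold TT SS
  rw [Finset.mul_sum]
  refine Finset.sum_congr rfl fun x _ => ?_
  beta_reduce
  rw [Matrix.smul_apply, smul_eq_mul]
  ring

theorem TT_zero (c : ℤ → ℂ) : TT c (0 : Matrix (Fin m → Fin 2) (Fin m → Fin 2) ℂ) = 0 := by
  unfold TT SS
  simp

theorem TT_listsum {α : Type*} (c : ℤ → ℂ) (L : List α)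
    (f : α → Matrix (Fin m → Fin 2) (Fin m → Fin 2) ℂ) :
    TT c (L.map f).sum = (L.map (fun t => TT c (f t))).sum := by
  induction L with
  | nil => simp [TT_zero]
  | cons a L ih => simp only [List.map_cons, List.sum_cons, TT_add, ih]

/-- the normalised operator of a letter -/
noncomputable def NL (m : ℕ) (z : ℂ) (x : Bool × ℕ) : Matrix (Fin m → Fin 2) (Fin m → Fin 2) ℂ :=
  Complex.exp (-2 * sgn x * z) • (1 : Matrix (Fin m → Fin 2) (Fin m → Fin 2) ℂ) +
    Complex.exp (-4 * sgn x * z) • EE (cz z) x.2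

/-- the normalised operator of a word -/
noncomputable def NW (m : ℕ) (z : ℂ) (w : List (Bool × ℕ)) :
    Matrix (Fin m → Fin 2) (Fin m → Fin 2) ℂ := (w.map (NL m z)).prod

theorem NW_nil (z : ℂ) : NW m z [] = 1 := rfl

theorem NW_cons (z : ℂ) (x : Bool × ℕ) (w : List (Bool × ℕ)) :
    NW m z (x :: w) = NL m z x * NW m z w := by simp [NW]

theorem NW_append (z : ℂ) (v w : List (Bool × ℕ)) :
    NW m z (v ++ w) = NW m z v * NW m z w := by simp [NW]

theorem NL_lo (z : ℂ) (x : Bool × ℕ) :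
    NL m z x = (Complex.exp z) ^ (-3 * sgn x) • lo (Complex.exp z) (EE (cz z)) x := by
  unfold NL lo
  rw [smul_add, smul_smul, smul_smul, ← zpow_add₀ (Complex.exp_ne_zero z),
    ← zpow_add₀ (Complex.exp_ne_zero z), ← Complex.exp_int_mul, ← Complex.exp_int_mul]
  congr 3
  · push_cast; ring
  · push_cast; ring

theorem NW_wo (z : ℂ) (w : List (Bool × ℕ)) :
    NW m z w = (Complex.exp z) ^ (-3 * expo w) • wo (Complex.exp z) (EE (cz z)) w := by
  induction w with
  | nil => simp [NW, wo, expo]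
  | cons x w ih =>
    rw [NW_cons, ih, wo_cons, expo_cons, NL_lo, smul_mul_smul_comm, ← zpow_add₀ (Complex.exp_ne_zero z)]
    congr 2
    ring

theorem dd_eq (z : ℂ) : -(Complex.exp z)^2 - ((Complex.exp z)⁻¹)^2 = -(2 * Complex.cosh (2 * z)) := by
  rw [Complex.cosh, ← Complex.exp_neg, ← Complex.exp_nat_mul, ← Complex.exp_nat_mul]
  push_cast
  have e1 : (2:ℂ) * -z = -(2 * z) := by ring
  rw [e1]
  ring

/-- the value of the Jones polynomial as a weighted trace -/
theorem val (hm : 0 < m) (z : ℂ) (h0 : ∀ h : ℤ, |h| ≤ m → cz z h ≠ 0) (hD : Complex.cosh (2*z) ≠ 0)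
    (w : List (Bool × ℕ)) (hw : ∀ x ∈ w, x.2 + 1 < m) :
    -(2 * Complex.cosh (2 * z)) *
      evc (Complex.exp z) (Complex.exp_ne_zero z) (draw (braidClosure m) w).close.fPoly =
    ((if Even (expo w) then 1 else -1) * (-1) ^ m) * TT (cz z) (NW m z w) := by
  have hD2 : 2 * Complex.cosh (2*z) ≠ 0 := mul_ne_zero two_ne_zero hD
  have h1 := bracket_states' hm w hw (Complex.exp z) (Complex.exp_ne_zero z)
  rw [dd_eq, evc_bracket' w hw] at h1
  have h2 : TT (cz z) (wo (Complex.exp z) (EE (m := m) (cz z)) w) =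
      (-1) ^ m * ((terms w).map (fun t => (Complex.exp z) ^ t.1 *
        (-(2 * Complex.cosh (2 * z))) ^ lam m t.2)).sum := by
    rw [wo_terms (Complex.exp_ne_zero z), TT_listsum, ← List.sum_map_mul_left]
    congr 1
    apply List.map_congr_left
    intro t ht
    rw [TT_smul, TT_word (cz_rec z) h0 hD2 (cz_zero z) _ (terms_mem w hw t ht)]
    ring
  rw [← h1] at h2
  rw [NW_wo, TT_smul, h2]
  have h3 : (Complex.exp z) ^ (-3 * expo w) * (Complex.exp z) ^ (3 * expo w) = 1 := by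
    rw [← zpow_add₀ (Complex.exp_ne_zero z)]
    have : -3 * expo w + 3 * expo w = 0 := by ring
    rw [this, zpow_zero]
  have h4 : (-1 : ℂ) ^ m * (-1) ^ m = 1 := by rw [← mul_pow]; simp
  have h5 : (if Even (expo w) then (1:ℂ) else -1) * (if Even (expo w) then (1:ℂ) else -1) = 1 := by
    split_ifs <;> ring
  set a : ℂ := if Even (expo w) then (1:ℂ) else -1 with ha
  set X := evc (Complex.exp z) (Complex.exp_ne_zero z) (draw (braidClosure m) w).close.fPoly with hX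
  set E := (Complex.exp z) ^ (-3 * expo w) with hE
  set E' := (Complex.exp z) ^ (3 * expo w) with hE'
  calc -(2 * Complex.cosh (2 * z)) * X
      = (a * a) * ((-1) ^ m * (-1) ^ m) * (E * E') * (-(2 * Complex.cosh (2 * z)) * X) := by
        rw [h3, h4, h5]; ring
    _ = _ := by ring

/-! ### unitary values -/

theorem cz_I (θ : ℝ) (h : ℤ) : cz (θ * Complex.I) h = ((Real.cos (2 * h * θ) : ℝ) : ℂ) := by
  unfold cz
  have e1 : (2 * (h : ℂ) * (θ * Complex.I)) = ((2 * h * θ : ℝ) : ℂ) * Complex.I := by push_cast; ring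
  rw [e1, Complex.cosh_mul_I, Complex.ofReal_cos]

theorem cos_ge {x : ℝ} (h : |x| ≤ 1) : 1/2 ≤ Real.cos x := by
  have h1 := Real.one_sub_sq_div_two_le_cos (x := x)
  have h2 : x^2 ≤ 1 := by
    rw [← sq_abs]
    nlinarith [abs_nonneg x]
  linarith

theorem cos_h {θ : ℝ} (hθ : 2 * m * |θ| ≤ 1) {h : ℤ} (hh : |h| ≤ m) : 1/2 ≤ Real.cos (2 * h * θ) := by
  apply cos_ge
  rw [abs_mul, abs_mul, abs_two]
  have h1 : |(h:ℝ)| ≤ m := by exact_mod_cast hh
  have h2 : 2 * |(h:ℝ)| * |θ| ≤ 2 * m * |θ| := by gcongr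
  linarith

/-- the weights of the invariant form -/
noncomputable def Om (θ : ℝ) (x : Fin m → Fin 2) : ℝ :=
  ∏ k ∈ range (m+1), Real.cos (2 * (ht x k) * θ)

theorem Om_pos {θ : ℝ} (hθ : 2 * m * |θ| ≤ 1) (x : Fin m → Fin 2) : 0 < Om θ x := by
  unfold Om
  refine Finset.prod_pos fun k _ => ?_
  have := cos_h hθ (abs_ht x k)
  linarith

theorem Om_swp {θ : ℝ} {i : ℕ} (hi : i + 1 < m) (x : Fin m → Fin 2) :
    Real.cos (2 * (ht x (i+1)) * θ) * Om θ (x ∘ swp m i) =
      Real.cos (2 * (ht (x ∘ swp m i) (i+1)) * θ) * Om θ x := by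
  unfold Om
  rw [← Finset.mul_prod_erase (range (m+1)) _ (Finset.mem_range.2 (by omega : i + 1 < m + 1)),
    ← Finset.mul_prod_erase (range (m+1)) (fun k => Real.cos (2 * (ht x k) * θ))
      (Finset.mem_range.2 (by omega : i + 1 < m + 1))]
  have h1 : ∏ k ∈ (range (m+1)).erase (i+1), Real.cos (2 * (ht (x ∘ swp m i) k) * θ) =
      ∏ k ∈ (range (m+1)).erase (i+1), Real.cos (2 * (ht x k) * θ) := by
    refine Finset.prod_congr rfl fun k hk => ?_
    rw [ht_swp hi x k (Finset.ne_of_mem_erase hk)]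
  rw [h1]
  ring

/-- the invariant form -/
noncomputable def GG (m : ℕ) (θ : ℝ) : Matrix (Fin m → Fin 2) (Fin m → Fin 2) ℂ :=
  Matrix.diagonal (fun x => ((Om θ x : ℝ) : ℂ))

open scoped Matrix

theorem EE_entry (c : ℤ → ℂ) (i : ℕ) (x y : Fin m → Fin 2) :
    EE c i x y = (if y = x ∘ swp m i then BB c i y else 0) - (if y = x then BB c i x else 0) := by
  rw [EE_apply]
  unfold op
  beta_reduce
  rw [Matrix.one_apply, Matrix.one_apply]
  by_cases h1 : y = x ∘ swp m i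
  · rw [if_pos h1.symm, if_pos h1, ← h1]
    by_cases h2 : y = x
    · rw [if_pos h2.symm, if_pos h2]; ring
    · rw [if_neg (fun h => h2 h.symm), if_neg h2]; ring
  · rw [if_neg (fun h => h1 h.symm), if_neg h1]
    by_cases h2 : y = x
    · rw [if_pos h2.symm, if_pos h2]; ring
    · rw [if_neg (fun h => h2 h.symm), if_neg h2]; ring

theorem selfadj_GG {θ : ℝ} (i : ℕ) (hi : i + 1 < m) :
    (EE (cz (θ * Complex.I)) i)ᴴ * GG m θ = GG m θ * EE (cz (θ * Complex.I)) i := by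
  have hreal : ∀ x : Fin m → Fin 2, (starRingEnd ℂ) (BB (cz (θ * Complex.I)) i x) =
      BB (cz (θ * Complex.I)) i x := by
    intro x
    by_cases h : x ⟨i, Nat.lt_of_succ_lt hi⟩ = x ⟨i+1, hi⟩
    · rw [BB_eq _ hi h, map_zero]
    · rw [BB_ne _ hi h, cz_I, cz_I, map_div₀, Complex.conj_ofReal, Complex.conj_ofReal]
  ext x y
  unfold GG
  rw [Matrix.mul_diagonal, Matrix.diagonal_mul, Matrix.conjTranspose_apply, EE_entry, EE_entry]
  have h2 : x = y ∘ swp m i ↔ y = x ∘ swp m i := by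
    constructor
    · intro h; rw [h, swp_swp]
    · intro h; rw [h, swp_swp]
  by_cases h1 : y = x ∘ swp m i
  · rw [if_pos (h2.2 h1), if_pos h1]
    by_cases h3 : y = x
    · subst h3
      simp
    · rw [if_neg (fun h => h3 h.symm), if_neg h3, sub_zero, sub_zero]
      have h4 : star (BB (cz (θ * Complex.I)) i x) = BB (cz (θ * Complex.I)) i x := hreal x
      rw [h4]
      subst h1
      by_cases h : x ⟨i, Nat.lt_of_succ_lt hi⟩ = x ⟨i+1, hi⟩
      · exact absurd (comp_of_eq hi h) h3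
      · have h' : (x ∘ swp m i) ⟨i, Nat.lt_of_succ_lt hi⟩ ≠ (x ∘ swp m i) ⟨i+1, hi⟩ := by
          rw [comp_left hi, comp_right hi]; exact fun h'' => h h''.symm
        rw [BB_ne _ hi h, BB_ne _ hi h', cz_I, cz_I, cz_I, cz_I, ht_swp hi x i (by omega)]
        have h5 := Om_swp (θ := θ) hi x
        have h6 : ((Real.cos (2 * (ht x (i+1)) * θ) : ℝ) : ℂ) * ((Om θ (x ∘ swp m i) : ℝ) : ℂ) =
            ((Real.cos (2 * (ht (x ∘ swp m i) (i+1)) * θ) : ℝ) : ℂ) * ((Om θ x : ℝ) : ℂ) := by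
          rw [← Complex.ofReal_mul, ← Complex.ofReal_mul, h5]
        rw [div_mul_eq_mul_div, h6]
        ring
  · rw [if_neg (fun h => h1 (h2.1 h)), if_neg h1]
    by_cases h3 : y = x
    · subst h3
      simp only [if_true]
      have h4 : star (0 - BB (cz (θ * Complex.I)) i y) = 0 - BB (cz (θ * Complex.I)) i y := by
        show (starRingEnd ℂ) (0 - BB (cz (θ * Complex.I)) i y) = _
        rw [map_sub, hreal, map_zero]
      rw [h4]
      ring
    · rw [if_neg (fun h => h3 h.symm), if_neg h3, sub_zero, star_zero, zero_mul, mul_zero]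

theorem exp_I_norm (θ : ℝ) : ‖Complex.exp (θ * Complex.I)‖ = 1 := Complex.norm_exp_ofReal_mul_I θ

theorem letter_inv' {θ : ℝ} (hθ : 2 * m * |θ| ≤ 1) (x : Bool × ℕ) (hx : x.2 + 1 < m) :
    (NL m (θ * Complex.I) x)ᴴ * GG m θ * NL m (θ * Complex.I) x = GG m θ := by
  set z : ℂ := θ * Complex.I with hz
  set A := Complex.exp z with hA
  have hA1 : ‖A‖ = 1 := exp_I_norm θ
  have hA0 : A ≠ 0 := Complex.exp_ne_zero z
  have h0 : ∀ h : ℤ, |h| ≤ m → cz z h ≠ 0 := by
    intro h hh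
    rw [hz, cz_I]
    have := cos_h hθ hh
    exact_mod_cast (by linarith : Real.cos (2 * h * θ) > 0).ne'
  have hTL := isTL_EE (m := m) (c := cz z) (cz_rec z) h0
  have hB : ‖A ^ sgn x‖ = 1 := by rw [norm_zpow, hA1, one_zpow]
  have hB0 := ne_zero_of_norm_one hB
  have hd : -(2 * Complex.cosh (2 * z)) = -A^2 - (A⁻¹)^2 := (dd_eq z).symm
  have hd' : -(2 * Complex.cosh (2 * z)) = -(A ^ sgn x)^2 - ((A ^ sgn x)⁻¹)^2 := by
    rcases sgn_cases x with h | h
    · rw [h, zpow_one]; exact hd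
    · rw [h, zpow_neg, zpow_one, inv_inv, hd]; ring
  have hs := conj_of_norm_one hB
  have h1 : (lo A (EE (cz z)) x)ᴴ * GG m θ = GG m θ * sg (A ^ sgn x)⁻¹ (EE (cz z)) x.2 := by
    rw [lo_eq]
    unfold sg
    rw [Matrix.conjTranspose_add, Matrix.conjTranspose_smul, Matrix.conjTranspose_smul,
      Matrix.conjTranspose_one, add_mul, smul_mul_assoc, smul_mul_assoc, one_mul, hz,
      selfadj_GG _ hx, mul_add,
      mul_smul_comm, mul_smul_comm, mul_one, star_inv₀, hs]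
  have h2 : (lo A (EE (cz z)) x)ᴴ * GG m θ * lo A (EE (cz z)) x = GG m θ := by
    rw [h1, mul_assoc, lo_eq, sg_inv' hB0 hd' hTL _ hx, mul_one]
  have h3 : NL m z x = A ^ (-3 * sgn x) • lo A (EE (cz z)) x := NL_lo z x
  rw [h3, Matrix.conjTranspose_smul, smul_mul_assoc, smul_mul_smul_comm, h2]
  have h4 : star (A ^ (-3 * sgn x)) * A ^ (-3 * sgn x) = 1 := by
    have h5 : ‖A ^ (-3 * sgn x)‖ = 1 := by rw [norm_zpow, hA1, one_zpow]
    rw [conj_of_norm_one h5, inv_mul_cancel₀ (ne_zero_of_norm_one h5)]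
  rw [h4, one_smul]

theorem NW_inv {θ : ℝ} (hθ : 2 * m * |θ| ≤ 1) (w : List (Bool × ℕ)) (hw : ∀ x ∈ w, x.2 + 1 < m) :
    (NW m (θ * Complex.I) w)ᴴ * GG m θ * NW m (θ * Complex.I) w = GG m θ := by
  induction w with
  | nil => simp [NW]
  | cons x w ih =>
    rw [NW_cons, Matrix.conjTranspose_mul]
    have h1 := letter_inv' hθ x (hw x List.mem_cons_self)
    have h2 := ih (fun y hy => hw y (List.mem_cons_of_mem _ hy))
    calc (NW m (θ * Complex.I) w)ᴴ * (NL m (θ * Complex.I) x)ᴴ * GG m θ *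
          (NL m (θ * Complex.I) x * NW m (θ * Complex.I) w)
        = (NW m (θ * Complex.I) w)ᴴ * ((NL m (θ * Complex.I) x)ᴴ * GG m θ * NL m (θ * Complex.I) x) *
            NW m (θ * Complex.I) w := by simp only [mul_assoc]
      _ = GG m θ := by rw [h1, h2]

theorem diag_le {θ : ℝ} (hθ : 2 * m * |θ| ≤ 1) {M : Matrix (Fin m → Fin 2) (Fin m → Fin 2) ℂ}
    (hM : Mᴴ * GG m θ * M = GG m θ) (x : Fin m → Fin 2) : ‖M x x‖ ≤ 1 := by
  have h := congrFun (congrFun hM x) x
  rw [mul_assoc, Matrix.mul_apply] at h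
  unfold GG at h
  simp only [Matrix.diagonal_mul, Matrix.conjTranspose_apply, Matrix.diagonal_apply_eq] at h
  have h1 : ∀ y, star (M y x) * (((Om θ y : ℝ) : ℂ) * M y x) = ((Om θ y * ‖M y x‖^2 : ℝ) : ℂ) := by
    intro y
    have h2 : star (M y x) * M y x = ((‖M y x‖^2 : ℝ) : ℂ) := by
      have h3 := Complex.normSq_eq_conj_mul_self (z := M y x)
      rw [Complex.normSq_eq_norm_sq] at h3
      exact h3.symm
    calc star (M y x) * (((Om θ y : ℝ) : ℂ) * M y x) = ((Om θ y : ℝ) : ℂ) * (star (M y x) * M y x) := by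
          ring
      _ = _ := by rw [h2]; push_cast; ring
  simp only [h1] at h
  rw [← Complex.ofReal_sum] at h
  have h4 : ∑ y, Om θ y * ‖M y x‖^2 = Om θ x := by exact_mod_cast h
  have h5 : Om θ x * ‖M x x‖^2 ≤ Om θ x := by
    have h50 := Finset.single_le_sum (f := fun y => Om θ y * ‖M y x‖^2)
      (fun y _ => mul_nonneg (Om_pos hθ y).le (sq_nonneg _)) (Finset.mem_univ x)
    linarith
  have h6 := Om_pos hθ x
  have h7 : ‖M x x‖^2 ≤ 1 := by
    by_contra h8
    push Not at h8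
    nlinarith
  nlinarith [norm_nonneg (M x x)]

theorem TT_le {θ : ℝ} {M : Matrix (Fin m → Fin 2) (Fin m → Fin 2) ℂ} {b : ℝ}
    (hM : ∀ x, ‖M x x‖ ≤ b) : ‖TT (cz (θ * Complex.I)) M‖ ≤ 2 ^ m * b := by
  unfold TT SS
  refine (norm_sum_le _ _).trans ?_
  calc ∑ x : Fin m → Fin 2, ‖cz (θ * Complex.I) (ht x m) * M x x‖ ≤ ∑ x : Fin m → Fin 2, b := by
        refine Finset.sum_le_sum fun x _ => ?_
        rw [norm_mul, cz_I, Complex.norm_real, Real.norm_eq_abs]
        have h1 := Real.abs_cos_le_one (2 * (ht x m) * θ)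
        have h2 := hM x
        have h3 := norm_nonneg (M x x)
        nlinarith [abs_nonneg (Real.cos (2 * (ht x m) * θ))]
    _ = 2 ^ m * b := by simp

/-- the uniform bound -/
theorem TT_bound {θ : ℝ} (hθ : 2 * m * |θ| ≤ 1) (w : List (Bool × ℕ)) (hw : ∀ x ∈ w, x.2 + 1 < m) :
    ‖TT (cz (θ * Complex.I)) (NW m (θ * Complex.I) w)‖ ≤ 2 ^ m := by
  have := TT_le (θ := θ) (fun x => diag_le hθ (NW_inv hθ w hw) x)
  rwa [mul_one] at this

end Pool.Agent.D0H83.GD
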